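import Pool.Agent.H189R2.Iid.Final

/-! Halving pairs of tuples of points: comparison with levels, stability, lines. -/

set_option autoImplicit false

namespace Run7.h726.HL

open Finset MeasureTheory Filter Topology Pool.Agent.H189R2.Iid
open scoped ENNReal

/-- twice the signed area of a triangle -/
def D (p q r : ℝ × ℝ) : ℝ := (q.1 - p.1) * (r.2 - p.2) - (q.2 - p.2) * (r.1 - p.1)

theorem D_swap (p q r : ℝ × ℝ) : D q p r = -D p q r := by unfold D; ring

theorem D_fst (p q : ℝ × ℝ) : D p q p = 0 := by unfold D; ring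

theorem D_snd (p q : ℝ × ℝ) : D p q q = 0 := by unfold D; ring

open Classical in
/-- number of points strictly to the left of the pair -/
noncomputable def lf {n : ℕ} (P : Fin n → ℝ × ℝ) (q : Fin n × Fin n) : ℕ :=
  (univ.filter (fun l => 0 < D (P q.1) (P q.2) (P l))).card

open Classical in
/-- number of points strictly to the right of the pair -/
noncomputable def rt {n : ℕ} (P : Fin n → ℝ × ℝ) (q : Fin n × Fin n) : ℕ :=
  (univ.filter (fun l => D (P q.1) (P q.2) (P l) < 0)).card

theorem lf_swap {n : ℕ} (P : Fin n → ℝ × ℝ) (q : Fin n × Fin n) : lf P q.swap = rt P q := by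
  classical
  unfold lf rt
  congr 1
  ext l
  simp only [mem_filter, mem_univ, true_and, Prod.fst_swap, Prod.snd_swap]
  rw [D_swap]
  constructor <;> intro h <;> linarith

open Classical in
/-- the pairs with exactly `m` points strictly on each side -/
noncomputable def H {n : ℕ} (m : ℕ) (P : Fin n → ℝ × ℝ) : Finset (Fin n × Fin n) :=
  univ.filter (fun q => q.1 ≠ q.2 ∧ lf P q = m ∧ rt P q = m)

theorem mem_H {n m : ℕ} {P : Fin n → ℝ × ℝ} {q : Fin n × Fin n} :
    q ∈ H m P ↔ q.1 ≠ q.2 ∧ lf P q = m ∧ rt P q = m := by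
  classical
  unfold H; simp

theorem mem_low_iff {p q r : ℝ × ℝ} (h : q.1 < p.1) : r ∈ low p q ↔ 0 < D p q r := by
  unfold low Y2 X2 D
  have h' : 0 < p.1 - q.1 := by linarith
  simp only [Set.mem_ofPred_eq]
  have e : p.1 * ((q.2 - p.2) / (p.1 - q.1)) + p.2 - (r.1 * ((q.2 - p.2) / (p.1 - q.1)) + r.2) =
      ((q.1 - p.1) * (r.2 - p.2) - (q.2 - p.2) * (r.1 - p.1)) / (p.1 - q.1) := by
    field_simp
    ring
  rw [← sub_pos, e, div_pos_iff_of_pos_right h']

theorem lev_eq {n : ℕ} {P : Fin n → ℝ × ℝ} {q : Fin n × Fin n} (h : q ∈ T P) :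
    lev P q = lf P q := by
  classical
  unfold lev lf
  congr 1
  ext l
  simp only [mem_filter, mem_univ, true_and]
  exact mem_low_iff (mem_T.mp h)

open Classical in
theorem H_card {n m : ℕ} {P : Fin n → ℝ × ℝ} (hP : GP P) :
    (H m P).card ≤ 2 * ((T P).filter (fun q => lev P q = m)).card := by
  set S := (T P).filter (fun q => lev P q = m) with hS
  have hsub : H m P ⊆ S ∪ S.image Prod.swap := by
    intro q hq
    obtain ⟨h1, h2, h3⟩ := mem_H.mp hq
    have hne : (P q.1).1 ≠ (P q.2).1 := fun h => h1 (hP.1 _ _ h)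
    rw [mem_union, mem_image]
    rcases lt_or_gt_of_ne hne with h | h
    · right
      refine ⟨q.swap, ?_, Prod.swap_swap q⟩
      have hT : q.swap ∈ T P := mem_T.mpr h
      rw [hS, mem_filter]
      exact ⟨hT, by rw [lev_eq hT, lf_swap, h3]⟩
    · left
      have hT : q ∈ T P := mem_T.mpr h
      rw [hS, mem_filter]
      exact ⟨hT, by rw [lev_eq hT, h2]⟩
  have c1 := card_le_card hsub
  have c2 := card_union_le S (S.image Prod.swap)
  have c3 := card_image_le (s := S) (f := Prod.swap)
  omega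

/-- the perturbed tuple -/
def pert {n : ℕ} (P u : Fin n → ℝ × ℝ) (δ : ℝ) : Fin n → ℝ × ℝ :=
  fun i => ((P i).1 + δ * (u i).1, (P i).2 + δ * (u i).2)

theorem pert_zero {n : ℕ} (P u : Fin n → ℝ × ℝ) : pert P u 0 = P := by
  funext i; unfold pert; simp

theorem D_cont {n : ℕ} (P u : Fin n → ℝ × ℝ) (i j l : Fin n) :
    Continuous (fun δ => D (pert P u δ i) (pert P u δ j) (pert P u δ l)) := by
  unfold D pert
  fun_prop

/-- halving pairs are stable -/
theorem H_stable {n m : ℕ} (hn : n ≤ 2 * m + 2) (P u : Fin n → ℝ × ℝ) :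
    ∀ᶠ δ in 𝓝 (0 : ℝ), H m P ⊆ H m (pert P u δ) := by
  classical
  have h1 : ∀ᶠ δ in 𝓝 (0 : ℝ), ∀ i j l : Fin n, 0 < D (P i) (P j) (P l) →
      0 < D (pert P u δ i) (pert P u δ j) (pert P u δ l) := by
    rw [eventually_all]; intro i
    rw [eventually_all]; intro j
    rw [eventually_all]; intro l
    by_cases h : 0 < D (P i) (P j) (P l)
    · have hc := (D_cont P u i j l).tendsto 0
      rw [pert_zero] at hc
      filter_upwards [hc.eventually (lt_mem_nhds h)] with δ hδ _ using hδ
    · exact Eventually.of_forall (fun δ h' => absurd h' h)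
  have h2 : ∀ᶠ δ in 𝓝 (0 : ℝ), ∀ i j l : Fin n, D (P i) (P j) (P l) < 0 →
      D (pert P u δ i) (pert P u δ j) (pert P u δ l) < 0 := by
    rw [eventually_all]; intro i
    rw [eventually_all]; intro j
    rw [eventually_all]; intro l
    by_cases h : D (P i) (P j) (P l) < 0
    · have hc := (D_cont P u i j l).tendsto 0
      rw [pert_zero] at hc
      filter_upwards [hc.eventually (gt_mem_nhds h)] with δ hδ _ using hδ
    · exact Eventually.of_forall (fun δ h' => absurd h' h)
  filter_upwards [h1, h2] with δ hp hm q hq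
  obtain ⟨g1, g2, g3⟩ := mem_H.mp hq
  rw [mem_H]
  set Q := pert P u δ with hQ
  set A := univ.filter (fun l => 0 < D (P q.1) (P q.2) (P l)) with hA
  set B := univ.filter (fun l => D (P q.1) (P q.2) (P l) < 0) with hB
  set A' := univ.filter (fun l => 0 < D (Q q.1) (Q q.2) (Q l)) with hA'
  set B' := univ.filter (fun l => D (Q q.1) (Q q.2) (Q l) < 0) with hB'
  have eA : A.card = m := by rw [← g2]; rfl
  have eB : B.card = m := by rw [← g3]; rfl
  have sA : A ⊆ A' := fun l hl => by
    rw [hA, mem_filter] at hl; rw [hA', mem_filter]; exact ⟨mem_univ _, hp _ _ _ hl.2⟩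
  have sB : B ⊆ B' := fun l hl => by
    rw [hB, mem_filter] at hl; rw [hB', mem_filter]; exact ⟨mem_univ _, hm _ _ _ hl.2⟩
  have hd : Disjoint A' B' := by
    rw [Finset.disjoint_left]
    intro l hl hl'
    rw [hA', mem_filter] at hl; rw [hB', mem_filter] at hl'
    linarith [hl.2, hl'.2]
  have hun : A' ∪ B' ⊆ (univ.erase q.1).erase q.2 := by
    intro l hl
    rw [mem_erase, mem_erase]
    rw [mem_union, hA', hB', mem_filter, mem_filter] at hl
    refine ⟨?_, ?_, mem_univ _⟩
    · rintro rfl
      rw [D_snd] at hl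
      rcases hl with hl | hl <;> exact lt_irrefl _ hl.2
    · rintro rfl
      rw [D_fst] at hl
      rcases hl with hl | hl <;> exact lt_irrefl _ hl.2
  have hc := card_le_card hun
  rw [card_union_of_disjoint hd, card_erase_of_mem (mem_erase.mpr ⟨fun h => g1 h.symm, mem_univ _⟩),
    card_erase_of_mem (mem_univ _), card_univ, Fintype.card_fin] at hc
  have cA := card_le_card sA
  have cB := card_le_card sB
  refine ⟨g1, ?_, ?_⟩
  · show A'.card = m
    omega
  · show B'.card = m
    omega

end Run7.h726.HL
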