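import Pool.Agent.Run7.h726.HL.A

/-! Expected number of halving pairs for independent points with an arbitrary common law. -/

set_option autoImplicit false

namespace Run7.h726.HL

open Finset MeasureTheory Filter Topology Pool.Agent.H189R2.Iid
open scoped ENNReal

theorem meas_D {n : ℕ} (i j l : Fin n) :
    Measurable (fun P : Fin n → ℝ × ℝ => D (P i) (P j) (P l)) := by
  unfold D
  fun_prop

theorem meas_lf {n : ℕ} (q : Fin n × Fin n) : Measurable (fun P : Fin n → ℝ × ℝ => lf P q) := by
  classical
  unfold lf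
  simp_rw [card_filter]
  exact Finset.measurable_sum _ (fun l _ => Measurable.ite
    (measurableSet_lt measurable_const (meas_D q.1 q.2 l)) measurable_const measurable_const)

theorem meas_rt {n : ℕ} (q : Fin n × Fin n) : Measurable (fun P : Fin n → ℝ × ℝ => rt P q) := by
  classical
  unfold rt
  simp_rw [card_filter]
  exact Finset.measurable_sum _ (fun l _ => Measurable.ite
    (measurableSet_lt (meas_D q.1 q.2 l) measurable_const) measurable_const measurable_const)

theorem meas_H (n m : ℕ) : Measurable (fun P : Fin n → ℝ × ℝ => ((H m P).card : ℝ≥0∞)) := by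
  classical
  have h : Measurable (fun P : Fin n → ℝ × ℝ => (H m P).card) := by
    unfold H
    simp_rw [card_filter]
    refine Finset.measurable_sum _ (fun q _ => Measurable.ite ?_ measurable_const measurable_const)
    by_cases h : q.1 ≠ q.2
    · have : {P : Fin n → ℝ × ℝ | q.1 ≠ q.2 ∧ lf P q = m ∧ rt P q = m} =
          {P | lf P q = m} ∩ {P | rt P q = m} := by
        ext P
        constructor
        · rintro ⟨_, h2, h3⟩; exact ⟨h2, h3⟩
        · rintro ⟨h2, h3⟩; exact ⟨h, h2, h3⟩
      rw [this]
      exact ((meas_lf q) (measurableSet_singleton m)).inter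
        ((meas_rt q) (measurableSet_singleton m))
    · have : {P : Fin n → ℝ × ℝ | q.1 ≠ q.2 ∧ lf P q = m ∧ rt P q = m} = ∅ := by
        ext P
        constructor
        · rintro ⟨h1, _⟩; exact h h1
        · intro h1; exact absurd h1 (Set.notMem_empty _)
      rw [this]
      exact MeasurableSet.empty
  exact (measurable_from_top (f := fun k : ℕ => (k : ℝ≥0∞))).comp h

/-- the uniform law of the unit interval -/
noncomputable def u1 : Measure ℝ := volume.restrict (Set.Icc (0 : ℝ) 1)

instance : IsProbabilityMeasure u1 := ⟨by unfold u1; simp⟩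

theorem u1_single (c : ℝ) : u1 {c} = 0 := by
  unfold u1
  exact le_antisymm ((Measure.restrict_apply_le _ _).trans (by simp)) (by simp)

/-- the uniform law of the unit square -/
noncomputable def u2 : Measure (ℝ × ℝ) := u1.prod u1

instance : IsProbabilityMeasure u2 := by unfold u2; infer_instance

theorem u1_affine {a : ℝ} (ha : a ≠ 0) (c : ℝ) : u1 {t : ℝ | a * t = c} = 0 := by
  have : {t : ℝ | a * t = c} = {c / a} := by
    ext t
    constructor
    · intro h
      have h' : a * t = c := h
      show t = c / a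
      rw [eq_div_iff ha]; linarith
    · intro h
      have h' : t = c / a := h
      show a * t = c
      rw [h']; field_simp
  rw [this, u1_single]

theorem meas_line (a b c : ℝ) : MeasurableSet {y : ℝ × ℝ | a * y.1 + b * y.2 = c} :=
  measurableSet_eq_fun (by fun_prop) measurable_const

theorem u2_line {a b : ℝ} (h : a ≠ 0 ∨ b ≠ 0) (c : ℝ) :
    u2 {y : ℝ × ℝ | a * y.1 + b * y.2 = c} = 0 := by
  rcases h with h | h
  · have hs : MeasurableSet {y : ℝ × ℝ | a * y.1 + b * y.2 = c} := meas_line a b c
    unfold u2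
    rw [← Measure.prod_swap (μ := u1) (ν := u1), Measure.map_apply measurable_swap hs,
      Measure.measure_prod_null (measurable_swap hs)]
    refine Eventually.of_forall (fun x => ?_)
    have : Prod.mk x ⁻¹' (Prod.swap ⁻¹' {y : ℝ × ℝ | a * y.1 + b * y.2 = c}) =
        {t : ℝ | a * t = c - b * x} := by
      ext t
      constructor
      · intro h'
        have h'' : a * t + b * x = c := h'
        show a * t = c - b * x
        linarith
      · intro h'
        have h'' : a * t = c - b * x := h'
        show a * t + b * x = c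
        linarith
    show u1 _ = 0
    rw [this]
    exact u1_affine h _
  · have hs : MeasurableSet {y : ℝ × ℝ | a * y.1 + b * y.2 = c} := meas_line a b c
    unfold u2
    rw [Measure.measure_prod_null hs]
    refine Eventually.of_forall (fun x => ?_)
    have : Prod.mk x ⁻¹' {y : ℝ × ℝ | a * y.1 + b * y.2 = c} =
        {t : ℝ | b * t = c - a * x} := by
      ext t
      constructor
      · intro h'
        have h'' : a * x + b * t = c := h'
        show b * t = c - a * x
        linarith
      · intro h'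
        have h'' : b * t = c - a * x := h'
        show a * x + b * t = c
        linarith
    show u1 _ = 0
    rw [this]
    exact u1_affine h _

/-- moving a point -/
def mv (δ : ℝ) (w : (ℝ × ℝ) × (ℝ × ℝ)) : ℝ × ℝ := (w.1.1 + δ * w.2.1, w.1.2 + δ * w.2.2)

theorem meas_mv (δ : ℝ) : Measurable (mv δ) := by
  unfold mv
  fun_prop

/-- the law of a point moved by uniform noise -/
noncomputable def lawd (μ : Measure (ℝ × ℝ)) (δ : ℝ) : Measure (ℝ × ℝ) :=
  Measure.map (mv δ) (μ.prod u2)

instance (μ : Measure (ℝ × ℝ)) [IsProbabilityMeasure μ] (δ : ℝ) :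
    IsProbabilityMeasure (lawd μ δ) := by
  unfold lawd
  exact Measure.isProbabilityMeasure_map (meas_mv δ).aemeasurable

theorem LN_lawd (μ : Measure (ℝ × ℝ)) [IsProbabilityMeasure μ] {δ : ℝ} (hδ : δ ≠ 0) :
    LN (lawd μ δ) := by
  intro a b c hab
  have hs := meas_line a b c
  unfold lawd
  rw [Measure.map_apply (meas_mv δ) hs, Measure.measure_prod_null ((meas_mv δ) hs)]
  refine Eventually.of_forall (fun x => ?_)
  have : Prod.mk x ⁻¹' (mv δ ⁻¹' {y : ℝ × ℝ | a * y.1 + b * y.2 = c}) =
      {y : ℝ × ℝ | (a * δ) * y.1 + (b * δ) * y.2 = c - a * x.1 - b * x.2} := by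
    ext y
    constructor
    · intro h'
      have h'' : a * (x.1 + δ * y.1) + b * (x.2 + δ * y.2) = c := h'
      show (a * δ) * y.1 + (b * δ) * y.2 = c - a * x.1 - b * x.2
      linarith
    · intro h'
      have h'' : (a * δ) * y.1 + (b * δ) * y.2 = c - a * x.1 - b * x.2 := h'
      show a * (x.1 + δ * y.1) + b * (x.2 + δ * y.2) = c
      linarith
  show u2 _ = 0
  rw [this]
  apply u2_line
  rcases hab with h | h
  · exact Or.inl (mul_ne_zero h hδ)
  · exact Or.inr (mul_ne_zero h hδ)

/-- laws without charged lines -/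
theorem pairs_LN {μ : Measure (ℝ × ℝ)} [IsProbabilityMeasure μ] (hμ : LN μ) {n m : ℕ}
    (hn : 2 * m + 2 ≤ n) :
    ∫⁻ P, ((H m P).card : ℝ≥0∞) ∂Measure.pi (fun _ : Fin n => μ) ≤
      2 * ENNReal.ofReal (1308 * SS * n * ((m : ℝ) + 1) ^ (1 / 6 : ℝ)) := by
  classical
  calc ∫⁻ P, ((H m P).card : ℝ≥0∞) ∂Measure.pi (fun _ : Fin n => μ)
      ≤ ∫⁻ P, 2 * (((T P).filter (fun q => lev P q = m)).card : ℝ≥0∞)
          ∂Measure.pi (fun _ : Fin n => μ) := by
        apply lintegral_mono_ae
        filter_upwards [ae_GP hμ n] with P hP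
        have := H_card (m := m) hP
        exact_mod_cast this
    _ = 2 * ∫⁻ P, (((T P).filter (fun q => lev P q = m)).card : ℝ≥0∞)
          ∂Measure.pi (fun _ : Fin n => μ) := by
        rw [lintegral_const_mul' _ _ (by norm_num)]
    _ ≤ _ := by gcongr; exact level_bound hμ hn

/-- arbitrary laws -/
theorem pairs_any (μ : Measure (ℝ × ℝ)) [IsProbabilityMeasure μ] {n m : ℕ}
    (hn : n = 2 * m + 2) :
    ∫⁻ P, ((H m P).card : ℝ≥0∞) ∂Measure.pi (fun _ : Fin n => μ) ≤
      2 * ENNReal.ofReal (1308 * SS * n * ((m : ℝ) + 1) ^ (1 / 6 : ℝ)) := by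
  classical
  set K := 2 * ENNReal.ofReal (1308 * SS * n * ((m : ℝ) + 1) ^ (1 / 6 : ℝ)) with hK
  set W := Measure.pi (fun _ : Fin n => μ.prod u2) with hW
  set dl : ℕ → ℝ := fun s => 1 / ((s : ℝ) + 1) with hdl
  have hdl0 : ∀ s, dl s ≠ 0 := fun s => by
    rw [hdl]; positivity
  have hdlt : Tendsto dl atTop (𝓝 0) := tendsto_one_div_add_atTop_nhds_zero_nat
  -- the moved tuples
  have hmap : ∀ s, Measure.pi (fun _ : Fin n => lawd μ (dl s)) =
      Measure.map (fun (w : Fin n → (ℝ × ℝ) × (ℝ × ℝ)) i => mv (dl s) (w i)) W := by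
    intro s
    rw [hW]
    unfold lawd
    rw [Measure.pi_map_pi (fun _ => (meas_mv (dl s)).aemeasurable)]
  have hmapf : Measure.pi (fun _ : Fin n => μ) =
      Measure.map (fun (w : Fin n → (ℝ × ℝ) × (ℝ × ℝ)) i => (w i).1) W := by
    rw [hW, Measure.pi_map_pi (fun _ => measurable_fst.aemeasurable)]
    congr 1
    funext i
    exact (Measure.map_fst_prod (μ := μ) (ν := u2)).symm ▸ by simp
  have mfst : Measurable (fun (w : Fin n → (ℝ × ℝ) × (ℝ × ℝ)) (i : Fin n) => (w i).1) :=
    measurable_pi_lambda _ (fun i => measurable_fst.comp (measurable_pi_apply i))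
  have mmv : ∀ s, Measurable (fun (w : Fin n → (ℝ × ℝ) × (ℝ × ℝ)) (i : Fin n) =>
      mv (dl s) (w i)) := fun s =>
    measurable_pi_lambda _ (fun i => (meas_mv (dl s)).comp (measurable_pi_apply i))
  rw [hmapf, lintegral_map (meas_H n m) mfst]
  calc ∫⁻ w, ((H m (fun i => (w i).1)).card : ℝ≥0∞) ∂W
      ≤ ∫⁻ w, liminf (fun s => ((H m (fun i => mv (dl s) (w i))).card : ℝ≥0∞)) atTop ∂W := by
        apply lintegral_mono
        intro w
        refine le_liminf_of_le (by isBoundedDefault) ?_
        have h := H_stable (m := m) hn.le (fun i => (w i).1) (fun i => (w i).2)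
        filter_upwards [hdlt.eventually h] with s hs
        have e : pert (fun i => (w i).1) (fun i => (w i).2) (dl s) = fun i => mv (dl s) (w i) := by
          funext i; rfl
        rw [e] at hs
        exact_mod_cast card_le_card hs
    _ ≤ liminf (fun s => ∫⁻ w, ((H m (fun i => mv (dl s) (w i))).card : ℝ≥0∞) ∂W) atTop :=
        lintegral_liminf_le (fun s => (meas_H n m).comp (mmv s))
    _ ≤ K := by
        refine liminf_le_of_le (by isBoundedDefault) ?_
        intro b hb
        obtain ⟨s, hs⟩ := hb.exists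
        refine hs.trans ?_
        have e : ∫⁻ w, ((H m (fun i => mv (dl s) (w i))).card : ℝ≥0∞) ∂W =
            ∫⁻ P, ((H m P).card : ℝ≥0∞) ∂Measure.pi (fun _ : Fin n => lawd μ (dl s)) := by
          rw [hmap s, lintegral_map (meas_H n m) (mmv s)]
        rw [e]
        exact pairs_LN (LN_lawd μ (hdl0 s)) hn.ge

end Run7.h726.HL
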