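import Pool.Agent.Run7.h726.HL.B

/-! Bisecting lines of tuples of points. -/

set_option autoImplicit false

namespace Run7.h726.HL

open Finset MeasureTheory Filter Topology Pool.Agent.H189R2.Iid
open scoped ENNReal

/-- The set of points `(x, y)` of the plane with `a x + b y = c`. -/
def Line (a b c : ℝ) : Set (ℝ × ℝ) := {p | a * p.1 + b * p.2 = c}

open scoped Classical in
/-- `L` is a bisector (halving line) of the points `P 0, …, P (n - 1)`: a line through two distinct
points of the family such that each of the two open half-planes bounded by it contains exactly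
`n / 2 - 1` of the points (counted with their indices). -/
def IsBisector {n : ℕ} (P : Fin n → ℝ × ℝ) (L : Set (ℝ × ℝ)) : Prop :=
  ∃ a b c : ℝ, (a ≠ 0 ∨ b ≠ 0) ∧ L = Line a b c ∧
    (∃ i j : Fin n, P i ≠ P j ∧ P i ∈ L ∧ P j ∈ L) ∧
    (univ.filter (fun i => a * (P i).1 + b * (P i).2 < c)).card = n / 2 - 1 ∧
    (univ.filter (fun i => c < a * (P i).1 + b * (P i).2)).card = n / 2 - 1

theorem sign_rel {a b c : ℝ} (hab : a ≠ 0 ∨ b ≠ 0) {p q : ℝ × ℝ} (hpq : p ≠ q)
    (hp : a * p.1 + b * p.2 = c) (hq : a * q.1 + b * q.2 = c) :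
    ∃ κ : ℝ, κ ≠ 0 ∧ ∀ r : ℝ × ℝ, D p q r = κ * (a * r.1 + b * r.2 - c) := by
  have hS : 0 < a ^ 2 + b ^ 2 := by
    rcases hab with h | h
    · have := sq_pos_of_ne_zero h
      nlinarith [sq_nonneg b]
    · have := sq_pos_of_ne_zero h
      nlinarith [sq_nonneg a]
  refine ⟨(-a * (q.2 - p.2) + b * (q.1 - p.1)) / (a ^ 2 + b ^ 2), ?_, ?_⟩
  · apply div_ne_zero _ hS.ne'
    intro h0
    have h1 : a * (q.1 - p.1) + b * (q.2 - p.2) = 0 := by linarith
    have h2 : (a ^ 2 + b ^ 2) * (q.1 - p.1) = 0 := by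
      have : (a ^ 2 + b ^ 2) * (q.1 - p.1) = a * (a * (q.1 - p.1) + b * (q.2 - p.2)) +
        b * (-a * (q.2 - p.2) + b * (q.1 - p.1)) := by ring
      rw [this, h0, h1]; ring
    have h3 : (a ^ 2 + b ^ 2) * (q.2 - p.2) = 0 := by
      have : (a ^ 2 + b ^ 2) * (q.2 - p.2) = b * (a * (q.1 - p.1) + b * (q.2 - p.2)) -
        a * (-a * (q.2 - p.2) + b * (q.1 - p.1)) := by ring
      rw [this, h0, h1]; ring
    have h4 := (mul_eq_zero.mp h2).resolve_left hS.ne'
    have h5 := (mul_eq_zero.mp h3).resolve_left hS.ne'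
    exact hpq (Prod.ext (by linarith) (by linarith))
  · intro r
    rw [div_mul_eq_mul_div, eq_div_iff hS.ne']
    unfold D
    have h1 : a * (q.1 - p.1) + b * (q.2 - p.2) = 0 := by linarith
    have e : ((q.1 - p.1) * (r.2 - p.2) - (q.2 - p.2) * (r.1 - p.1)) * (a ^ 2 + b ^ 2) =
        (-a * (q.2 - p.2) + b * (q.1 - p.1)) * (a * (r.1 - p.1) + b * (r.2 - p.2)) +
        (a * (q.1 - p.1) + b * (q.2 - p.2)) * (a * (r.2 - p.2) - b * (r.1 - p.1)) := by ring
    rw [e, h1, zero_mul, add_zero]
    congr 1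
    linarith

theorem bis_subset {n : ℕ} (P : Fin n → ℝ × ℝ) :
    {L | IsBisector P L} ⊆
      (fun q : Fin n × Fin n => {r : ℝ × ℝ | D (P q.1) (P q.2) r = 0}) '' (H (n / 2 - 1) P : Set _) := by
  classical
  rintro L ⟨a, b, c, hab, rfl, ⟨i, j, hij, hi, hj⟩, h1, h2⟩
  have hi' : a * (P i).1 + b * (P i).2 = c := hi
  have hj' : a * (P j).1 + b * (P j).2 = c := hj
  obtain ⟨κ, hκ, hr⟩ := sign_rel hab hij hi' hj'
  refine ⟨(i, j), ?_, ?_⟩
  · rw [mem_coe, mem_H]
    refine ⟨fun h => hij (congrArg P h), ?_⟩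
    rcases lt_or_gt_of_ne hκ with hk | hk
    · have e1 : lf P (i, j) = n / 2 - 1 := by
        rw [← h1]
        unfold lf
        congr 1
        ext l
        simp only [mem_filter, mem_univ, true_and]
        rw [hr, mul_pos_iff]
        constructor
        · rintro (⟨h, _⟩ | ⟨_, h⟩)
          · linarith
          · linarith
        · intro h; right; exact ⟨hk, by linarith⟩
      have e2 : rt P (i, j) = n / 2 - 1 := by
        rw [← h2]
        unfold rt
        congr 1
        ext l
        simp only [mem_filter, mem_univ, true_and]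
        rw [hr, mul_neg_iff]
        constructor
        · rintro (⟨h, _⟩ | ⟨_, h⟩)
          · linarith
          · linarith
        · intro h; right; exact ⟨hk, by linarith⟩
      exact ⟨e1, e2⟩
    · have e1 : lf P (i, j) = n / 2 - 1 := by
        rw [← h2]
        unfold lf
        congr 1
        ext l
        simp only [mem_filter, mem_univ, true_and]
        rw [hr, mul_pos_iff]
        constructor
        · rintro (⟨_, h⟩ | ⟨h, _⟩)
          · linarith
          · linarith
        · intro h; left; exact ⟨hk, by linarith⟩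
      have e2 : rt P (i, j) = n / 2 - 1 := by
        rw [← h1]
        unfold rt
        congr 1
        ext l
        simp only [mem_filter, mem_univ, true_and]
        rw [hr, mul_neg_iff]
        constructor
        · rintro (⟨_, h⟩ | ⟨h, _⟩)
          · linarith
          · linarith
        · intro h; left; exact ⟨hk, by linarith⟩
      exact ⟨e1, e2⟩
  · ext r
    show D (P i) (P j) r = 0 ↔ a * r.1 + b * r.2 = c
    rw [hr, mul_eq_zero]
    constructor
    · rintro (h | h)
      · exact absurd h hκ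
      · linarith
    · intro h; right; linarith

theorem bis_finite {n : ℕ} (P : Fin n → ℝ × ℝ) : {L | IsBisector P L}.Finite :=
  (((H (n / 2 - 1) P).finite_toSet).image _).subset (bis_subset P)

theorem bis_le {n : ℕ} (P : Fin n → ℝ × ℝ) :
    {L | IsBisector P L}.ncard ≤ (H (n / 2 - 1) P).card := by
  calc {L | IsBisector P L}.ncard
      ≤ ((fun q : Fin n × Fin n => {r : ℝ × ℝ | D (P q.1) (P q.2) r = 0}) ''
          (H (n / 2 - 1) P : Set _)).ncard :=
        Set.ncard_le_ncard (bis_subset P) (((H (n / 2 - 1) P).finite_toSet).image _)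
    _ ≤ (H (n / 2 - 1) P : Set (Fin n × Fin n)).ncard :=
        Set.ncard_image_le (H (n / 2 - 1) P).finite_toSet
    _ = _ := Set.ncard_coe_finset _

/-- the constant -/
noncomputable def CC : ℝ := 2616 * SS

theorem CC_pos : 0 < CC := by
  unfold CC
  have := SS_ge
  linarith

theorem main (μ : Measure (ℝ × ℝ)) [IsProbabilityMeasure μ] {n : ℕ} (hn : Even n) :
    ∫⁻ P, ({L | IsBisector P L}.ncard : ℝ≥0∞) ∂Measure.pi (fun _ : Fin n => μ) ≤
      ENNReal.ofReal (CC * (n : ℝ) ^ (7 / 6 : ℝ)) := by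
  obtain ⟨k, hk⟩ := hn
  rcases Nat.eq_zero_or_pos k with h0 | h0
  · have : n = 0 := by omega
    subst this
    have e : ∀ P : Fin 0 → ℝ × ℝ, ({L | IsBisector P L}.ncard : ℝ≥0∞) = 0 := by
      intro P
      have : {L | IsBisector P L} = ∅ := by
        ext L
        constructor
        · rintro ⟨a, b, c, _, _, ⟨i, _⟩, _⟩
          exact i.elim0
        · intro h; exact absurd h (Set.notMem_empty _)
      rw [this]; simp
    simp_rw [e]
    simp
  · have hm : n = 2 * (n / 2 - 1) + 2 := by omega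
    refine (lintegral_mono (fun P => ?_)).trans ((pairs_any μ hm).trans ?_)
    · exact Nat.cast_le.mpr (bis_le P)
    · set m := n / 2 - 1 with hmd
      have hSS := SS_ge
      rw [show (2 : ℝ≥0∞) = ENNReal.ofReal 2 by norm_num, ← ENNReal.ofReal_mul (by norm_num)]
      apply ENNReal.ofReal_le_ofReal
      have hn0 : (0 : ℝ) < n := by exact_mod_cast (by omega : 0 < n)
      have h1 : ((m : ℝ) + 1) ^ (1 / 6 : ℝ) ≤ (n : ℝ) ^ (1 / 6 : ℝ) := by
        apply Real.rpow_le_rpow (by positivity) _ (by norm_num)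
        have : m + 1 ≤ n := by omega
        exact_mod_cast this
      have h2 : (n : ℝ) ^ (7 / 6 : ℝ) = n * (n : ℝ) ^ (1 / 6 : ℝ) := by
        rw [show (7 / 6 : ℝ) = 1 + 1 / 6 by norm_num, Real.rpow_add hn0, Real.rpow_one]
      rw [h2]
      unfold CC
      calc 2 * (1308 * SS * n * ((m : ℝ) + 1) ^ (1 / 6 : ℝ))
          ≤ 2 * (1308 * SS * n * (n : ℝ) ^ (1 / 6 : ℝ)) := by gcongr
        _ = _ := by ring

open scoped Classical in
/-- `L` is a bisector (halving line) of the finite set `S`: a line through two points of `S` such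
that each of the two open half-planes bounded by it contains exactly `|S| / 2 - 1` points
of `S`. -/
def SetBisector (S : Finset (ℝ × ℝ)) (L : Set (ℝ × ℝ)) : Prop :=
  ∃ a b c : ℝ, (a ≠ 0 ∨ b ≠ 0) ∧ L = Line a b c ∧
    (∃ p ∈ S, ∃ q ∈ S, p ≠ q ∧ p ∈ L ∧ q ∈ L) ∧
    (S.filter (fun p => a * p.1 + b * p.2 < c)).card = S.card / 2 - 1 ∧
    (S.filter (fun p => c < a * p.1 + b * p.2)).card = S.card / 2 - 1

open scoped Classical in
theorem bis_iff_set {n : ℕ} {P : Fin n → ℝ × ℝ} (hP : Function.Injective P)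
    (L : Set (ℝ × ℝ)) : IsBisector P L ↔ SetBisector (univ.image P) L := by
  have hc : (univ.image P).card = n := by
    rw [card_image_of_injective _ hP, card_univ, Fintype.card_fin]
  have e1 : ∀ a b c : ℝ, ((univ.image P).filter (fun p => a * p.1 + b * p.2 < c)).card =
      (univ.filter (fun i => a * (P i).1 + b * (P i).2 < c)).card := by
    intro a b c
    rw [filter_image, card_image_of_injective _ hP]
  have e2 : ∀ a b c : ℝ, ((univ.image P).filter (fun p => c < a * p.1 + b * p.2)).card =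
      (univ.filter (fun i => c < a * (P i).1 + b * (P i).2)).card := by
    intro a b c
    rw [filter_image, card_image_of_injective _ hP]
  unfold IsBisector SetBisector
  constructor
  · rintro ⟨a, b, c, hab, hL, ⟨i, j, hij, hi, hj⟩, h1, h2⟩
    refine ⟨a, b, c, hab, hL, ⟨P i, mem_image_of_mem _ (mem_univ _), P j,
      mem_image_of_mem _ (mem_univ _), hij, hi, hj⟩, ?_, ?_⟩
    · rw [e1, hc]; exact h1
    · rw [e2, hc]; exact h2
  · rintro ⟨a, b, c, hab, hL, ⟨p, hp, q, hq, hpq, hp', hq'⟩, h1, h2⟩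
    obtain ⟨i, _, rfl⟩ := mem_image.mp hp
    obtain ⟨j, _, rfl⟩ := mem_image.mp hq
    refine ⟨a, b, c, hab, hL, ⟨i, j, hpq, hp', hq'⟩, ?_, ?_⟩
    · rw [e1, hc] at h1; exact h1
    · rw [e2, hc] at h2; exact h2

end Run7.h726.HL
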