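import Pool.Agent.Run7.h726.HL.C

/-! Clusters on short parallel segments around the points of a configuration. -/

set_option autoImplicit false

namespace Run7.h726.HL

open Finset MeasureTheory Filter Topology Pool.Agent.H189R2.Iid
open scoped ENNReal

/-- a point of the cluster `z.1` -/
def cl {m : ℕ} (p : Fin m → ℝ × ℝ) (δ w : ℝ) (z : Fin m × ℝ) : ℝ × ℝ :=
  ((p z.1).1 + δ * z.2, (p z.1).2 + δ * z.2 * w)

/-- position of the pair with respect to the direction of the segments -/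
def kap {m : ℕ} (p : Fin m → ℝ × ℝ) (w : ℝ) (a b : Fin m) : ℝ :=
  ((p b).1 - (p a).1) * w - ((p b).2 - (p a).2)

variable {m : ℕ} {p : Fin m → ℝ × ℝ} {δ w : ℝ}

theorem D_cl_fst (a b : Fin m) (s t r : ℝ) :
    D (cl p δ w (a, s)) (cl p δ w (b, t)) (cl p δ w (a, r)) = δ * (r - s) * kap p w a b := by
  unfold D cl kap; ring

theorem D_cl_snd (a b : Fin m) (s t r : ℝ) :
    D (cl p δ w (a, s)) (cl p δ w (b, t)) (cl p δ w (b, r)) = δ * (r - t) * kap p w a b := by
  unfold D cl kap; ring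

theorem D_cl_gen (a b c : Fin m) (s t r : ℝ) :
    D (cl p δ w (a, s)) (cl p δ w (b, t)) (cl p δ w (c, r)) =
      D (p a) (p b) (p c) + δ * ((r - s) * kap p w a b - (t - s) * kap p w a c) := by
  unfold D cl kap; ring

/-- general position of a family: distinct points, no three on a line -/
def GenPos {m : ℕ} (p : Fin m → ℝ × ℝ) : Prop :=
  Function.Injective p ∧ ∀ a b c, a ≠ b → a ≠ c → b ≠ c → D (p a) (p b) (p c) ≠ 0

theorem exists_dir (hp : Function.Injective p) : ∃ w : ℝ, ∀ a b, a ≠ b → kap p w a b ≠ 0 := by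
  classical
  obtain ⟨w, hw⟩ := Infinite.exists_notMem_finset
    ((univ : Finset (Fin m × Fin m)).image
      (fun q => ((p q.2).2 - (p q.1).2) / ((p q.2).1 - (p q.1).1)))
  refine ⟨w, fun a b hab h => ?_⟩
  unfold kap at h
  by_cases hx : (p b).1 - (p a).1 = 0
  · rw [hx, zero_mul, zero_sub, neg_eq_zero] at h
    exact hab (hp (Prod.ext (by linarith) (by linarith)))
  · apply hw
    rw [mem_image]
    refine ⟨(a, b), mem_univ _, ?_⟩
    simp only
    rw [div_eq_iff hx]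
    linarith

/-- the signs of the pairs of clusters are those of the configuration -/
def Good (p : Fin m → ℝ × ℝ) (δ w : ℝ) : Prop :=
  0 < δ ∧ (∀ a b, a ≠ b → kap p w a b ≠ 0) ∧
  ∀ a b c, c ≠ a → c ≠ b → ∀ s t r : ℝ, 0 ≤ s → s ≤ 1 → 0 ≤ t → t ≤ 1 → 0 ≤ r → r ≤ 1 →
    (0 < D (p a) (p b) (p c) →
      0 < D (cl p δ w (a, s)) (cl p δ w (b, t)) (cl p δ w (c, r))) ∧
    (D (p a) (p b) (p c) < 0 →
      D (cl p δ w (a, s)) (cl p δ w (b, t)) (cl p δ w (c, r)) < 0)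

theorem exists_good (hp : Function.Injective p) : ∃ δ w : ℝ, Good p δ w := by
  obtain ⟨w, hw⟩ := exists_dir hp
  have h : ∀ a b c : Fin m, ∀ᶠ δ in 𝓝[>] (0 : ℝ), ∀ s t r : ℝ, 0 ≤ s → s ≤ 1 → 0 ≤ t → t ≤ 1 →
      0 ≤ r → r ≤ 1 →
      (0 < D (p a) (p b) (p c) →
        0 < D (cl p δ w (a, s)) (cl p δ w (b, t)) (cl p δ w (c, r))) ∧
      (D (p a) (p b) (p c) < 0 →
        D (cl p δ w (a, s)) (cl p δ w (b, t)) (cl p δ w (c, r)) < 0) := by
    intro a b c
    by_cases h0 : D (p a) (p b) (p c) = 0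
    · refine Eventually.of_forall (fun δ s t r _ _ _ _ _ _ => ⟨fun h => ?_, fun h => ?_⟩)
      · rw [h0] at h; exact absurd h (lt_irrefl _)
      · rw [h0] at h; exact absurd h (lt_irrefl _)
    set K := |kap p w a b| + |kap p w a c| with hK
    have hK0 : 0 ≤ K := by positivity
    have hD : 0 < |D (p a) (p b) (p c)| := abs_pos.mpr h0
    have hδ : ∀ᶠ δ in 𝓝[>] (0 : ℝ), δ * K < |D (p a) (p b) (p c)| := by
      have h1 : Tendsto (fun δ : ℝ => δ * K) (𝓝 0) (𝓝 (0 * K)) :=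
        (continuous_id.mul continuous_const).tendsto 0
      rw [zero_mul] at h1
      exact (h1.mono_left nhdsWithin_le_nhds).eventually (gt_mem_nhds hD)
    filter_upwards [hδ, self_mem_nhdsWithin] with δ h1 h2 s t r s0 s1 t0 t1 r0 r1
    have h2' : 0 < δ := h2
    have e := D_cl_gen (p := p) (δ := δ) (w := w) a b c s t r
    have hb : |δ * ((r - s) * kap p w a b - (t - s) * kap p w a c)| ≤ δ * K := by
      rw [abs_mul, abs_of_pos h2']
      apply mul_le_mul_of_nonneg_left _ h2'.le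
      calc |(r - s) * kap p w a b - (t - s) * kap p w a c|
          ≤ |(r - s) * kap p w a b| + |(t - s) * kap p w a c| := abs_sub _ _
        _ = |r - s| * |kap p w a b| + |t - s| * |kap p w a c| := by rw [abs_mul, abs_mul]
        _ ≤ 1 * |kap p w a b| + 1 * |kap p w a c| := by
            gcongr
            · exact abs_le.mpr ⟨by linarith, by linarith⟩
            · exact abs_le.mpr ⟨by linarith, by linarith⟩
        _ = K := by rw [hK]; ring
    have hb' := abs_le.mp hb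
    rw [e]
    constructor
    · intro h
      rw [abs_of_pos h] at h1
      linarith [hb'.1]
    · intro h
      rw [abs_of_neg h] at h1
      linarith [hb'.2]
  have h' : ∀ᶠ δ in 𝓝[>] (0 : ℝ), ∀ a b c : Fin m, ∀ s t r : ℝ, 0 ≤ s → s ≤ 1 → 0 ≤ t → t ≤ 1 →
      0 ≤ r → r ≤ 1 →
      (0 < D (p a) (p b) (p c) →
        0 < D (cl p δ w (a, s)) (cl p δ w (b, t)) (cl p δ w (c, r))) ∧
      (D (p a) (p b) (p c) < 0 →
        D (cl p δ w (a, s)) (cl p δ w (b, t)) (cl p δ w (c, r)) < 0) := by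
    rw [eventually_all]; intro a
    rw [eventually_all]; intro b
    rw [eventually_all]; intro c
    exact h a b c
  obtain ⟨δ, h1, h2⟩ := (h'.and self_mem_nhdsWithin).exists
  exact ⟨δ, w, h2, hw, fun a b c _ _ => h1 a b c⟩

/-- the central binomial coefficient -/
theorem cb_ge (k : ℕ) : 16 ^ k ≤ Nat.centralBinom k ^ 2 * (4 * k + 1) := by
  induction k with
  | zero => simp [Nat.centralBinom]
  | succ k ih =>
    have h := Nat.succ_mul_centralBinom_succ k
    have h2 : ((k + 1) * Nat.centralBinom (k + 1)) ^ 2 =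
        (2 * (2 * k + 1) * Nat.centralBinom k) ^ 2 := by rw [h]
    have hk : 0 < (k + 1) ^ 2 := by positivity
    apply Nat.le_of_mul_le_mul_left _ hk
    calc (k + 1) ^ 2 * 16 ^ (k + 1) = 16 * (k + 1) ^ 2 * 16 ^ k := by ring
      _ ≤ 16 * (k + 1) ^ 2 * (Nat.centralBinom k ^ 2 * (4 * k + 1)) := by gcongr
      _ = Nat.centralBinom k ^ 2 * (16 * (k + 1) ^ 2 * (4 * k + 1)) := by ring
      _ ≤ Nat.centralBinom k ^ 2 * (4 * (2 * k + 1) ^ 2 * (4 * (k + 1) + 1)) := by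
          apply Nat.mul_le_mul_left
          nlinarith
      _ = (2 * (2 * k + 1) * Nat.centralBinom k) ^ 2 * (4 * (k + 1) + 1) := by ring
      _ = ((k + 1) * Nat.centralBinom (k + 1)) ^ 2 * (4 * (k + 1) + 1) := by rw [h2]
      _ = _ := by ring

/-- lower bound for a central binomial probability -/
theorem central_low {k : ℕ} (hk : 1 ≤ k) {x : ℝ} (hx : 8 * k * x ^ 2 ≤ 1) :
    1 / (5 * Real.sqrt k) ≤ (Nat.choose (2 * k) k : ℝ) * ((1 / 2 + x) ^ k * (1 / 2 - x) ^ k) := by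
  have hk0 : (0 : ℝ) < k := by exact_mod_cast hk
  have hk1 : (1 : ℝ) ≤ k := by exact_mod_cast hk
  have hs : 0 < Real.sqrt k := Real.sqrt_pos.mpr hk0
  have hs2 : Real.sqrt k ^ 2 = k := Real.sq_sqrt hk0.le
  have e1 : (1 / 2 + x) ^ k * (1 / 2 - x) ^ k = (1 / 4) ^ k * (1 + (-(4 * x ^ 2))) ^ k := by
    rw [← mul_pow, ← mul_pow]; congr 1; ring
  have hb : 1 + (k : ℝ) * (-(4 * x ^ 2)) ≤ (1 + (-(4 * x ^ 2))) ^ k := by
    apply one_add_mul_le_pow
    nlinarith [sq_nonneg x]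
  have hb' : (1 : ℝ) / 2 ≤ (1 + (-(4 * x ^ 2))) ^ k := by
    refine le_trans ?_ hb
    linarith
  have hc : (16 : ℝ) ^ k ≤ (Nat.choose (2 * k) k : ℝ) ^ 2 * (4 * k + 1) := by
    have := cb_ge k
    rw [Nat.centralBinom] at this
    exact_mod_cast this
  have hc2 : (4 : ℝ) ^ k ≤ (Nat.choose (2 * k) k : ℝ) * (5 / 2 * Real.sqrt k) := by
    apply le_of_sq_le_sq _ (by positivity) |>.trans le_rfl
    · calc ((4 : ℝ) ^ k) ^ 2 = 16 ^ k := by rw [← pow_mul, mul_comm k 2, pow_mul]; norm_num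
        _ ≤ (Nat.choose (2 * k) k : ℝ) ^ 2 * (4 * k + 1) := hc
        _ ≤ (Nat.choose (2 * k) k : ℝ) ^ 2 * (25 / 4 * k) := by gcongr; linarith
        _ = _ := by rw [mul_pow, mul_pow, hs2]; ring
  rw [e1]
  have h4 : (1 / 4 : ℝ) ^ k * 4 ^ k = 1 := by rw [← mul_pow]; norm_num
  calc 1 / (5 * Real.sqrt k) = (1 / 4 : ℝ) ^ k * 4 ^ k * (1 / (5 * Real.sqrt k)) := by rw [h4]; ring
    _ ≤ (1 / 4 : ℝ) ^ k * ((Nat.choose (2 * k) k : ℝ) * (5 / 2 * Real.sqrt k)) *
        (1 / (5 * Real.sqrt k)) := by gcongr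
    _ = (Nat.choose (2 * k) k : ℝ) * ((1 / 4) ^ k * (1 / 2)) := by field_simp
    _ ≤ _ := by gcongr

end Run7.h726.HL
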