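import Pool.Agent.Run7.h726.HL.D1

/-! The law of a random point of a random cluster: mass to the left of a pair. -/

set_option autoImplicit false

namespace Run7.h726.HL

open Finset MeasureTheory Filter Topology Pool.Agent.H189R2.Iid Pool.Agent.H189R2.Lev
open scoped ENNReal

/-- uniform law on `m` copies of the unit interval -/
noncomputable def rho (m : ℕ) : Measure (Fin m × ℝ) :=
  (((m : ℝ≥0∞)⁻¹) • (Measure.count : Measure (Fin m))).prod u1

instance (m : ℕ) [NeZero m] :
    IsProbabilityMeasure (((m : ℝ≥0∞)⁻¹) • (Measure.count : Measure (Fin m))) := ⟨by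
  rw [Measure.smul_apply, Measure.count_univ, smul_eq_mul, ENat.card_eq_coe_fintype_card,
    Fintype.card_fin]
  exact ENNReal.inv_mul_cancel (by exact_mod_cast NeZero.ne m) (ENNReal.natCast_ne_top m)⟩

instance (m : ℕ) [NeZero m] : IsProbabilityMeasure (rho m) := by
  unfold rho; infer_instance

theorem rho_apply (m : ℕ) {A : Set (Fin m × ℝ)} (hA : MeasurableSet A) :
    rho m A = (m : ℝ≥0∞)⁻¹ * ∑ c, u1 (Prod.mk c ⁻¹' A) := by
  unfold rho
  rw [Measure.prod_apply hA, lintegral_smul_measure, lintegral_count, tsum_fintype, smul_eq_mul]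

theorem rho_prod (m : ℕ) (b : Fin m) {V : Set ℝ} (hV : MeasurableSet V) :
    rho m ({b} ×ˢ V) = (m : ℝ≥0∞)⁻¹ * u1 V := by
  classical
  rw [rho_apply m ((measurableSet_singleton b).prod hV)]
  congr 1
  rw [sum_eq_single b]
  · congr 1
    ext r
    simp
  · intro c _ hc
    have : Prod.mk c ⁻¹' (({b} : Set (Fin m)) ×ˢ V) = ∅ := by
      ext r
      simp [hc]
    rw [this, measure_empty]
  · intro h; exact absurd (mem_univ _) h

theorem u1_apply (A : Set ℝ) : u1 A = volume (A ∩ Set.Icc 0 1) := by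
  unfold u1; rw [Measure.restrict_apply' measurableSet_Icc]

/-- length of the part of the unit interval on one side of `s` -/
noncomputable def lam (κ s : ℝ) : ℝ := if 0 < κ then 1 - s else s

theorem u1_side {δ κ s : ℝ} (hδ : 0 < δ) (hκ : κ ≠ 0) (h0 : 0 ≤ s) (h1 : s ≤ 1) :
    u1 {r | 0 < δ * (r - s) * κ} = ENNReal.ofReal (lam κ s) := by
  rw [u1_apply]
  unfold lam
  split_ifs with hk
  · have : {r | 0 < δ * (r - s) * κ} ∩ Set.Icc 0 1 = Set.Ioc s 1 := by
      ext r
      simp only [Set.mem_inter_iff, Set.mem_ofPred_eq, Set.mem_Icc, Set.mem_Ioc]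
      rw [mul_pos_iff_of_pos_right hk, mul_pos_iff_of_pos_left hδ]
      constructor
      · rintro ⟨h2, h3, h4⟩; exact ⟨by linarith, h4⟩
      · rintro ⟨h2, h3⟩; exact ⟨by linarith, by linarith, h3⟩
    rw [this, Real.volume_Ioc]
  · have hk' : κ < 0 := lt_of_le_of_ne (not_lt.mp hk) hκ
    have : {r | 0 < δ * (r - s) * κ} ∩ Set.Icc 0 1 = Set.Ico 0 s := by
      ext r
      simp only [Set.mem_inter_iff, Set.mem_ofPred_eq, Set.mem_Icc, Set.mem_Ico]
      have e : 0 < δ * (r - s) * κ ↔ r < s := by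
        rw [show δ * (r - s) * κ = δ * (s - r) * (-κ) by ring,
          mul_pos_iff_of_pos_right (by linarith), mul_pos_iff_of_pos_left hδ, sub_pos]
      rw [e]
      constructor
      · rintro ⟨h2, h3, h4⟩; exact ⟨h3, h2⟩
      · rintro ⟨h2, h3⟩; exact ⟨h3, h2, by linarith⟩
    rw [this, Real.volume_Ico, sub_zero]

theorem u1_line {δ κ s : ℝ} (hδ : 0 < δ) (hκ : κ ≠ 0) :
    u1 {r | δ * (r - s) * κ = 0} = 0 := by
  have : {r | δ * (r - s) * κ = 0} = {s} := by
    ext r
    simp only [Set.mem_ofPred_eq, Set.mem_singleton_iff, mul_eq_zero]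
    constructor
    · rintro ((h | h) | h)
      · exact absurd h hδ.ne'
      · linarith
      · exact absurd h hκ
    · intro h; left; right; linarith
  rw [this, u1_single]

variable {m : ℕ} {p : Fin m → ℝ × ℝ} {δ w : ℝ}

theorem meas_cl (p : Fin m → ℝ × ℝ) (δ w : ℝ) : Measurable (cl p δ w) := by
  unfold cl
  have h : Measurable (fun z : Fin m × ℝ => p z.1) :=
    (measurable_of_countable p).comp measurable_fst
  exact (h.fst.add (measurable_snd.const_mul δ)).prodMk
    (h.snd.add ((measurable_snd.const_mul δ).mul_const w))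

theorem meas_D3 {Ω : Type*} [MeasurableSpace Ω] {f g h : Ω → ℝ × ℝ} (hf : Measurable f)
    (hg : Measurable g) (hh : Measurable h) : Measurable (fun x => D (f x) (g x) (h x)) := by
  unfold D
  exact ((hg.fst.sub hf.fst).mul (hh.snd.sub hf.snd)).sub
    ((hg.snd.sub hf.snd).mul (hh.fst.sub hf.fst))

theorem mass_left (hg : Good p δ w) (hp : GenPos p) {k0 : ℕ} {a b : Fin m}
    (hab : (a, b) ∈ H k0 p) {s t : ℝ} (s0 : 0 ≤ s) (s1 : s ≤ 1) (t0 : 0 ≤ t) (t1 : t ≤ 1) :
    rho m {z | 0 < D (cl p δ w (a, s)) (cl p δ w (b, t)) (cl p δ w z)} =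
      (m : ℝ≥0∞)⁻¹ * (ENNReal.ofReal (lam (kap p w a b) s) +
        (ENNReal.ofReal (lam (kap p w a b) t) + k0)) := by
  classical
  obtain ⟨hδ, hκ, hs⟩ := hg
  obtain ⟨h1, h2, h3⟩ := mem_H.mp hab
  have hne : a ≠ b := h1
  have hκ' := hκ a b hne
  rw [rho_apply m (measurableSet_lt measurable_const
    (meas_D3 measurable_const measurable_const (meas_cl p δ w)))]
  congr 1
  have hb : b ∈ univ.erase a := mem_erase.mpr ⟨hne.symm, mem_univ _⟩
  rw [← add_sum_erase univ _ (mem_univ a), ← add_sum_erase (univ.erase a) _ hb]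
  congr 1
  · have : (Prod.mk a ⁻¹' {z | 0 < D (cl p δ w (a, s)) (cl p δ w (b, t)) (cl p δ w z)}) =
        {r | 0 < δ * (r - s) * kap p w a b} := by
      ext r
      show 0 < D (cl p δ w (a, s)) (cl p δ w (b, t)) (cl p δ w (a, r)) ↔ _
      rw [D_cl_fst]; rfl
    rw [this, u1_side hδ hκ' s0 s1]
  congr 1
  · have : (Prod.mk b ⁻¹' {z | 0 < D (cl p δ w (a, s)) (cl p δ w (b, t)) (cl p δ w z)}) =
        {r | 0 < δ * (r - t) * kap p w a b} := by
      ext r
      show 0 < D (cl p δ w (a, s)) (cl p δ w (b, t)) (cl p δ w (b, r)) ↔ _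
      rw [D_cl_snd]; rfl
    rw [this, u1_side hδ hκ' t0 t1]
  · have e1 : ∀ c ∈ (univ.erase a).erase b,
        u1 (Prod.mk c ⁻¹' {z | 0 < D (cl p δ w (a, s)) (cl p δ w (b, t)) (cl p δ w z)}) =
        if 0 < D (p a) (p b) (p c) then 1 else 0 := by
      intro c hc
      rw [mem_erase, mem_erase] at hc
      have hD := hp.2 a b c hne hc.2.1.symm hc.1.symm
      have hs' := hs a b c hc.2.1 hc.1 s t
      rw [u1_apply]
      split_ifs with hpos
      · have : (Prod.mk c ⁻¹' {z | 0 < D (cl p δ w (a, s)) (cl p δ w (b, t)) (cl p δ w z)}) ∩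
            Set.Icc (0 : ℝ) 1 = Set.Icc 0 1 := by
          ext r
          constructor
          · rintro ⟨_, h⟩; exact h
          · intro h; exact ⟨(hs' r s0 s1 t0 t1 h.1 h.2).1 hpos, h⟩
        rw [this, Real.volume_Icc]; simp
      · have hneg : D (p a) (p b) (p c) < 0 := lt_of_le_of_ne (not_lt.mp hpos) hD
        have : (Prod.mk c ⁻¹' {z | 0 < D (cl p δ w (a, s)) (cl p δ w (b, t)) (cl p δ w z)}) ∩
            Set.Icc (0 : ℝ) 1 = ∅ := by
          ext r
          constructor
          · rintro ⟨h, h'⟩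
            have h4 : 0 < D (cl p δ w (a, s)) (cl p δ w (b, t)) (cl p δ w (c, r)) := h
            exact absurd h4 (not_lt.mpr ((hs' r s0 s1 t0 t1 h'.1 h'.2).2 hneg).le)
          · intro h; exact absurd h (Set.notMem_empty _)
        rw [this, measure_empty]
    rw [sum_congr rfl e1, sum_boole]
    have e2 : ((univ.erase a).erase b).filter (fun c => 0 < D (p a) (p b) (p c)) =
        univ.filter (fun c => 0 < D (p a) (p b) (p c)) := by
      ext c
      simp only [mem_filter, mem_erase, mem_univ, and_true, true_and]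
      constructor
      · rintro ⟨_, h⟩; exact h
      · intro h
        refine ⟨⟨?_, ?_⟩, h⟩
        · rintro rfl; rw [D_snd] at h; exact lt_irrefl _ h
        · rintro rfl; rw [D_fst] at h; exact lt_irrefl _ h
    rw [e2, ← h2]
    rfl

theorem null_line (hg : Good p δ w) (hp : GenPos p) {a b : Fin m} (hne : a ≠ b)
    {s t : ℝ} (s0 : 0 ≤ s) (s1 : s ≤ 1) (t0 : 0 ≤ t) (t1 : t ≤ 1) :
    rho m {z | D (cl p δ w (a, s)) (cl p δ w (b, t)) (cl p δ w z) = 0} = 0 := by
  obtain ⟨hδ, hκ, hs⟩ := hg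
  have hκ' := hκ a b hne
  rw [rho_apply m (measurableSet_eq_fun
    (meas_D3 measurable_const measurable_const (meas_cl p δ w)) measurable_const)]
  rw [sum_eq_zero, mul_zero]
  intro c _
  by_cases hca : c = a
  · subst hca
    have : (Prod.mk c ⁻¹' {z | D (cl p δ w (c, s)) (cl p δ w (b, t)) (cl p δ w z) = 0}) =
        {r | δ * (r - s) * kap p w c b = 0} := by
      ext r
      show D (cl p δ w (c, s)) (cl p δ w (b, t)) (cl p δ w (c, r)) = 0 ↔ _
      rw [D_cl_fst]; rfl
    rw [this, u1_line hδ hκ']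
  by_cases hcb : c = b
  · subst hcb
    have : (Prod.mk c ⁻¹' {z | D (cl p δ w (a, s)) (cl p δ w (c, t)) (cl p δ w z) = 0}) =
        {r | δ * (r - t) * kap p w a c = 0} := by
      ext r
      show D (cl p δ w (a, s)) (cl p δ w (c, t)) (cl p δ w (c, r)) = 0 ↔ _
      rw [D_cl_snd]; rfl
    rw [this, u1_line hδ hκ']
  have hD := hp.2 a b c hne (Ne.symm hca) (Ne.symm hcb)
  rw [u1_apply]
  have : (Prod.mk c ⁻¹' {z | D (cl p δ w (a, s)) (cl p δ w (b, t)) (cl p δ w z) = 0}) ∩
      Set.Icc (0 : ℝ) 1 = ∅ := by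
    ext r
    constructor
    · rintro ⟨h, h'⟩
      have h4 : D (cl p δ w (a, s)) (cl p δ w (b, t)) (cl p δ w (c, r)) = 0 := h
      have hs' := hs a b c hca hcb s t r s0 s1 t0 t1 h'.1 h'.2
      rcases lt_or_gt_of_ne hD with h5 | h5
      · have := hs'.2 h5; rw [h4] at this; exact absurd this (lt_irrefl _)
      · have := hs'.1 h5; rw [h4] at this; exact absurd this (lt_irrefl _)
    · intro h; exact absurd h (Set.notMem_empty _)
  rw [this, measure_empty]

end Run7.h726.HL
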