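import Pool.Agent.Run7.h726.HL.E

/-! The probability that a pair of points of two clusters is a halving pair. -/

set_option autoImplicit false

namespace Run7.h726.HL

open Finset MeasureTheory Filter Topology Pool.Agent.H189R2.Iid Pool.Agent.H189R2.Lev
open scoped ENNReal

variable {m : ℕ} {p : Fin m → ℝ × ℝ} {δ w : ℝ}

/-- the points `i`, `j` are in the clusters `a`, `b` at nearly opposite places -/
def Ev {m : ℕ} (n : ℕ) (η : ℝ) (a b : Fin m) (i j : Fin n) : Set (Fin n → Fin m × ℝ) :=
  {P | ((P i).1 = a ∧ 0 ≤ (P i).2 ∧ (P i).2 ≤ 1) ∧ (P j).1 = b ∧ 0 ≤ (P j).2 ∧ (P j).2 ≤ 1 ∧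
    |(P i).2 + (P j).2 - 1| ≤ η}

theorem meas_coord {n : ℕ} (a : Fin m) (i : Fin n) :
    MeasurableSet {P : Fin n → Fin m × ℝ | (P i).1 = a ∧ 0 ≤ (P i).2 ∧ (P i).2 ≤ 1} := by
  have m1 : Measurable (fun P : Fin n → Fin m × ℝ => P i) := measurable_pi_apply i
  exact (m1.fst (measurableSet_singleton a)).inter
    ((measurableSet_le measurable_const m1.snd).inter
      (measurableSet_le m1.snd measurable_const))

theorem meas_Ev (n : ℕ) (η : ℝ) (a b : Fin m) (i j : Fin n) : MeasurableSet (Ev n η a b i j) := by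
  have m1 : Measurable (fun P : Fin n → Fin m × ℝ => P i) := measurable_pi_apply i
  have m2 : Measurable (fun P : Fin n → Fin m × ℝ => P j) := measurable_pi_apply j
  have m3 : Measurable (fun P : Fin n → Fin m × ℝ => |(P i).2 + (P j).2 - 1|) :=
    ((m1.snd.add m2.snd).sub_const 1).abs
  have m4 : MeasurableSet {P : Fin n → Fin m × ℝ | |(P i).2 + (P j).2 - 1| ≤ η} :=
    measurableSet_le m3 measurable_const
  exact (meas_coord a i).inter ((m2.fst (measurableSet_singleton b)).inter
    ((measurableSet_le measurable_const m2.snd).inter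
      ((measurableSet_le m2.snd measurable_const).inter m4)))

theorem u1_near {η s : ℝ} (h0 : 0 ≤ η) (h1 : η ≤ 1) (s0 : 0 ≤ s) (s1 : s ≤ 1) :
    ENNReal.ofReal η ≤ u1 {r | 0 ≤ r ∧ r ≤ 1 ∧ |s + r - 1| ≤ η} := by
  rw [u1_apply]
  by_cases h : 1 - s + η ≤ 1
  · calc ENNReal.ofReal η = volume (Set.Icc (1 - s) (1 - s + η)) := by
          rw [Real.volume_Icc]; congr 1; ring
      _ ≤ _ := by
          apply measure_mono
          rintro r ⟨h2, h3⟩
          refine ⟨⟨by linarith, by linarith, ?_⟩, by linarith, by linarith⟩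
          rw [abs_le]; constructor <;> linarith
  · push Not at h
    calc ENNReal.ofReal η = volume (Set.Icc (1 - η) 1) := by
          rw [Real.volume_Icc]; congr 1; ring
      _ ≤ _ := by
          apply measure_mono
          rintro r ⟨h2, h3⟩
          refine ⟨⟨by linarith, by linarith, ?_⟩, by linarith, by linarith⟩
          rw [abs_le]; constructor <;> linarith

theorem meas_near (η s : ℝ) : MeasurableSet {r : ℝ | 0 ≤ r ∧ r ≤ 1 ∧ |s + r - 1| ≤ η} := by
  have m3 : Measurable (fun r : ℝ => |s + r - 1|) := ((measurable_id.const_add s).sub_const 1).abs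
  have m4 : MeasurableSet {r : ℝ | |s + r - 1| ≤ η} := measurableSet_le m3 measurable_const
  exact (measurableSet_le measurable_const measurable_id).inter
    ((measurableSet_le measurable_id measurable_const).inter m4)

theorem Ev_ge [NeZero m] {n : ℕ} {η : ℝ} (h0 : 0 ≤ η) (h1 : η ≤ 1) (a b : Fin m) {i j : Fin n}
    (hij : i ≠ j) :
    (m : ℝ≥0∞)⁻¹ * ENNReal.ofReal η * (m : ℝ≥0∞)⁻¹ ≤
      Measure.pi (fun _ : Fin n => rho m) (Ev n η a b i j) := by
  set A : Set (Fin n → Fin m × ℝ) := {P | (P i).1 = a ∧ 0 ≤ (P i).2 ∧ (P i).2 ≤ 1} with hA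
  have hAm : MeasurableSet A := meas_coord a i
  have hAv : Measure.pi (fun _ : Fin n => rho m) A = (m : ℝ≥0∞)⁻¹ := by
    have hs : MeasurableSet (({a} : Set (Fin m)) ×ˢ Set.Icc (0 : ℝ) 1) :=
      (measurableSet_singleton a).prod measurableSet_Icc
    have e1 : A = (fun P : Fin n → Fin m × ℝ => P i) ⁻¹'
        (({a} : Set (Fin m)) ×ˢ Set.Icc (0 : ℝ) 1) := by
      ext P
      constructor
      · rintro ⟨h2, h3, h4⟩; exact ⟨h2, h3, h4⟩
      · rintro ⟨h2, h3, h4⟩; exact ⟨h2, h3, h4⟩
    have h2 := (measurePreserving_eval (fun _ : Fin n => rho m) i).measure_preimage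
      hs.nullMeasurableSet
    have h3 : Measure.pi (fun _ : Fin n => rho m) A =
        rho m (({a} : Set (Fin m)) ×ˢ Set.Icc (0 : ℝ) 1) := by
      rw [e1]; exact h2
    rw [h3, rho_prod m a measurableSet_Icc, u1_apply, Set.inter_self, Real.volume_Icc]
    simp
  have hEm := meas_Ev n η a b i j
  rw [← lintegral_indicator_one hEm, pi_update _ j (measurable_one.indicator hEm)]
  calc (m : ℝ≥0∞)⁻¹ * ENNReal.ofReal η * (m : ℝ≥0∞)⁻¹
      = ∫⁻ P, A.indicator (fun _ => (m : ℝ≥0∞)⁻¹ * ENNReal.ofReal η) P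
          ∂Measure.pi (fun _ : Fin n => rho m) := by
        rw [lintegral_indicator_const hAm, hAv]
    _ ≤ _ := by
        apply lintegral_mono
        intro P
        by_cases hP : P ∈ A
        · rw [Set.indicator_of_mem hP]
          have e2 : ∀ y, (Ev n η a b i j).indicator (1 : (Fin n → Fin m × ℝ) → ℝ≥0∞)
              (Function.update P j y) =
              (({b} : Set (Fin m)) ×ˢ {r : ℝ | 0 ≤ r ∧ r ≤ 1 ∧ |(P i).2 + r - 1| ≤ η}).indicator
                1 y := by
            intro y
            by_cases hy : y ∈ ({b} : Set (Fin m)) ×ˢ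
                {r : ℝ | 0 ≤ r ∧ r ≤ 1 ∧ |(P i).2 + r - 1| ≤ η}
            · rw [Set.indicator_of_mem hy, Set.indicator_of_mem]
              · rfl
              · obtain ⟨h2, h3, h4, h5⟩ := hy
                unfold Ev
                rw [Set.mem_ofPred_eq, Function.update_of_ne hij, Function.update_self]
                exact ⟨hP, h2, h3, h4, h5⟩
            · rw [Set.indicator_of_notMem hy, Set.indicator_of_notMem]
              intro h2
              apply hy
              unfold Ev at h2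
              rw [Set.mem_ofPred_eq, Function.update_of_ne hij, Function.update_self] at h2
              obtain ⟨_, h3, h4, h5, h6⟩ := h2
              exact ⟨h3, h4, h5, h6⟩
          simp_rw [e2]
          rw [lintegral_indicator_one ((measurableSet_singleton b).prod (meas_near _ _)),
            rho_prod m b (meas_near _ _)]
          gcongr
          exact u1_near h0 h1 hP.2.1 hP.2.2
        · rw [Set.indicator_of_notMem hP]
          exact zero_le

/-- the points to the left of the pair `(i, j)` -/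
def leftRS {m : ℕ} (p : Fin m → ℝ × ℝ) (δ w : ℝ) {n : ℕ} {U : Finset (Fin n)} (i j : Fin n)
    (hU : ∀ l ∈ U, l ≠ i ∧ l ≠ j) : RandSet n U (Fin m × ℝ) where
  Lo P z := 0 < D (cl p δ w (P i)) (cl p δ w (P j)) (cl p δ w z)
  meas := by
    have m1 : ∀ i : Fin n, Measurable (fun p : (Fin n → Fin m × ℝ) × (Fin m × ℝ) => p.1 i) :=
      fun i => (measurable_pi_apply i).comp measurable_fst
    exact measurableSet_lt measurable_const (meas_D3 ((meas_cl p δ w).comp (m1 i))
      ((meas_cl p δ w).comp (m1 j)) ((meas_cl p δ w).comp measurable_snd))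
  inv := by
    intro l hl P y z
    rw [Function.update_of_ne (hU l hl).1.symm, Function.update_of_ne (hU l hl).2.symm]

/-- the mass to the left of a good pair -/
theorem F_eq [NeZero m] (hg : Good p δ w) (hp : GenPos p) {k0 n : ℕ} (hm : m = 2 * k0 + 2)
    {a b : Fin m} (hab : (a, b) ∈ H k0 p) {U : Finset (Fin n)} {i j : Fin n}
    (hU : ∀ l ∈ U, l ≠ i ∧ l ≠ j) {η : ℝ} {P : Fin n → Fin m × ℝ} (hP : P ∈ Ev n η a b i j) :
    ∃ x : ℝ, |x| ≤ η / m ∧ (leftRS p δ w i j hU).F (rho m) P = 1 / 2 + x := by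
  obtain ⟨⟨ha, hs0, hs1⟩, hb, ht0, ht1, hst⟩ := hP
  set s := (P i).2 with hs
  set t := (P j).2 with ht
  set κ := kap p w a b with hκ
  have hPi : P i = (a, s) := Prod.ext ha rfl
  have hPj : P j = (b, t) := Prod.ext hb rfl
  have hm0 : (0 : ℝ) < m := by exact_mod_cast Nat.pos_of_ne_zero (NeZero.ne m)
  have hl1 : 0 ≤ lam κ s := by unfold lam; split_ifs <;> linarith
  have hl2 : 0 ≤ lam κ t := by unfold lam; split_ifs <;> linarith
  have h1 : (leftRS p δ w i j hU).F (rho m) P = (lam κ s + (lam κ t + k0)) / m := by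
    unfold RandSet.F
    have e : {y | (leftRS p δ w i j hU).Lo P y} =
        {z | 0 < D (cl p δ w (a, s)) (cl p δ w (b, t)) (cl p δ w z)} := by
      ext z
      show 0 < D (cl p δ w (P i)) (cl p δ w (P j)) (cl p δ w z) ↔ _
      rw [hPi, hPj]; rfl
    rw [e, mass_left hg hp hab hs0 hs1 ht0 ht1, ENNReal.toReal_mul, ENNReal.toReal_inv,
      ENNReal.toReal_natCast, ENNReal.toReal_add ENNReal.ofReal_ne_top
        (ENNReal.add_ne_top.mpr ⟨ENNReal.ofReal_ne_top, ENNReal.natCast_ne_top k0⟩),
      ENNReal.toReal_add ENNReal.ofReal_ne_top (ENNReal.natCast_ne_top k0),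
      ENNReal.toReal_ofReal hl1, ENNReal.toReal_ofReal hl2, ENNReal.toReal_natCast]
    field_simp
  refine ⟨(lam κ s + lam κ t - 1) / m, ?_, ?_⟩
  · rw [abs_div, abs_of_pos hm0]
    gcongr
    have e2 : |lam κ s + lam κ t - 1| = |s + t - 1| := by
      unfold lam
      split_ifs
      · rw [show (1 - s) + (1 - t) - 1 = -(s + t - 1) by ring, abs_neg]
      · rfl
    rw [e2]; exact hst
  · rw [h1]
    have hk : (m : ℝ) = 2 * k0 + 2 := by exact_mod_cast hm
    have hk0 : (k0 : ℝ) = m / 2 - 1 := by linarith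
    rw [hk0]
    field_simp
    ring

end Run7.h726.HL
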