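import Pool.Agent.Run7.h726.HL.E2

/-! Expected number of halving pairs of the law of clusters. -/

set_option autoImplicit false

namespace Run7.h726.HL

open Finset MeasureTheory Filter Topology Pool.Agent.H189R2.Iid Pool.Agent.H189R2.Lev
open scoped ENNReal

variable {m : ℕ} {p : Fin m → ℝ × ℝ} {δ w : ℝ}

/-- the points of the plane given by a tuple of cluster points -/
def pts {m n : ℕ} (p : Fin m → ℝ × ℝ) (δ w : ℝ) (P : Fin n → Fin m × ℝ) : Fin n → ℝ × ℝ :=
  fun l => cl p δ w (P l)

theorem meas_pts (p : Fin m → ℝ × ℝ) (δ w : ℝ) (n : ℕ) :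
    Measurable (pts (n := n) p δ w) :=
  measurable_pi_lambda _ (fun l => (meas_cl p δ w).comp (measurable_pi_apply l))

/-- the halving event of a pair -/
def Hv {m : ℕ} (p : Fin m → ℝ × ℝ) (δ w : ℝ) (n k : ℕ) (η : ℝ) (a b : Fin m) (i j : Fin n) :
    Set (Fin n → Fin m × ℝ) :=
  {P | P ∈ Ev n η a b i j ∧ lf (pts p δ w P) (i, j) = k ∧ rt (pts p δ w P) (i, j) = k}

theorem meas_Hv (p : Fin m → ℝ × ℝ) (δ w : ℝ) (n k : ℕ) (η : ℝ) (a b : Fin m) (i j : Fin n) :
    MeasurableSet (Hv p δ w n k η a b i j) :=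
  (meas_Ev n η a b i j).inter
    ((((meas_lf (i, j)).comp (meas_pts p δ w n)) (measurableSet_singleton k)).inter
      (((meas_rt (i, j)).comp (meas_pts p δ w n)) (measurableSet_singleton k)))

theorem Ev_update {n : ℕ} {η : ℝ} {a b : Fin m} {i j l : Fin n} (h1 : l ≠ i) (h2 : l ≠ j)
    (P : Fin n → Fin m × ℝ) (y : Fin m × ℝ) :
    Function.update P l y ∈ Ev n η a b i j ↔ P ∈ Ev n η a b i j := by
  unfold Ev
  rw [Set.mem_ofPred_eq, Set.mem_ofPred_eq, Function.update_of_ne h1.symm,
    Function.update_of_ne h2.symm]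

/-- no third point on the line of the pair -/
theorem null_third [NeZero m] (hg : Good p δ w) (hp : GenPos p) {n : ℕ} {η : ℝ} {a b : Fin m}
    (hne : a ≠ b) (i j : Fin n) :
    ∀ᵐ P ∂Measure.pi (fun _ : Fin n => rho m), P ∈ Ev n η a b i j → ∀ l, l ≠ i → l ≠ j →
      D (pts p δ w P i) (pts p δ w P j) (pts p δ w P l) ≠ 0 := by
  have h : ∀ᵐ P ∂Measure.pi (fun _ : Fin n => rho m), ∀ l, l ≠ i → l ≠ j →
      P ∈ Ev n η a b i j → D (pts p δ w P i) (pts p δ w P j) (pts p δ w P l) ≠ 0 := by
    rw [ae_all_iff]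
    intro l
    by_cases h1 : l = i
    · exact Eventually.of_forall (fun _ h => absurd h1 h)
    by_cases h2 : l = j
    · exact Eventually.of_forall (fun _ _ h => absurd h2 h)
    have hN : Measure.pi (fun _ : Fin n => rho m) {P | P ∈ Ev n η a b i j ∧
        D (pts p δ w P i) (pts p δ w P j) (pts p δ w P l) = 0} = 0 := by
      have hm1 : Measurable (fun P : Fin n → Fin m × ℝ =>
          D (pts p δ w P i) (pts p δ w P j) (pts p δ w P l)) :=
        (meas_D i j l).comp (meas_pts p δ w n)
      apply null_coord l ((meas_Ev n η a b i j).inter (measurableSet_eq_fun hm1 measurable_const))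
      intro P
      by_cases hP : P ∈ Ev n η a b i j
      · obtain ⟨⟨ha, hs0, hs1⟩, hb, ht0, ht1, hst⟩ := hP
        have hPi : P i = (a, (P i).2) := Prod.ext ha rfl
        have hPj : P j = (b, (P j).2) := Prod.ext hb rfl
        refine measure_mono_null ?_ (null_line hg hp hne hs0 hs1 ht0 ht1)
        rintro y ⟨_, hy⟩
        have hy' : D (cl p δ w (Function.update P l y i)) (cl p δ w (Function.update P l y j))
          (cl p δ w (Function.update P l y l)) = 0 := hy
        rw [Function.update_of_ne (Ne.symm h1), Function.update_of_ne (Ne.symm h2),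
          Function.update_self, hPi, hPj] at hy'
        exact hy'
      · refine measure_mono_null (t := ∅) ?_ measure_empty
        rintro y ⟨h3, _⟩
        exact absurd ((Ev_update h1 h2 P y).mp h3) hP
    rw [← compl_mem_ae_iff] at hN
    filter_upwards [hN] with P hP _ _ h3 h4
    exact hP ⟨h3, h4⟩
  filter_upwards [h] with P hP h1 l h2 h3 using hP l h2 h3 h1

/-- the sum of the numbers of points on the two sides -/
theorem lf_add_rt {n k : ℕ} (hn : n = 2 * k + 2) (Q : Fin n → ℝ × ℝ) {i j : Fin n} (hij : i ≠ j)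
    (h : ∀ l, l ≠ i → l ≠ j → D (Q i) (Q j) (Q l) ≠ 0) (hl : lf Q (i, j) = k) :
    rt Q (i, j) = k := by
  classical
  have hun : univ.filter (fun l => 0 < D (Q i) (Q j) (Q l)) ∪
      univ.filter (fun l => D (Q i) (Q j) (Q l) < 0) = (univ.erase i).erase j := by
    ext l
    simp only [mem_union, mem_filter, mem_univ, true_and, mem_erase, and_true]
    constructor
    · intro hl
      refine ⟨?_, ?_⟩
      · rintro rfl
        rw [D_snd] at hl
        rcases hl with hl | hl <;> exact lt_irrefl _ hl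
      · rintro rfl
        rw [D_fst] at hl
        rcases hl with hl | hl <;> exact lt_irrefl _ hl
    · rintro ⟨h1, h2⟩
      rcases lt_or_gt_of_ne (h l h2 h1) with h3 | h3
      · right; exact h3
      · left; exact h3
  have hd : Disjoint (univ.filter (fun l => 0 < D (Q i) (Q j) (Q l)))
      (univ.filter (fun l => D (Q i) (Q j) (Q l) < 0)) := by
    rw [Finset.disjoint_left]
    intro l h1 h2
    rw [mem_filter] at h1 h2
    linarith [h1.2, h2.2]
  have hc := card_union_of_disjoint hd
  rw [hun, card_erase_of_mem (mem_erase.mpr ⟨fun h => hij h.symm, mem_univ _⟩),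
    card_erase_of_mem (mem_univ _), card_univ, Fintype.card_fin] at hc
  have e1 : lf Q (i, j) = (univ.filter (fun l => 0 < D (Q i) (Q j) (Q l))).card := rfl
  have e2 : rt Q (i, j) = (univ.filter (fun l => D (Q i) (Q j) (Q l) < 0)).card := rfl
  omega

theorem prob_ge [NeZero m] (hg : Good p δ w) (hp : GenPos p) {k0 k n : ℕ} (hm : m = 2 * k0 + 2)
    (hn : n = 2 * k + 2) (hk : 1 ≤ k) (hmk : m ^ 2 ≤ 8 * k) {a b : Fin m}
    (hab : (a, b) ∈ H k0 p) {i j : Fin n} (hij : i ≠ j) :
    ENNReal.ofReal (1 / (15 * m * k)) ≤ Measure.pi (fun _ : Fin n => rho m)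
      (Hv p δ w n k (m / Real.sqrt (8 * k)) a b i j) := by
  classical
  set η : ℝ := m / Real.sqrt (8 * k) with hη
  have hk0 : (0 : ℝ) < k := by exact_mod_cast hk
  have hm0 : (0 : ℝ) < m := by exact_mod_cast Nat.pos_of_ne_zero (NeZero.ne m)
  have hs8 : 0 < Real.sqrt (8 * k) := Real.sqrt_pos.mpr (by positivity)
  have hs8' : Real.sqrt (8 * k) ^ 2 = 8 * k := Real.sq_sqrt (by positivity)
  have hη0 : 0 ≤ η := by positivity
  have hη1 : η ≤ 1 := by
    rw [hη, div_le_one hs8]
    apply Real.le_sqrt_of_sq_le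
    exact_mod_cast hmk
  have hne : a ≠ b := (mem_H.mp hab).1
  set U : Finset (Fin n) := (univ.erase i).erase j with hU
  have hUl : ∀ l ∈ U, l ≠ i ∧ l ≠ j := by
    intro l hl
    rw [hU, mem_erase, mem_erase] at hl
    exact ⟨hl.2.1, hl.1⟩
  have hUc : U.card = 2 * k := by
    rw [hU, card_erase_of_mem (by rw [mem_erase]; exact ⟨hij.symm, mem_univ _⟩),
      card_erase_of_mem (mem_univ _), card_univ, Fintype.card_fin]
    omega
  have hbin := (leftRS p δ w i j hUl).binomial (rho m) (meas_Ev n η a b i j)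
    (fun l hl P y => Ev_update (hUl l hl).1 (hUl l hl).2 P y) k
  rw [hUc] at hbin
  -- the event of the binomial law is almost surely contained in the halving event
  have hsub : Measure.pi (fun _ : Fin n => rho m)
      {P | P ∈ Ev n η a b i j ∧ (leftRS p δ w i j hUl).cnt P = k} ≤
      Measure.pi (fun _ : Fin n => rho m) (Hv p δ w n k η a b i j) := by
    apply measure_mono_ae
    filter_upwards [null_third hg hp (η := η) hne i j] with P hP hP'
    obtain ⟨h1, h2⟩ := hP'
    have hl : lf (pts p δ w P) (i, j) = k := by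
      rw [← h2]
      unfold lf RandSet.cnt
      congr 1
      ext l
      simp only [mem_filter, mem_univ, true_and]
      constructor
      · intro hl
        refine ⟨?_, hl⟩
        rw [hU, mem_erase, mem_erase]
        refine ⟨?_, ?_, mem_univ _⟩
        · rintro rfl; rw [D_snd] at hl; exact lt_irrefl _ hl
        · rintro rfl; rw [D_fst] at hl; exact lt_irrefl _ hl
      · intro hl; exact hl.2
    exact ⟨h1, hl, lf_add_rt hn _ hij (hP h1) hl⟩
  refine le_trans ?_ hsub
  rw [hbin]
  have hcen : ∀ P ∈ Ev n η a b i j, ENNReal.ofReal (1 / (5 * Real.sqrt k)) ≤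
      ((2 * k).choose k : ℝ≥0∞) * ENNReal.ofReal ((leftRS p δ w i j hUl).F (rho m) P ^ k *
        (1 - (leftRS p δ w i j hUl).F (rho m) P) ^ (2 * k - k)) := by
    intro P hP
    obtain ⟨x, hx, hF⟩ := F_eq hg hp hm hab hUl hP
    rw [hF]
    have hx2 : 8 * k * x ^ 2 ≤ 1 := by
      have h1 : x ^ 2 ≤ (η / m) ^ 2 := by
        rw [← sq_abs x]
        exact pow_le_pow_left₀ (abs_nonneg x) hx 2
      have h2 : (η / m) ^ 2 = 1 / (8 * k) := by
        rw [hη, div_div, mul_comm, ← div_div, div_self hm0.ne', div_pow, hs8', one_pow]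
      rw [h2] at h1
      calc 8 * k * x ^ 2 ≤ 8 * k * (1 / (8 * k)) := by gcongr
        _ = 1 := by field_simp
    have hc := central_low hk hx2
    rw [← ENNReal.ofReal_natCast, ← ENNReal.ofReal_mul (Nat.cast_nonneg _)]
    apply ENNReal.ofReal_le_ofReal
    rw [show 2 * k - k = k by omega, show 1 - (1 / 2 + x) = 1 / 2 - x by ring]
    exact hc
  calc ENNReal.ofReal (1 / (15 * m * k))
      ≤ ENNReal.ofReal (1 / (5 * Real.sqrt k)) * ((m : ℝ≥0∞)⁻¹ * ENNReal.ofReal η *
          (m : ℝ≥0∞)⁻¹) := by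
        have e1 : (m : ℝ≥0∞)⁻¹ = ENNReal.ofReal ((m : ℝ)⁻¹) := by
          rw [ENNReal.ofReal_inv_of_pos hm0, ENNReal.ofReal_natCast]
        rw [e1, ← ENNReal.ofReal_mul (by positivity), ← ENNReal.ofReal_mul (by positivity),
          ← ENNReal.ofReal_mul (by positivity)]
        apply ENNReal.ofReal_le_ofReal
        have hs : Real.sqrt (8 * k) * Real.sqrt k ≤ 3 * k := by
          rw [← Real.sqrt_mul (by positivity)]
          rw [Real.sqrt_le_left (by positivity)]
          nlinarith
        have hsk : 0 < Real.sqrt k := Real.sqrt_pos.mpr hk0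
        have e2 : 1 / (5 * Real.sqrt k) * ((m : ℝ)⁻¹ * η * (m : ℝ)⁻¹) =
            1 / (5 * m * (Real.sqrt (8 * k) * Real.sqrt k)) := by
          rw [hη]
          field_simp
        rw [e2]
        apply one_div_le_one_div_of_le (by positivity)
        calc 5 * m * (Real.sqrt (8 * k) * Real.sqrt k) ≤ 5 * m * (3 * k) := by gcongr
          _ = _ := by ring
    _ ≤ ENNReal.ofReal (1 / (5 * Real.sqrt k)) *
          Measure.pi (fun _ : Fin n => rho m) (Ev n η a b i j) := by
        gcongr
        exact Ev_ge hη0 hη1 a b hij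
    _ = ∫⁻ P in Ev n η a b i j, ENNReal.ofReal (1 / (5 * Real.sqrt k))
          ∂Measure.pi (fun _ : Fin n => rho m) := by
        rw [setLIntegral_const]
    _ ≤ ∫⁻ P in Ev n η a b i j, ((2 * k).choose k : ℝ≥0∞) *
          ENNReal.ofReal ((leftRS p δ w i j hUl).F (rho m) P ^ k *
          (1 - (leftRS p δ w i j hUl).F (rho m) P) ^ (2 * k - k))
          ∂Measure.pi (fun _ : Fin n => rho m) := by
        apply setLIntegral_mono' (meas_Ev n η a b i j)
        exact hcen
    _ = _ := by
        rw [lintegral_const_mul']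
        exact ENNReal.natCast_ne_top _

end Run7.h726.HL
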