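import Pool.Agent.Run7.h726.HL.E3

/-! Many bisectors of random points from one configuration with many bisectors. -/

set_option autoImplicit false

namespace Run7.h726.HL

open Finset MeasureTheory Filter Topology Pool.Agent.H189R2.Iid Pool.Agent.H189R2.Lev
open scoped ENNReal

variable {m : ℕ} {p : Fin m → ℝ × ℝ} {δ w : ℝ}

/-- expected number of halving pairs for the law of clusters -/
theorem pairs_ge [NeZero m] (hg : Good p δ w) (hp : GenPos p) {k0 k n : ℕ} (hm : m = 2 * k0 + 2)
    (hn : n = 2 * k + 2) (hk : 1 ≤ k) (hmk : m ^ 2 ≤ 8 * k) :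
    ENNReal.ofReal (2 / 15 * (n / m) * (H k0 p).card) ≤
      ∫⁻ P, ((H k (pts p δ w P)).card : ℝ≥0∞) ∂Measure.pi (fun _ : Fin n => rho m) := by
  classical
  set π := Measure.pi (fun _ : Fin n => rho m) with hπ
  set A : Fin n × Fin n → Set (Fin n → Fin m × ℝ) := fun q =>
    {P | q.1 ≠ q.2 ∧ lf (pts p δ w P) q = k ∧ rt (pts p δ w P) q = k} with hA
  have hAm : ∀ q, MeasurableSet (A q) := by
    intro q
    have h1 : MeasurableSet {P : Fin n → Fin m × ℝ | q.1 ≠ q.2} := by
      by_cases h : q.1 ≠ q.2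
      · simp [h]
      · simp [h]
    exact h1.inter ((((meas_lf q).comp (meas_pts p δ w n)) (measurableSet_singleton k)).inter
      (((meas_rt q).comp (meas_pts p δ w n)) (measurableSet_singleton k)))
  have e1 : ∀ P : Fin n → Fin m × ℝ, H k (pts p δ w P) = univ.filter (fun q => P ∈ A q) := by
    intro P
    ext q
    rw [mem_H, mem_filter]
    exact ⟨fun h => ⟨mem_univ _, h⟩, fun h => h.2⟩
  simp_rw [e1]
  rw [lintegral_card π A hAm]
  have hm0 : (0 : ℝ) < m := by exact_mod_cast Nat.pos_of_ne_zero (NeZero.ne m)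
  have hk0 : (0 : ℝ) < k := by exact_mod_cast hk
  calc ENNReal.ofReal (2 / 15 * (n / m) * (H k0 p).card)
      ≤ ∑ q ∈ (univ : Finset (Fin n)).offDiag, ∑ c ∈ H k0 p,
          ENNReal.ofReal (1 / (15 * m * k)) := by
        rw [sum_const, sum_const, offDiag_card, card_univ, Fintype.card_fin, nsmul_eq_mul,
          nsmul_eq_mul, ← ENNReal.ofReal_natCast, ← ENNReal.ofReal_natCast,
          ← ENNReal.ofReal_mul (Nat.cast_nonneg _), ← ENNReal.ofReal_mul (Nat.cast_nonneg _)]
        apply ENNReal.ofReal_le_ofReal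
        have h1 : n * (2 * k) ≤ n * n - n := by
          have : n * n - n = n * (n - 1) := by rw [Nat.mul_sub, mul_one]
          rw [this]
          exact Nat.mul_le_mul_left _ (by omega)
        have h2 : (n : ℝ) * (2 * k) ≤ ((n * n - n : ℕ) : ℝ) := by exact_mod_cast h1
        calc 2 / 15 * ((n : ℝ) / m) * ((H k0 p).card : ℝ)
            = (n : ℝ) * (2 * k) * ((H k0 p).card * (1 / (15 * m * k))) := by
              field_simp
          _ ≤ ((n * n - n : ℕ) : ℝ) * ((H k0 p).card * (1 / (15 * m * k))) := by gcongr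
    _ ≤ ∑ q ∈ (univ : Finset (Fin n)).offDiag, π (A q) := by
        apply sum_le_sum
        intro q hq
        have hij : q.1 ≠ q.2 := (mem_offDiag.mp hq).2.2
        calc ∑ c ∈ H k0 p, ENNReal.ofReal (1 / (15 * m * k))
            ≤ ∑ c ∈ H k0 p, π (Hv p δ w n k (m / Real.sqrt (8 * k)) c.1 c.2 q.1 q.2) := by
              apply sum_le_sum
              intro c hc
              exact prob_ge hg hp hm hn hk hmk (a := c.1) (b := c.2) hc hij
          _ = π (⋃ c ∈ H k0 p, Hv p δ w n k (m / Real.sqrt (8 * k)) c.1 c.2 q.1 q.2) := by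
              rw [measure_biUnion_finset]
              · intro c _ c' _ hne
                rw [Function.onFun, Set.disjoint_left]
                intro P hP hP'
                apply hne
                exact Prod.ext (hP.1.1.1.symm.trans hP'.1.1.1)
                  (hP.1.2.1.symm.trans hP'.1.2.1)
              · intro c _
                exact meas_Hv p δ w n k _ c.1 c.2 q.1 q.2
          _ ≤ π (A q) := by
              apply measure_mono
              intro P hP
              rw [Set.mem_iUnion₂] at hP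
              obtain ⟨c, _, hP⟩ := hP
              exact ⟨hij, hP.2.1, hP.2.2⟩
    _ ≤ ∑ q, π (A q) := sum_le_sum_of_subset (subset_univ _)

/-- passage to laws without charged lines -/
theorem exists_LN (μ : Measure (ℝ × ℝ)) [IsProbabilityMeasure μ] {n k : ℕ} (hn : n = 2 * k + 2)
    {c : ℝ≥0∞} (hc : c < ∫⁻ P, ((H k P).card : ℝ≥0∞) ∂Measure.pi (fun _ : Fin n => μ)) :
    ∃ ν : Measure (ℝ × ℝ), IsProbabilityMeasure ν ∧ LN ν ∧
      c < ∫⁻ P, ((H k P).card : ℝ≥0∞) ∂Measure.pi (fun _ : Fin n => ν) := by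
  classical
  set W := Measure.pi (fun _ : Fin n => μ.prod u2) with hW
  set dl : ℕ → ℝ := fun s => 1 / ((s : ℝ) + 1) with hdl
  have hdl0 : ∀ s, dl s ≠ 0 := fun s => by
    rw [hdl]; positivity
  have hdlt : Tendsto dl atTop (𝓝 0) := tendsto_one_div_add_atTop_nhds_zero_nat
  have hmap : ∀ s, Measure.pi (fun _ : Fin n => lawd μ (dl s)) =
      Measure.map (fun (w : Fin n → (ℝ × ℝ) × (ℝ × ℝ)) i => mv (dl s) (w i)) W := by
    intro s
    rw [hW]
    unfold lawd
    rw [Measure.pi_map_pi (fun _ => (meas_mv (dl s)).aemeasurable)]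
  have hmapf : Measure.pi (fun _ : Fin n => μ) =
      Measure.map (fun (w : Fin n → (ℝ × ℝ) × (ℝ × ℝ)) i => (w i).1) W := by
    rw [hW, Measure.pi_map_pi (fun _ => measurable_fst.aemeasurable)]
    congr 1
    funext i
    exact (Measure.map_fst_prod (μ := μ) (ν := u2)).symm ▸ by simp
  have mfst : Measurable (fun (w : Fin n → (ℝ × ℝ) × (ℝ × ℝ)) (i : Fin n) => (w i).1) :=
    measurable_pi_lambda _ (fun i => measurable_fst.comp (measurable_pi_apply i))
  have mmv : ∀ s, Measurable (fun (w : Fin n → (ℝ × ℝ) × (ℝ × ℝ)) (i : Fin n) =>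
      mv (dl s) (w i)) := fun s =>
    measurable_pi_lambda _ (fun i => (meas_mv (dl s)).comp (measurable_pi_apply i))
  rw [hmapf, lintegral_map (meas_H n k) mfst] at hc
  have h1 : ∫⁻ w, ((H k (fun i => (w i).1)).card : ℝ≥0∞) ∂W ≤
      liminf (fun s => ∫⁻ w, ((H k (fun i => mv (dl s) (w i))).card : ℝ≥0∞) ∂W) atTop := by
    calc ∫⁻ w, ((H k (fun i => (w i).1)).card : ℝ≥0∞) ∂W
        ≤ ∫⁻ w, liminf (fun s => ((H k (fun i => mv (dl s) (w i))).card : ℝ≥0∞)) atTop ∂W := by
          apply lintegral_mono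
          intro w
          refine le_liminf_of_le (by isBoundedDefault) ?_
          have h := H_stable (m := k) hn.le (fun i => (w i).1) (fun i => (w i).2)
          filter_upwards [hdlt.eventually h] with s hs
          have e : pert (fun i => (w i).1) (fun i => (w i).2) (dl s) =
              fun i => mv (dl s) (w i) := by
            funext i; rfl
          rw [e] at hs
          exact_mod_cast card_le_card hs
      _ ≤ _ := lintegral_liminf_le (fun s => (meas_H n k).comp (mmv s))
  have h2 := eventually_lt_of_lt_liminf (lt_of_lt_of_le hc h1) (by isBoundedDefault)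
  obtain ⟨s, hs⟩ := h2.exists
  refine ⟨lawd μ (dl s), inferInstance, LN_lawd μ (hdl0 s), ?_⟩
  rw [hmap s, lintegral_map (meas_H n k) (mmv s)]
  exact hs

theorem genPos_of_GP {n : ℕ} {P : Fin n → ℝ × ℝ} (hP : GP P) : GenPos P := by
  have key : ∀ a b c : Fin n, a ≠ c → b ≠ c → (P b).1 < (P a).1 → D (P a) (P b) (P c) ≠ 0 := by
    intro a b c hac hbc h h0
    have h1 : E P (a, b) (P c).1 = (P c).2 := by
      have h' : (P a).1 - (P b).1 ≠ 0 := by
        have : 0 < (P a).1 - (P b).1 := by linarith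
        exact this.ne'
      unfold E Y2 X2
      simp only
      unfold D at h0
      field_simp
      linarith
    rcases E_line hP (q := (a, b)) h h1 with h2 | h2
    · exact hac h2.symm
    · exact hbc h2.symm
  refine ⟨fun i j h => hP.1 i j (by rw [h]), ?_⟩
  intro a b c hab hac hbc
  rcases lt_trichotomy (P a).1 (P b).1 with h | h | h
  · have := key b a c hbc hac h
    rw [D_swap] at this
    exact fun h0 => this (by rw [h0, neg_zero])
  · exact absurd (hP.1 _ _ h) hab
  · exact key a b c hac hbc h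

theorem bis_ge {n : ℕ} {P : Fin n → ℝ × ℝ} (hP : GenPos P) :
    (H (n / 2 - 1) P).card ≤ 2 * {L | IsBisector P L}.ncard := by
  classical
  set φ : Fin n × Fin n → Set (ℝ × ℝ) := fun q => {r : ℝ × ℝ | D (P q.1) (P q.2) r = 0} with hφ
  have h1 : (H (n / 2 - 1) P).card ≤ 2 * ((H (n / 2 - 1) P).image φ).card := by
    apply card_le_mul_card_image
    intro L hL
    obtain ⟨q, hq, rfl⟩ := mem_image.mp hL
    have hq1 : q.1 ≠ q.2 := (mem_H.mp hq).1
    have hsub : (H (n / 2 - 1) P).filter (fun x => φ x = φ q) ⊆ {q, q.swap} := by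
      intro x hx
      obtain ⟨hx1, hx2⟩ := mem_filter.mp hx
      have hx3 : x.1 ≠ x.2 := (mem_H.mp hx1).1
      have m1 : P x.1 ∈ φ q := by rw [← hx2]; exact D_fst _ _
      have m2 : P x.2 ∈ φ q := by rw [← hx2]; exact D_snd _ _
      have g : ∀ c, P c ∈ φ q → c = q.1 ∨ c = q.2 := by
        intro c hc
        by_contra hcon
        push Not at hcon
        exact hP.2 q.1 q.2 c hq1 hcon.1.symm hcon.2.symm hc
      rw [mem_insert, mem_singleton]
      rcases g _ m1 with h3 | h3 <;> rcases g _ m2 with h4 | h4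
      · exact absurd (h3.trans h4.symm) hx3
      · left; exact Prod.ext h3 h4
      · right; exact Prod.ext h3 h4
      · exact absurd (h3.trans h4.symm) hx3
    exact (card_le_card hsub).trans card_le_two
  have h2 : ((H (n / 2 - 1) P).image φ).card ≤ {L | IsBisector P L}.ncard := by
    rw [← Set.ncard_coe_finset]
    apply Set.ncard_le_ncard _ (bis_finite P)
    intro L hL
    rw [mem_coe, mem_image] at hL
    obtain ⟨q, hq, rfl⟩ := hL
    obtain ⟨g1, g2, g3⟩ := mem_H.mp hq
    have hne : P q.1 ≠ P q.2 := fun h => g1 (hP.1 h)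
    set a := -((P q.2).2 - (P q.1).2) with ha
    set b := (P q.2).1 - (P q.1).1 with hb
    have hD : ∀ r : ℝ × ℝ, D (P q.1) (P q.2) r =
        a * r.1 + b * r.2 - (a * (P q.1).1 + b * (P q.1).2) := by
      intro r
      unfold D
      rw [ha, hb]; ring
    refine ⟨a, b, a * (P q.1).1 + b * (P q.1).2, ?_, ?_, ⟨q.1, q.2, hne, D_fst _ _, D_snd _ _⟩,
      ?_, ?_⟩
    · by_contra hcon
      push Not at hcon
      apply hne
      exact Prod.ext (by linarith [hcon.2]) (by linarith [hcon.1])
    · ext r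
      show D (P q.1) (P q.2) r = 0 ↔ a * r.1 + b * r.2 = a * (P q.1).1 + b * (P q.1).2
      rw [hD, sub_eq_zero]
    · rw [← g3]
      unfold rt
      congr 1
      ext l
      simp only [mem_filter, mem_univ, true_and]
      rw [hD, sub_neg]
    · rw [← g2]
      unfold lf
      congr 1
      ext l
      simp only [mem_filter, mem_univ, true_and]
      rw [hD, sub_pos]
  omega

/-- the expected number of bisectors for a law without charged lines -/
theorem exp_bis_ge {ν : Measure (ℝ × ℝ)} [IsProbabilityMeasure ν] (hν : LN ν) {n k : ℕ}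
    (hn : n = 2 * k + 2) :
    ∫⁻ P, ((H k P).card : ℝ≥0∞) ∂Measure.pi (fun _ : Fin n => ν) ≤
      2 * ∫⁻ P, ({L | IsBisector P L}.ncard : ℝ≥0∞) ∂Measure.pi (fun _ : Fin n => ν) := by
  rw [← lintegral_const_mul' _ _ (by norm_num)]
  apply lintegral_mono_ae
  filter_upwards [ae_GP hν n] with P hP
  have h := bis_ge (genPos_of_GP hP)
  have e : n / 2 - 1 = k := by omega
  rw [e] at h
  exact_mod_cast h

/-- **worst case from average case** -/
theorem lower_family {m : ℕ} (hm : Even m) (hm0 : 0 < m) {p : Fin m → ℝ × ℝ} (hp : GenPos p)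
    {n : ℕ} (hn : Even n) (hmn : m ^ 2 ≤ n) :
    ∃ ν : Measure (ℝ × ℝ), IsProbabilityMeasure ν ∧ LN ν ∧
      ENNReal.ofReal (n / (30 * m) * {L | IsBisector p L}.ncard) ≤
        ∫⁻ P, ({L | IsBisector P L}.ncard : ℝ≥0∞) ∂Measure.pi (fun _ : Fin n => ν) := by
  classical
  have : NeZero m := ⟨hm0.ne'⟩
  obtain ⟨k0, hk0⟩ : ∃ k0, m = 2 * k0 + 2 := by
    obtain ⟨r, hr⟩ := hm
    exact ⟨r - 1, by omega⟩
  have hm2 : 2 ≤ m := by omega
  have hn4 : 4 ≤ n := by nlinarith
  obtain ⟨k, hk⟩ : ∃ k, n = 2 * k + 2 := by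
    obtain ⟨r, hr⟩ := hn
    exact ⟨r - 1, by omega⟩
  have hk1 : 1 ≤ k := by omega
  have hmk : m ^ 2 ≤ 8 * k := by omega
  obtain ⟨δ, w, hg⟩ := exists_good hp.1
  have h1 := pairs_ge hg hp hk0 hk hk1 hmk
  set h := (H k0 p).card with hh
  have hbis : {L | IsBisector p L}.ncard ≤ h := by
    have := bis_le p
    rwa [show m / 2 - 1 = k0 by omega] at this
  have hn0 : (0 : ℝ) < n := by exact_mod_cast (by omega : 0 < n)
  have hm0' : (0 : ℝ) < m := by exact_mod_cast hm0
  set μ0 : Measure (ℝ × ℝ) := Measure.map (cl p δ w) (rho m) with hμ0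
  have : IsProbabilityMeasure μ0 :=
    Measure.isProbabilityMeasure_map (meas_cl p δ w).aemeasurable
  rcases Nat.eq_zero_or_pos h with h0 | h0
  · refine ⟨lawd μ0 1, inferInstance, LN_lawd μ0 one_ne_zero, ?_⟩
    have : {L | IsBisector p L}.ncard = 0 := by omega
    rw [this]
    simp
  · have hmap : ∫⁻ P, ((H k P).card : ℝ≥0∞) ∂Measure.pi (fun _ : Fin n => μ0) =
        ∫⁻ P, ((H k (pts p δ w P)).card : ℝ≥0∞) ∂Measure.pi (fun _ : Fin n => rho m) := by
      have hpi : Measure.pi (fun _ : Fin n => μ0) =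
          Measure.map (pts (n := n) p δ w) (Measure.pi (fun _ : Fin n => rho m)) := by
        rw [hμ0]
        exact (Measure.pi_map_pi (fun _ => (meas_cl p δ w).aemeasurable)).symm
      rw [hpi, lintegral_map (meas_H n k) (meas_pts p δ w n)]
    have hh0 : (0 : ℝ) < h := by exact_mod_cast h0
    have hlt : ENNReal.ofReal (1 / 15 * (n / m) * h) <
        ∫⁻ P, ((H k P).card : ℝ≥0∞) ∂Measure.pi (fun _ : Fin n => μ0) := by
      rw [hmap]
      refine lt_of_lt_of_le ?_ h1
      rw [ENNReal.ofReal_lt_ofReal_iff (by positivity)]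
      have : 0 < (n / m : ℝ) * h := by positivity
      nlinarith
    obtain ⟨ν, hν1, hν2, hν3⟩ := exists_LN μ0 hk hlt
    have := hν1
    refine ⟨ν, hν1, hν2, ?_⟩
    have h2 := hν3.le.trans (exp_bis_ge hν2 hk)
    have h3 : ENNReal.ofReal (1 / 15 * (n / m) * h) =
        2 * ENNReal.ofReal (1 / 30 * (n / m) * h) := by
      rw [show (2 : ℝ≥0∞) = ENNReal.ofReal 2 by norm_num, ← ENNReal.ofReal_mul (by norm_num)]
      congr 1; ring
    rw [h3, ENNReal.mul_le_mul_iff_right (by norm_num) (by norm_num)] at h2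
    refine le_trans (ENNReal.ofReal_le_ofReal ?_) h2
    have h4 : ({L | IsBisector p L}.ncard : ℝ) ≤ h := by exact_mod_cast hbis
    calc (n : ℝ) / (30 * m) * {L | IsBisector p L}.ncard ≤ n / (30 * m) * h := by gcongr
      _ = _ := by field_simp

end Run7.h726.HL
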