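import Pool.Agent.Run7.h726.HL.F
import Pool.Agent.KLev.Halving

/-! The maximum number of bisectors and the expected number for random points. -/

set_option autoImplicit false

namespace Run7.h726.HL

open Finset MeasureTheory Filter Topology
open scoped ENNReal

/-- the law `μ` charges no line of the plane -/
def NoLine (μ : Measure (ℝ × ℝ)) : Prop :=
  ∀ a b c : ℝ, (a ≠ 0 ∨ b ≠ 0) → μ (Line a b c) = 0

/-- The expected number of bisectors of `n` independent random points with law `μ`. -/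
noncomputable def expBis (μ : Measure (ℝ × ℝ)) (n : ℕ) : ℝ≥0∞ :=
  ∫⁻ P, ({L | IsBisector P L}.ncard : ℝ≥0∞) ∂Measure.pi (fun _ : Fin n => μ)

theorem genPos_of_set {m : ℕ} {S : Finset (ℝ × ℝ)} (hS : KLev.Halving.GeneralPosition S)
    {p : Fin m → ℝ × ℝ} (hp : Function.Injective p) (hpS : ∀ i, p i ∈ S) : GenPos p := by
  refine ⟨hp, fun a b c hab hac hbc h0 => ?_⟩
  have hne : p a ≠ p b := fun h => hab (hp h)
  have hD : ∀ r : ℝ × ℝ, D (p a) (p b) r = -((p b).2 - (p a).2) * r.1 +
      ((p b).1 - (p a).1) * r.2 - (-((p b).2 - (p a).2) * (p a).1 +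
      ((p b).1 - (p a).1) * (p a).2) := by
    intro r; unfold D; ring
  refine hS (-((p b).2 - (p a).2)) ((p b).1 - (p a).1) (-((p b).2 - (p a).2) * (p a).1 +
      ((p b).1 - (p a).1) * (p a).2) ?_ (p a) (hpS a) (p b) (hpS b) (p c) (hpS c) hne
      (fun h => hac (hp h)) (fun h => hbc (hp h)) ⟨?_, ?_, ?_⟩
  · by_contra hcon
    push Not at hcon
    exact hne (Prod.ext (by linarith [hcon.2]) (by linarith [hcon.1]))
  · have := hD (p a)
    rw [D_fst] at this
    show _ = _
    linarith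
  · have := hD (p b)
    rw [D_snd] at this
    show _ = _
    linarith
  · have := hD (p c)
    rw [h0] at this
    show _ = _
    linarith

/-- many bisectors of random points -/
theorem lower_f {m n : ℕ} (hm : Even m) (hm0 : 0 < m) (hn : Even n) (hmn : m ^ 2 ≤ n) :
    ∃ ν : Measure (ℝ × ℝ), IsProbabilityMeasure ν ∧ NoLine ν ∧
      ENNReal.ofReal (n / (30 * m) * KLev.Halving.f m) ≤ expBis ν n := by
  classical
  by_cases hne : {j : ℕ | ∃ P : Finset (ℝ × ℝ), P.card = m ∧ KLev.Halving.GeneralPosition P ∧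
    {L | KLev.Halving.IsBisector P L}.ncard = j}.Nonempty
  · have hb : BddAbove {j : ℕ | ∃ P : Finset (ℝ × ℝ), P.card = m ∧
        KLev.Halving.GeneralPosition P ∧ {L | KLev.Halving.IsBisector P L}.ncard = j} := by
      refine ⟨m * m, ?_⟩
      rintro j ⟨Q, hQ, -, rfl⟩
      rw [← hQ]; exact KLev.Halving.bisectors_ncard_le Q
    obtain ⟨S, hSm, hSG, hSf⟩ := Nat.sSup_mem hne hb
    have hf : {L | KLev.Halving.IsBisector S L}.ncard = KLev.Halving.f m := hSf
    set e := (S.equivFinOfCardEq hSm).symm with he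
    set p : Fin m → ℝ × ℝ := fun i => (e i : ℝ × ℝ) with hp
    have hinj : Function.Injective p := by
      intro i j h
      exact e.injective (Subtype.ext h)
    have himg : univ.image p = S := by
      ext x
      rw [mem_image]
      constructor
      · rintro ⟨i, _, rfl⟩; exact (e i).2
      · intro hx
        refine ⟨e.symm ⟨x, hx⟩, mem_univ _, ?_⟩
        show ((e (e.symm ⟨x, hx⟩) : S) : ℝ × ℝ) = x
        rw [Equiv.apply_symm_apply]
    have hG : GenPos p := genPos_of_set hSG hinj (fun i => (e i).2)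
    obtain ⟨ν, h1, h2, h3⟩ := lower_family hm hm0 hG hn hmn
    refine ⟨ν, h1, h2, ?_⟩
    have hs : {L | IsBisector p L} = {L | KLev.Halving.IsBisector S L} := by
      ext L
      show IsBisector p L ↔ KLev.Halving.IsBisector S L
      rw [bis_iff_set hinj L, himg]
      exact Iff.rfl
    rw [hs, hf] at h3
    exact h3
  · have hf : KLev.Halving.f m = 0 := by
      unfold KLev.Halving.f
      rw [Set.not_nonempty_iff_eq_empty.mp hne, csSup_empty]
      rfl
    have hP : IsProbabilityMeasure (lawd (Measure.dirac (0, 0)) 1) := inferInstance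
    refine ⟨lawd (Measure.dirac (0, 0)) 1, hP, LN_lawd _ one_ne_zero, ?_⟩
    rw [hf]
    simp

/-- bounds for random points give bounds for arbitrary sets -/
theorem transfer {β C : ℝ} (hC : 0 ≤ C)
    (h : ∀ μ : Measure (ℝ × ℝ), IsProbabilityMeasure μ → NoLine μ → ∀ n, Even n →
      expBis μ n ≤ ENNReal.ofReal (C * (n : ℝ) ^ β)) {m : ℕ} (hm : Even m) (hm0 : 0 < m) :
    (KLev.Halving.f m : ℝ) ≤ 30 * C * (m : ℝ) ^ (2 * β - 1) := by
  have hn : Even (m ^ 2) := hm.pow_of_ne_zero (by norm_num)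
  obtain ⟨ν, h1, h2, h3⟩ := lower_f hm hm0 hn le_rfl
  have h4 := h3.trans (h ν h1 h2 (m ^ 2) hn)
  have hm0' : (0 : ℝ) < m := by exact_mod_cast hm0
  have hrhs : 0 ≤ C * ((m ^ 2 : ℕ) : ℝ) ^ β := by positivity
  rw [ENNReal.ofReal_le_ofReal_iff hrhs] at h4
  have e1 : (((m ^ 2 : ℕ) : ℝ)) ^ β = (m : ℝ) ^ (2 * β - 1) * m := by
    push_cast
    rw [← Real.rpow_natCast, ← Real.rpow_mul hm0'.le]
    have : ((2 : ℕ) : ℝ) * β = (2 * β - 1) + 1 := by push_cast; ring
    rw [this, Real.rpow_add hm0', Real.rpow_one]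
  rw [e1] at h4
  have e2 : (((m ^ 2 : ℕ) : ℝ)) / (30 * m) * KLev.Halving.f m =
      (m : ℝ) * (KLev.Halving.f m / 30) := by
    push_cast
    field_simp
  rw [e2] at h4
  have h5 : (m : ℝ) * (KLev.Halving.f m / 30) ≤ m * (C * (m : ℝ) ^ (2 * β - 1)) := by
    calc _ ≤ _ := h4
      _ = _ := by ring
  have h6 := le_of_mul_le_mul_left h5 hm0'
  linarith

end Run7.h726.HL
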