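import Pool.Agent.Run7.h726.HL.G2

/-! Random points are in general position. -/

set_option autoImplicit false

namespace Run7.h726.HL

open Finset MeasureTheory Filter Topology Pool.Agent.H189R2.Iid
open scoped ENNReal

open scoped Classical in
theorem bis_iff_klev {n : ℕ} {P : Fin n → ℝ × ℝ} (hP : Function.Injective P)
    (L : Set (ℝ × ℝ)) : IsBisector P L ↔ KLev.Halving.IsBisector (univ.image P) L :=
  bis_iff_set hP L

open scoped Classical in
theorem gp_of_genPos {n : ℕ} {P : Fin n → ℝ × ℝ} (hP : GenPos P) :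
    KLev.Halving.GeneralPosition (univ.image P) := by
  intro a b c hab p hp q hq r hr hpq hpr hqr h
  obtain ⟨i, _, rfl⟩ := mem_image.mp hp
  obtain ⟨j, _, rfl⟩ := mem_image.mp hq
  obtain ⟨l, _, rfl⟩ := mem_image.mp hr
  obtain ⟨h1, h2, h3⟩ := h
  have h1' : a * (P i).1 + b * (P i).2 = c := h1
  have h2' : a * (P j).1 + b * (P j).2 = c := h2
  have h3' : a * (P l).1 + b * (P l).2 = c := h3
  obtain ⟨κ, _, hκ⟩ := sign_rel hab hpq h1' h2'
  apply hP.2 i j l (fun h => hpq (by rw [h])) (fun h => hpr (by rw [h]))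
    (fun h => hqr (by rw [h]))
  rw [hκ, h3', sub_self, mul_zero]

open scoped Classical in
theorem ae_gp {μ : Measure (ℝ × ℝ)} [IsProbabilityMeasure μ] (hμ : NoLine μ) (n : ℕ) :
    ∀ᵐ P ∂Measure.pi (fun _ : Fin n => μ), Function.Injective P ∧
      KLev.Halving.GeneralPosition (univ.image P) := by
  filter_upwards [ae_GP (μ := μ) hμ n] with P hP
  exact ⟨(genPos_of_GP hP).1, gp_of_genPos (genPos_of_GP hP)⟩

end Run7.h726.HL
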