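import Pool.Agent.Run7.h726.HL.G3

/-! A superlinear expected number of bisectors: the exponent `1 + K / (log log n) ^ 3`. -/

set_option autoImplicit false

namespace Run7.h726.HL

open Finset MeasureTheory Filter Topology
open scoped ENNReal

theorem random_lower3 (hf : ∀ K : ℝ, ∀ᶠ n : ℕ in atTop, Even n →
      (n : ℝ) ^ (1 + K / (Real.log (Real.log n)) ^ 3) ≤ (KLev.Halving.f n : ℝ)) (K : ℝ) :
    ∀ᶠ n : ℕ in atTop, Even n → ∃ ν : Measure (ℝ × ℝ), IsProbabilityMeasure ν ∧ NoLine ν ∧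
      ENNReal.ofReal ((n : ℝ) ^ (1 + K / (Real.log (Real.log n)) ^ 3)) ≤ expBis ν n := by
  set K0 := max K 0 with hK0
  have hK0' : 0 ≤ K0 := le_max_right _ _
  have hK1 : K ≤ K0 := le_max_left _ _
  set K2 := 3 * K0 + 3 with hK2
  have hK2' : 0 < K2 := by positivity
  obtain ⟨N0, hN0⟩ := (hf K2).exists_forall_of_atTop
  have t1 : Tendsto (fun n : ℕ => Real.log n) atTop atTop :=
    Real.tendsto_log_atTop.comp tendsto_natCast_atTop_atTop
  have a1 : ∀ᶠ L : ℝ in atTop, (Real.log L) ^ 3 ≤ 1 / 5 * L := by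
    have h := (Real.isLittleO_pow_log_id_atTop (n := 3)).def
      (show (0 : ℝ) < 1 / 5 by norm_num)
    filter_upwards [h, eventually_ge_atTop 0] with L hL h0
    rw [Real.norm_eq_abs, Real.norm_eq_abs, id, abs_of_nonneg h0] at hL
    exact (le_abs_self _).trans hL
  filter_upwards [t1.eventually a1, t1.eventually (eventually_ge_atTop (12 * Real.log 2)),
    t1.eventually (eventually_ge_atTop (4 : ℝ)),
    eventually_ge_atTop ((N0 + 17) ^ 2)] with n h1 h2 h2' h3 heven
  set s := Nat.sqrt n with hs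
  have hs1 : s * s ≤ n := Nat.sqrt_le n
  have hs2 : n < (s + 1) * (s + 1) := Nat.lt_succ_sqrt n
  have hs3 : N0 + 17 ≤ s := by
    rw [hs, Nat.le_sqrt]
    calc (N0 + 17) * (N0 + 17) = (N0 + 17) ^ 2 := by ring
      _ ≤ n := h3
  set m := 2 * (s / 2) with hm
  have hm1 : m ≤ s := by omega
  have hm2 : s ≤ m + 1 := by omega
  have hm3 : N0 + 16 ≤ m := by omega
  have hme : Even m := ⟨s / 2, by omega⟩
  have hmn : m ^ 2 ≤ n := by nlinarith
  obtain ⟨ν, g1, g2, g3⟩ := lower_f hme (by omega) heven hmn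
  refine ⟨ν, g1, g2, le_trans (ENNReal.ofReal_le_ofReal ?_) g3⟩
  have hfm := hN0 m (by omega) hme
  set x : ℝ := (n : ℝ) with hx
  set M : ℝ := (m : ℝ) with hM
  set L := Real.log x with hL
  have hM16 : (16 : ℝ) ≤ M := by
    have : 16 ≤ m := by omega
    rw [hM]; exact_mod_cast this
  have hM0 : 0 < M := by linarith
  have hMx : M ^ 2 ≤ x := by rw [hM, hx]; exact_mod_cast hmn
  have hxM : x ≤ 4 * M ^ 2 := by
    have : n ≤ 4 * m ^ 2 := by nlinarith
    rw [hM, hx]; exact_mod_cast this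
  have hx0 : 0 < x := by nlinarith
  have hx1 : 1 ≤ x := by nlinarith
  have hl2 : 0 < Real.log 2 := Real.log_pos (by norm_num)
  have e1 : L / 2 - Real.log 2 ≤ Real.log M := by
    have h := Real.log_le_log hx0 hxM
    rw [Real.log_mul (by norm_num) (by positivity), Real.log_pow,
      show (4 : ℝ) = 2 ^ 2 by norm_num, Real.log_pow] at h
    push_cast at h
    linarith
  have e2 : Real.log M ≤ L := Real.log_le_log hM0 (by nlinarith)
  have e3 : 1 < Real.log M := by
    rw [Real.lt_log_iff_exp_lt hM0]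
    have := Real.exp_one_lt_d9
    linarith
  have e4 : 0 < Real.log (Real.log M) := Real.log_pos e3
  have e5 : Real.log (Real.log M) ≤ Real.log L := Real.log_le_log (by linarith) e2
  have e6 : 0 < Real.log L := by linarith
  have e7 : 1 / (Real.log L) ^ 3 ≤ 1 / (Real.log (Real.log M)) ^ 3 := by
    apply one_div_le_one_div_of_le (by positivity)
    exact pow_le_pow_left₀ e4.le e5 3
  set ε := 1 / (Real.log L) ^ 3 with hε
  have hε0 : 0 < ε := by positivity
  have e8 : 5 ≤ ε * L := by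
    rw [hε, one_div, inv_mul_eq_div, le_div_iff₀ (by positivity)]
    linarith
  have e9 : Real.log 30 ≤ 5 := by
    rw [Real.log_le_iff_le_exp (by norm_num)]
    have h5 : Real.exp 5 = Real.exp 1 ^ 5 := by rw [← Real.exp_nat_mul]; norm_num
    have h6 := Real.exp_one_gt_d9
    rw [h5]
    calc (30 : ℝ) ≤ (2 : ℝ) ^ 5 := by norm_num
      _ ≤ _ := pow_le_pow_left₀ (by norm_num) (by linarith) 5
  have e10 : Real.log 30 + K0 * ε * L ≤ K2 * ε * Real.log M := by
    have h7 : K2 * ε * (L / 2 - Real.log 2) ≤ K2 * ε * Real.log M :=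
      mul_le_mul_of_nonneg_left e1 (by positivity)
    have h8 : 5 / 12 * L ≤ L / 2 - Real.log 2 := by linarith
    have h9 : K2 * ε * (5 / 12 * L) ≤ K2 * ε * (L / 2 - Real.log 2) :=
      mul_le_mul_of_nonneg_left h8 (by positivity)
    have h10 : K2 * ε * (5 / 12 * L) = K0 * ε * L + (K0 / 4) * (ε * L) + 5 / 4 * (ε * L) := by
      rw [hK2]; ring
    have h11 : 0 ≤ (K0 / 4) * (ε * L) := by positivity
    linarith
  have e11 : 30 * x ^ (K0 * ε) ≤ M ^ (K2 * ε) := by
    rw [Real.rpow_def_of_pos hx0, Real.rpow_def_of_pos hM0]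
    calc 30 * Real.exp (Real.log x * (K0 * ε))
        = Real.exp (Real.log 30 + K0 * ε * L) := by
          rw [Real.exp_add, Real.exp_log (by norm_num)]
          congr 2
          rw [hL]; ring
      _ ≤ Real.exp (Real.log M * (K2 * ε)) := by
          apply Real.exp_le_exp.mpr
          linarith
  have e12 : K / (Real.log L) ^ 3 ≤ K0 * ε := by
    rw [hε, mul_one_div]
    gcongr
  calc x ^ (1 + K / (Real.log L) ^ 3) ≤ x ^ (1 + K0 * ε) :=
        Real.rpow_le_rpow_of_exponent_le hx1 (by linarith)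
    _ = x / 30 * (30 * x ^ (K0 * ε)) := by
        rw [Real.rpow_add hx0, Real.rpow_one]; ring
    _ ≤ x / 30 * M ^ (K2 * ε) := by gcongr
    _ ≤ x / 30 * M ^ (K2 / (Real.log (Real.log M)) ^ 3) := by
        apply mul_le_mul_of_nonneg_left _ (by positivity)
        apply Real.rpow_le_rpow_of_exponent_le (by linarith)
        calc K2 * ε ≤ K2 * (1 / (Real.log (Real.log M)) ^ 3) :=
              mul_le_mul_of_nonneg_left e7 hK2'.le
          _ = _ := by ring
    _ = x / (30 * M) * M ^ (1 + K2 / (Real.log (Real.log M)) ^ 3) := by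
        rw [Real.rpow_add hM0, Real.rpow_one]
        field_simp
    _ ≤ x / (30 * M) * KLev.Halving.f m := by gcongr

end Run7.h726.HL
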