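import Pool.Agent.Run7.h726.HL.G4
import Pool.Agent.Run7.h721.KL3.Final3

/-! The lower bound for the maximum number of bisectors (project KL3) and for random points. -/

set_option autoImplicit false

namespace Run7.h726.HL

open Finset MeasureTheory Filter Topology
open scoped ENNReal

/-- project KL3, in terms of `f` -/
theorem halving_lower (K : ℝ) : ∀ᶠ n : ℕ in atTop, Even n →
    (n : ℝ) ^ (1 + K / (Real.log (Real.log n)) ^ 3) ≤ (KLev.Halving.f n : ℝ) := by
  obtain ⟨a, ha⟩ := (Pool.Agent.Run7.h721.KL3.finalP 1 K).exists_forall_of_atTop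
  filter_upwards [eventually_ge_atTop (2 * a + 2)] with n hn heven
  obtain ⟨m, hm⟩ := heven
  obtain ⟨N, E, P, hH, hN, hE⟩ := ha m (by omega)
  have h1 := hH.le_f hN
  have e : 2 * m = n := by omega
  rw [e] at h1
  have h2 : (E : ℝ) ≤ KLev.Halving.f n := by exact_mod_cast h1
  have hnm : (n : ℝ) = 2 * m := by rw [← e]; push_cast; ring
  have hm0 : (0 : ℝ) ≤ m := Nat.cast_nonneg _
  have h3 := hE n (by linarith) (by linarith)
  rw [one_mul] at h3
  exact h3.trans h2

theorem random_many (K : ℝ) :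
    ∀ᶠ n : ℕ in atTop, Even n → ∃ ν : Measure (ℝ × ℝ), IsProbabilityMeasure ν ∧ NoLine ν ∧
      ENNReal.ofReal ((n : ℝ) ^ (1 + K / (Real.log (Real.log n)) ^ 3)) ≤ expBis ν n :=
  random_lower3 halving_lower K

end Run7.h726.HL
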