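import Pool.Agent.Run7.h726.HL.G3

/-! The near-linear conjecture for halving lines and its average case. -/

set_option autoImplicit false

namespace Run7.h726.HL

open Finset MeasureTheory Filter Topology Pool.Agent.H189R2.Iid
open scoped ENNReal

/-- `Q1`: the number of ordered halving pairs of `S` is `o(|S| ^ (1 + ε))` for every `ε > 0` -/
def NearLinear : Prop :=
    ∀ ε : ℝ, 0 < ε → ∀ δ : ℝ, 0 < δ → ∃ N : ℕ, ∀ S : Finset (ℝ × ℝ),
      N ≤ S.card →
      (∀ p ∈ S, ∀ q ∈ S, ∀ r ∈ S, p ≠ q → p ≠ r → q ≠ r →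
        (q.1 - p.1) * (r.2 - p.2) - (q.2 - p.2) * (r.1 - p.1) ≠ 0) →
      (((S ×ˢ S).filter (fun x => x.1 ≠ x.2 ∧
          (S.filter (fun r => 0 < (x.2.1 - x.1.1) * (r.2 - x.1.2)
              - (x.2.2 - x.1.2) * (r.1 - x.1.1))).card * 2 + 2 = S.card)).card : ℝ)
        ≤ δ * (S.card : ℝ) ^ (1 + ε)

/-- ordered halving pairs of a family and of its set of points -/
theorem pairs_eq {m k : ℕ} {p : Fin m → ℝ × ℝ} (hp : GenPos p) (hm : m = 2 * k + 2)
    {S : Finset (ℝ × ℝ)} (hS : ∀ x, x ∈ S ↔ ∃ i, p i = x) (hc : S.card = m) :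
    ((S ×ˢ S).filter (fun x => x.1 ≠ x.2 ∧
          (S.filter (fun r => 0 < (x.2.1 - x.1.1) * (r.2 - x.1.2)
              - (x.2.2 - x.1.2) * (r.1 - x.1.1))).card * 2 + 2 = S.card)).card =
      (H k p).card := by
  classical
  have hl : ∀ i j : Fin m, (S.filter (fun r => 0 < ((p j).1 - (p i).1) * (r.2 - (p i).2)
      - ((p j).2 - (p i).2) * (r.1 - (p i).1))).card = lf p (i, j) := by
    intro i j
    have e : S.filter (fun r => 0 < ((p j).1 - (p i).1) * (r.2 - (p i).2)
      - ((p j).2 - (p i).2) * (r.1 - (p i).1)) =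
        (univ.filter (fun l => 0 < D (p i) (p j) (p l))).image p := by
      ext r
      simp only [mem_filter, mem_image, mem_univ, true_and]
      constructor
      · rintro ⟨h1, h2⟩
        obtain ⟨l, rfl⟩ := (hS r).mp h1
        exact ⟨l, h2, rfl⟩
      · rintro ⟨l, h1, rfl⟩
        exact ⟨(hS _).mpr ⟨l, rfl⟩, h1⟩
    rw [e, card_image_of_injective _ hp.1]
    rfl
  rw [← card_image_of_injective (H k p) (f := fun q : Fin m × Fin m => (p q.1, p q.2))]
  · congr 1
    ext ⟨x, y⟩
    simp only [mem_filter, mem_product, mem_image, Prod.exists, Prod.mk.injEq]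
    constructor
    · rintro ⟨⟨h1, h2⟩, h3, h4⟩
      obtain ⟨i, rfl⟩ := (hS x).mp h1
      obtain ⟨j, rfl⟩ := (hS y).mp h2
      have hij : i ≠ j := fun h => h3 (by rw [h])
      refine ⟨i, j, ?_, rfl, rfl⟩
      rw [hl, hc] at h4
      have h5 : lf p (i, j) = k := by omega
      exact mem_H.mpr ⟨hij, h5, lf_add_rt hm p hij
        (fun l h6 h7 => hp.2 i j l hij (Ne.symm h6) (Ne.symm h7)) h5⟩
    · rintro ⟨i, j, h1, rfl, rfl⟩
      obtain ⟨g1, g2, g3⟩ := mem_H.mp h1
      have g1' : i ≠ j := g1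
      refine ⟨⟨(hS _).mpr ⟨i, rfl⟩, (hS _).mpr ⟨j, rfl⟩⟩, fun h => g1' (hp.1 h), ?_⟩
      rw [hl, hc, g2]
      omega
  · intro q q' h
    simp only [Prod.mk.injEq] at h
    exact Prod.ext (hp.1 h.1) (hp.1 h.2)

/-- the average case of the near-linear conjecture -/
def NearLinearAverage : Prop :=
  ∀ ε : ℝ, 0 < ε → ∃ C : ℝ, ∀ μ : Measure (ℝ × ℝ), IsProbabilityMeasure μ → NoLine μ →
    ∀ n : ℕ, Even n → expBis μ n ≤ ENNReal.ofReal (C * (n : ℝ) ^ (1 + ε))

theorem average_of_nearLinear (h : NearLinear) : NearLinearAverage := by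
  classical
  intro ε hε
  obtain ⟨N, hN⟩ := h ε hε 1 one_pos
  refine ⟨(N : ℝ) ^ 2 + 1, fun μ hμ1 hμ2 n hn => ?_⟩
  have key : ∀ᵐ P ∂Measure.pi (fun _ : Fin n => μ), ({L | IsBisector P L}.ncard : ℝ≥0∞) ≤
      ENNReal.ofReal (((N : ℝ) ^ 2 + 1) * (n : ℝ) ^ (1 + ε)) := by
    filter_upwards [ae_GP (μ := μ) hμ2 n] with P hP
    have hG := genPos_of_GP hP
    rw [← ENNReal.ofReal_natCast]
    apply ENNReal.ofReal_le_ofReal
    rcases Nat.eq_zero_or_pos n with h0 | h0
    · subst h0
      have : {L | IsBisector P L} = ∅ := by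
        ext L
        constructor
        · rintro ⟨a, b, c, _, _, ⟨i, _⟩, _⟩
          exact i.elim0
        · intro h; exact absurd h (Set.notMem_empty _)
      rw [this]
      simp only [Set.ncard_empty, Nat.cast_zero]
      positivity
    · obtain ⟨k, hk⟩ : ∃ k, n = 2 * k + 2 := by
        obtain ⟨r, hr⟩ := hn
        exact ⟨r - 1, by omega⟩
      have hn1 : (1 : ℝ) ≤ n := by exact_mod_cast h0
      have hpow : 1 ≤ (n : ℝ) ^ (1 + ε) := Real.one_le_rpow hn1 (by linarith)
      have hb := bis_le P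
      rw [show n / 2 - 1 = k by omega] at hb
      have hb' : ({L | IsBisector P L}.ncard : ℝ) ≤ (H k P).card := by exact_mod_cast hb
      by_cases hnN : N ≤ n
      · set S : Finset (ℝ × ℝ) := univ.image P with hS
        have hSc : S.card = n := by
          rw [hS, card_image_of_injective _ hG.1, card_univ, Fintype.card_fin]
        have hSm : ∀ x, x ∈ S ↔ ∃ i, P i = x := by
          intro x; rw [hS, mem_image]; simp
        have h1 := hN S (by omega) (by
          intro x hx y hy z hz hxy hxz hyz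
          obtain ⟨i, rfl⟩ := (hSm x).mp hx
          obtain ⟨j, rfl⟩ := (hSm y).mp hy
          obtain ⟨l, rfl⟩ := (hSm z).mp hz
          exact hG.2 i j l (fun h => hxy (by rw [h])) (fun h => hxz (by rw [h]))
            (fun h => hyz (by rw [h])))
        rw [pairs_eq hG hk hSm hSc, hSc, one_mul] at h1
        have h2 : (n : ℝ) ^ (1 + ε) ≤ ((N : ℝ) ^ 2 + 1) * (n : ℝ) ^ (1 + ε) := by
          have : 0 ≤ (N : ℝ) ^ 2 := by positivity
          nlinarith
        linarith
      · push Not at hnN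
        have h1 : (H k P).card ≤ n * n := by
          calc (H k P).card ≤ (univ : Finset (Fin n × Fin n)).card := card_le_card (subset_univ _)
            _ = n * n := by rw [card_univ, Fintype.card_prod, Fintype.card_fin]
        have h2 : ((H k P).card : ℝ) ≤ (N : ℝ) ^ 2 := by
          have : (H k P).card ≤ N ^ 2 := by
            rw [sq]; exact h1.trans (Nat.mul_le_mul hnN.le hnN.le)
          exact_mod_cast this
        nlinarith
  calc expBis μ n ≤ ∫⁻ P : Fin n → ℝ × ℝ, ENNReal.ofReal (((N : ℝ) ^ 2 + 1) * (n : ℝ) ^ (1 + ε))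
        ∂Measure.pi (fun _ : Fin n => μ) := lintegral_mono_ae key
    _ = _ := by rw [lintegral_const, measure_univ, mul_one]

theorem nearLinear_of_average (h : NearLinearAverage) : NearLinear := by
  classical
  intro ε hε δ hδ
  obtain ⟨C, hC⟩ := h (ε / 4) (by positivity)
  set C1 := max C 0 with hC1
  have hC1' : 0 ≤ C1 := le_max_right _ _
  have h2 : ∀ μ : Measure (ℝ × ℝ), IsProbabilityMeasure μ → NoLine μ → ∀ n : ℕ, Even n →
      expBis μ n ≤ ENNReal.ofReal (C1 * (n : ℝ) ^ (1 + ε / 4)) := by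
    intro μ hμ1 hμ2 n hn
    refine (hC μ hμ1 hμ2 n hn).trans (ENNReal.ofReal_le_ofReal ?_)
    exact mul_le_mul_of_nonneg_right (le_max_left _ _) (by positivity)
  have hT : Tendsto (fun m : ℕ => (m : ℝ) ^ (ε / 2)) atTop atTop :=
    (tendsto_rpow_atTop (by positivity)).comp tendsto_natCast_atTop_atTop
  obtain ⟨N, hN⟩ := (hT.eventually (eventually_ge_atTop (60 * C1 / δ))).exists_forall_of_atTop
  refine ⟨N + 1, fun S hSN hSG => ?_⟩
  have hN' := hN S.card (by omega)
  have hm0 : 0 < S.card := by omega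
  have hmr : (0 : ℝ) < (S.card : ℝ) := by exact_mod_cast hm0
  by_cases hev : Even S.card
  · obtain ⟨k, hk⟩ : ∃ k, S.card = 2 * k + 2 := by
      obtain ⟨r, hr⟩ := hev
      exact ⟨r - 1, by omega⟩
    set e := (S.equivFinOfCardEq rfl).symm with he
    set p : Fin S.card → ℝ × ℝ := fun i => (e i : ℝ × ℝ) with hp
    have hinj : Function.Injective p := by
      intro i j h
      exact e.injective (Subtype.ext h)
    have hmem : ∀ i, p i ∈ S := fun i => (e i).2
    have hSm : ∀ x, x ∈ S ↔ ∃ i, p i = x := by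
      intro x
      constructor
      · intro hx
        refine ⟨e.symm ⟨x, hx⟩, ?_⟩
        show ((e (e.symm ⟨x, hx⟩) : S) : ℝ × ℝ) = x
        rw [Equiv.apply_symm_apply]
      · rintro ⟨i, rfl⟩; exact hmem i
    have himg : univ.image p = S := by
      ext x; rw [mem_image, hSm x]; simp
    have hG : GenPos p := by
      refine ⟨hinj, fun a b c hab hac hbc => ?_⟩
      exact hSG (p a) (hmem a) (p b) (hmem b) (p c) (hmem c) (fun h => hab (hinj h))
        (fun h => hac (hinj h)) (fun h => hbc (hinj h))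
    have hGP : KLev.Halving.GeneralPosition S := by
      have := gp_of_genPos hG
      rwa [himg] at this
    have b1 := bis_ge hG
    rw [show S.card / 2 - 1 = k by omega] at b1
    have b2 : {L | IsBisector p L}.ncard ≤ KLev.Halving.f S.card := by
      have hs : {L | IsBisector p L} = {L | KLev.Halving.IsBisector S L} := by
        ext L
        show IsBisector p L ↔ KLev.Halving.IsBisector S L
        rw [bis_iff_klev hinj L, himg]
      rw [hs]
      exact KLev.Halving.le_f S rfl hGP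
    have b3 := transfer hC1' h2 hev hm0
    rw [pairs_eq hG hk hSm rfl]
    have b4 : ((H k p).card : ℝ) ≤ 2 * KLev.Halving.f S.card := by
      exact_mod_cast b1.trans (Nat.mul_le_mul_left 2 b2)
    have e1 : (S.card : ℝ) ^ (1 + ε) = (S.card : ℝ) ^ (2 * (1 + ε / 4) - 1) *
        (S.card : ℝ) ^ (ε / 2) := by
      rw [← Real.rpow_add hmr]; congr 1; ring
    have e2 : 0 ≤ (S.card : ℝ) ^ (2 * (1 + ε / 4) - 1) := by positivity
    have e3 : 60 * C1 ≤ δ * (S.card : ℝ) ^ (ε / 2) := by
      rw [div_le_iff₀ hδ] at hN'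
      linarith
    calc ((H k p).card : ℝ) ≤ 2 * KLev.Halving.f S.card := b4
      _ ≤ 2 * (30 * C1 * (S.card : ℝ) ^ (2 * (1 + ε / 4) - 1)) := by gcongr
      _ = 60 * C1 * (S.card : ℝ) ^ (2 * (1 + ε / 4) - 1) := by ring
      _ ≤ δ * (S.card : ℝ) ^ (ε / 2) * (S.card : ℝ) ^ (2 * (1 + ε / 4) - 1) := by gcongr
      _ = δ * (S.card : ℝ) ^ (1 + ε) := by rw [e1]; ring
  · have : ((S ×ˢ S).filter (fun x => x.1 ≠ x.2 ∧
          (S.filter (fun r => 0 < (x.2.1 - x.1.1) * (r.2 - x.1.2)
              - (x.2.2 - x.1.2) * (r.1 - x.1.1))).card * 2 + 2 = S.card)).card = 0 := by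
      rw [card_eq_zero, filter_eq_empty_iff]
      rintro x _ ⟨_, h4⟩
      apply hev
      rw [← h4]
      exact ⟨(S.filter (fun r => 0 < (x.2.1 - x.1.1) * (r.2 - x.1.2)
              - (x.2.2 - x.1.2) * (r.1 - x.1.1))).card + 1, by ring⟩
    rw [this]
    simp only [Nat.cast_zero]
    positivity

end Run7.h726.HL
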