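import Pool.Agent.Run7.h726.HL.R9

/-! `k`-sets of points: every crossing of the dual lines gives a `k`-set. -/

set_option autoImplicit false

namespace Run7.h726.HL

open Finset MeasureTheory Filter Topology Pool.Agent.H189R2.Iid Pool.Agent.H189R2.Lev
open Pool.Agent.Results.MP_a08d0a_co.IidLevel
open scoped ENNReal

/-- the `k`-sets of the points `P i`, as sets of indices: sets of `k` of the points which an open
half-plane cuts off -/
def kSets {n : ℕ} (P : Fin n → ℝ × ℝ) (k : ℕ) : Set (Finset (Fin n)) :=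
  {S | S.card = k ∧ ∃ u v c : ℝ, (u, v) ≠ (0, 0) ∧ ∀ i, i ∈ S ↔ u * (P i).1 + v * (P i).2 < c}

variable {n : ℕ} {P : Fin n → ℝ × ℝ}

/-- height of the dual line of the point `P i` at `x` -/
theorem ht_P (i : Fin n) (x : ℝ) : ht (sl P) (ic P) i x = (P i).1 * x + (P i).2 := rfl

/-- the indices below the pair, and its first point -/
noncomputable def cut (P : Fin n → ℝ × ℝ) (q : Fin n × Fin n) : Finset (Fin n) := by
  classical
  exact insert q.1 (univ.filter (fun c => 0 < D (P q.1) (P q.2) (P c)))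

theorem mem_cut {q : Fin n × Fin n} {i : Fin n} :
    i ∈ cut P q ↔ i = q.1 ∨ 0 < D (P q.1) (P q.2) (P i) := by
  classical
  unfold cut
  simp

theorem card_cut {k : ℕ} {q : Fin n × Fin n} (h : lf P q = k) : (cut P q).card = k + 1 := by
  classical
  unfold cut
  rw [card_insert_of_notMem]
  · rw [← h]
    unfold lf
    congr
  · rw [mem_filter, D_fst]
    exact fun h1 => lt_irrefl _ h1.2

/-- sign of the orientation and the heights at the crossing -/
theorem D_ht {q : Fin n × Fin n} (h : (P q.2).1 < (P q.1).1) {x : ℝ}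
    (hx : ht (sl P) (ic P) q.1 x = ht (sl P) (ic P) q.2 x) (c : Fin n) :
    D (P q.1) (P q.2) (P c) =
      ((P q.1).1 - (P q.2).1) * (ht (sl P) (ic P) q.1 x - ht (sl P) (ic P) c x) :=
  D_tie (x := x) hx

theorem cut_mem {k l : ℕ} (hn : n = k + l + 2) {q : Fin n × Fin n} (hq : q ∈ Q k l P) :
    cut P q ∈ kSets P (k + 1) := by
  classical
  obtain ⟨h1, h2, h3⟩ := mem_Q.mp hq
  have hne : q.1 ≠ q.2 := fun h => by rw [h] at h1; exact lt_irrefl _ h1
  have hsl : sl P q.1 ≠ sl P q.2 := fun h => by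
    unfold sl at h; rw [h] at h1; exact lt_irrefl _ h1
  have hno := (noThird_of_card hn (p := P) (a := q.1) (b := q.2) hne h2 h3).2
  set x := cr (sl P) (ic P) q.1 q.2 with hx
  have hX : ht (sl P) (ic P) q.1 x = ht (sl P) (ic P) q.2 x := (ht_cr hsl).symm
  have hD := D_ht h1 hX
  have hpos : 0 < (P q.1).1 - (P q.2).1 := by linarith
  refine ⟨card_cut h2, ?_⟩
  have hcont : ∀ l, Continuous (ht (sl P) (ic P) l) := by
    intro l; unfold ht; fun_prop
  have hev : ∀ᶠ x' in 𝓝[<] x, ∀ c, (ht (sl P) (ic P) c x < ht (sl P) (ic P) q.2 x →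
      ht (sl P) (ic P) c x' < ht (sl P) (ic P) q.2 x') ∧
      (ht (sl P) (ic P) q.2 x < ht (sl P) (ic P) c x →
        ht (sl P) (ic P) q.2 x' < ht (sl P) (ic P) c x') := by
    refine Filter.Eventually.filter_mono nhdsWithin_le_nhds ?_
    rw [eventually_all]
    intro c
    rw [Filter.eventually_and]
    constructor
    · by_cases h : ht (sl P) (ic P) c x < ht (sl P) (ic P) q.2 x
      · filter_upwards [((hcont c).tendsto x).eventually_lt ((hcont q.2).tendsto x) h]
          with x' hx' _
        exact hx'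
      · exact Eventually.of_forall (fun _ h' => absurd h' h)
    · by_cases h : ht (sl P) (ic P) q.2 x < ht (sl P) (ic P) c x
      · filter_upwards [((hcont q.2).tendsto x).eventually_lt ((hcont c).tendsto x) h]
          with x' hx' _
        exact hx'
      · exact Eventually.of_forall (fun _ h' => absurd h' h)
  obtain ⟨x', hx', hlt⟩ := (hev.and self_mem_nhdsWithin).exists
  have hlt' : x' < x := hlt
  refine ⟨x', 1, ht (sl P) (ic P) q.2 x', by simp, fun i => ?_⟩
  have e : x' * (P i).1 + 1 * (P i).2 = ht (sl P) (ic P) i x' := by rw [ht_P]; ring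
  rw [e, mem_cut]
  constructor
  · rintro (h | h)
    · subst h
      have h5 := ht_sub (a := sl P) (B := ic P) q.1 q.2 hX x'
      have h6 : sl P q.2 - sl P q.1 < 0 := by
        have : sl P q.2 < sl P q.1 := h1
        linarith
      nlinarith
    · rw [hD, mul_pos_iff_of_pos_left hpos, sub_pos, hX] at h
      exact (hx' i).1 h
  · intro h
    by_cases hi : i = q.1
    · exact Or.inl hi
    · right
      have hi2 : i ≠ q.2 := by rintro rfl; exact lt_irrefl _ h
      have h7 := hno i hi hi2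
      rcases lt_or_gt_of_ne h7 with h8 | h8
      · exfalso
        rw [hD] at h8
        have h9 : ht (sl P) (ic P) q.2 x < ht (sl P) (ic P) i x := by
          rw [← hX]
          by_contra hcon
          push Not at hcon
          have : 0 ≤ ((P q.1).1 - (P q.2).1) *
            (ht (sl P) (ic P) q.1 x - ht (sl P) (ic P) i x) := mul_nonneg hpos.le (by linarith)
          linarith
        exact lt_asymm h ((hx' i).2 h9)
      · exact h8

/-- members of the cut lie weakly below the crossing, the others weakly above -/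
theorem cut_le {q : Fin n × Fin n} (h : (P q.2).1 < (P q.1).1) {x : ℝ}
    (hx : ht (sl P) (ic P) q.1 x = ht (sl P) (ic P) q.2 x) (i : Fin n) :
    (i ∈ cut P q → ht (sl P) (ic P) i x ≤ ht (sl P) (ic P) q.1 x) ∧
    (i ∉ cut P q → ht (sl P) (ic P) q.1 x ≤ ht (sl P) (ic P) i x) := by
  have hD := D_ht h hx i
  have hpos : 0 < (P q.1).1 - (P q.2).1 := by linarith
  rw [mem_cut]
  constructor
  · rintro (h1 | h1)
    · rw [h1]
    · rw [hD, mul_pos_iff_of_pos_left hpos] at h1
      linarith
  · intro h1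
    push Not at h1
    have h2 := h1.2
    rw [hD] at h2
    by_contra hcon
    push Not at hcon
    have : 0 < ((P q.1).1 - (P q.2).1) *
      (ht (sl P) (ic P) q.1 x - ht (sl P) (ic P) i x) := mul_pos hpos (by linarith)
    linarith

theorem cut_snd {q : Fin n × Fin n} (h : (P q.2).1 < (P q.1).1) : q.2 ∉ cut P q := by
  rw [mem_cut]
  rintro (h1 | h1)
  · rw [h1] at h; exact lt_irrefl _ h
  · rw [D_snd] at h1; exact lt_irrefl _ h1

theorem cut_fst {q : Fin n × Fin n} : q.1 ∈ cut P q := mem_cut.mpr (Or.inl rfl)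

theorem cut_inj {k l : ℕ} (hn : n = k + l + 2) : Set.InjOn (cut P) (Q k l P : Set (Fin n × Fin n)) := by
  -- the crossing of the second pair is not to the right of the crossing of the first
  have key : ∀ q q' : Fin n × Fin n, (P q.2).1 < (P q.1).1 → (P q'.2).1 < (P q'.1).1 →
      cut P q = cut P q' → ∀ x x', ht (sl P) (ic P) q.1 x = ht (sl P) (ic P) q.2 x →
      ht (sl P) (ic P) q'.1 x' = ht (sl P) (ic P) q'.2 x' → x' ≤ x := by
    intro q q' h h' he x x' hx hx'
    by_contra hcon
    push Not at hcon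
    have h1 := (cut_le h' hx' q.1).1 (he ▸ cut_fst)
    have h2 := (cut_le h' hx' q.2).2 (he ▸ cut_snd h)
    have h3 := ht_sub (a := sl P) (B := ic P) q.1 q.2 hx x'
    have h4 : sl P q.2 - sl P q.1 < 0 := by
      have : sl P q.2 < sl P q.1 := h
      linarith
    nlinarith
  intro q hq q' hq' he
  rw [mem_coe, mem_Q] at hq hq'
  obtain ⟨h1, h2, h3⟩ := hq
  obtain ⟨h1', h2', h3'⟩ := hq'
  have hne : q.1 ≠ q.2 := fun h => by rw [h] at h1; exact lt_irrefl _ h1
  have hsl : sl P q.1 ≠ sl P q.2 := fun h => by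
    unfold sl at h; rw [h] at h1; exact lt_irrefl _ h1
  have hsl' : sl P q'.1 ≠ sl P q'.2 := fun h => by
    unfold sl at h; rw [h] at h1'; exact lt_irrefl _ h1'
  have hno := (noThird_of_card hn (p := P) (a := q.1) (b := q.2) hne h2 h3).2
  set x := cr (sl P) (ic P) q.1 q.2 with hx
  have hX : ht (sl P) (ic P) q.1 x = ht (sl P) (ic P) q.2 x := (ht_cr hsl).symm
  set x' := cr (sl P) (ic P) q'.1 q'.2 with hx'
  have hX' : ht (sl P) (ic P) q'.1 x' = ht (sl P) (ic P) q'.2 x' := (ht_cr hsl').symm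
  have hxx : x' = x := le_antisymm (key q q' h1 h1' he x x' hX hX')
    (key q' q h1' h1 he.symm x' x hX' hX)
  rw [hxx] at hX'
  -- the same height
  have g1 := (cut_le h1' hX' q.1).1 (he ▸ cut_fst)
  have g2 := (cut_le h1' hX' q.2).2 (he ▸ cut_snd h1)
  have hH : ht (sl P) (ic P) q'.1 x = ht (sl P) (ic P) q.1 x := by linarith
  have hpos : 0 < (P q.1).1 - (P q.2).1 := by linarith
  have on : ∀ c, ht (sl P) (ic P) c x = ht (sl P) (ic P) q.1 x → c = q.1 ∨ c = q.2 := by
    intro c hc
    by_contra hcon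
    push Not at hcon
    apply hno c hcon.1 hcon.2
    rw [D_ht h1 hX c, hc]
    ring
  have e1 := on q'.1 hH
  have e2 := on q'.2 (by rw [← hX', hH])
  have hne' : q'.1 ≠ q'.2 := fun h => by rw [h] at h1'; exact lt_irrefl _ h1'
  rcases e1 with e1 | e1 <;> rcases e2 with e2 | e2
  · exact absurd (e1.trans e2.symm) hne'
  · exact (Prod.ext e1 e2).symm
  · rw [e1, e2] at h1'
    exact absurd h1 (lt_asymm h1')
  · exact absurd (e1.trans e2.symm) hne'

theorem Q_le_kSets {k l : ℕ} (hn : n = k + l + 2) : (Q k l P).card ≤ (kSets P (k + 1)).ncard := by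
  rw [← Set.ncard_coe_finset]
  exact Set.ncard_le_ncard_of_injOn (cut P) (fun q hq => cut_mem hn (mem_coe.mp hq)) (cut_inj hn)

/-- expected number of `k`-sets of `n` random points -/
noncomputable def expKSets (μ : Measure (ℝ × ℝ)) (n k : ℕ) : ℝ≥0∞ :=
  ∫⁻ P, ((kSets P k).ncard : ℝ≥0∞) ∂Measure.pi (fun _ : Fin n => μ)

theorem cross_le_kSets {μ : Measure (ℝ × ℝ)} [IsProbabilityMeasure μ] (hμ : NoLine μ) {n k : ℕ}
    (hn : k + 2 ≤ n) : expCross μ n k ≤ expKSets μ n (k + 1) := by
  apply lintegral_mono_ae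
  filter_upwards [ae_simple hμ n] with P hP
  obtain ⟨l, hl⟩ : ∃ l, n = k + l + 2 := ⟨n - k - 2, by omega⟩
  have h1 := (crossings_le_Q hP hl).trans (Q_le_kSets (P := P) hl)
  exact_mod_cast h1

end Run7.h726.HL
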