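import Pool.Agent.Run7.h726.HL.K1

/-! `k`-sets of points: upper bound by crossings of the dual lines. -/

set_option autoImplicit false

namespace Run7.h726.HL

open Finset MeasureTheory Filter Topology Pool.Agent.H189R2.Iid Pool.Agent.H189R2.Lev
open Pool.Agent.Results.MP_a08d0a_co.IidLevel
open scoped ENNReal

variable {n : ℕ} {P : Fin n → ℝ × ℝ}

/-- the `k`-sets cut off by a half-plane unbounded from below -/
def kLow {n : ℕ} (P : Fin n → ℝ × ℝ) (k : ℕ) : Set (Finset (Fin n)) :=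
  {S | S.card = k ∧ ∃ x : ℝ, ∀ i ∈ S, ∀ j ∉ S, ht (sl P) (ic P) i x ≤ ht (sl P) (ic P) j x}

/-- strict separation -/
theorem strict_sep {S : Finset (Fin n)} {f : Fin n → ℝ} {c : ℝ} (h : ∀ i, i ∈ S ↔ f i < c) :
    ∃ c' : ℝ, (∀ i ∈ S, f i < c') ∧ (∀ i ∉ S, c' < f i) := by
  classical
  rcases S.eq_empty_or_nonempty with hS | hS
  · refine ⟨c - 1, by simp [hS], fun i hi => ?_⟩
    have := not_lt.mp (fun h1 => hi ((h i).mpr h1))
    linarith
  · obtain ⟨p, hp, hmax⟩ := S.exists_max_image f hS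
    have h1 := (h p).mp hp
    refine ⟨(f p + c) / 2, fun i hi => ?_, fun i hi => ?_⟩
    · have := hmax i hi
      linarith
    · have := not_lt.mp (fun h1 => hi ((h i).mpr h1))
      linarith

theorem kSets_sub {k : ℕ} {S : Finset (Fin n)} (hS : S ∈ kSets P k) :
    S ∈ kLow P k ∨ S ∈ kLow (fun i => -P i) k := by
  classical
  obtain ⟨h1, u, v, c, _, h2⟩ := hS
  obtain ⟨c', h3, h4⟩ := strict_sep h2
  have hc : ∀ i, Continuous (fun w : ℝ => u * (P i).1 + w * (P i).2) := by
    intro i; fun_prop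
  have hev : ∀ᶠ w in 𝓝[≠] v, ∀ i, (i ∈ S → u * (P i).1 + w * (P i).2 < c') ∧
      (i ∉ S → c' < u * (P i).1 + w * (P i).2) := by
    refine Filter.Eventually.filter_mono nhdsWithin_le_nhds ?_
    rw [eventually_all]
    intro i
    by_cases hi : i ∈ S
    · filter_upwards [((hc i).tendsto v).eventually_lt_const (h3 i hi)] with w hw
      exact ⟨fun _ => hw, fun h => absurd hi h⟩
    · filter_upwards [((hc i).tendsto v).eventually_const_lt (h4 i hi)] with w hw
      exact ⟨fun h => absurd h hi, fun _ => hw⟩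
  have hne : ∀ᶠ w in 𝓝[≠] v, w ≠ 0 := by
    by_cases h0 : v = 0
    · subst h0
      exact self_mem_nhdsWithin
    · exact Filter.Eventually.filter_mono nhdsWithin_le_nhds (isOpen_ne.mem_nhds h0)
  obtain ⟨w, hw, hw0⟩ := (hev.and hne).exists
  have hle : ∀ i ∈ S, ∀ j ∉ S, u * (P i).1 + w * (P i).2 ≤ u * (P j).1 + w * (P j).2 :=
    fun i hi j hj => (((hw i).1 hi).trans ((hw j).2 hj)).le
  rcases lt_or_gt_of_ne hw0 with hneg | hpos
  · right
    refine ⟨h1, u / w, fun i hi j hj => ?_⟩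
    have := hle i hi j hj
    show -(P i).1 * (u / w) + -(P i).2 ≤ -(P j).1 * (u / w) + -(P j).2
    have e : ∀ l, u * (P l).1 + w * (P l).2 = (-w) * (-(P l).1 * (u / w) + -(P l).2) := by
      intro l; field_simp; ring
    rw [e i, e j] at this
    exact le_of_mul_le_mul_left this (by linarith)
  · left
    refine ⟨h1, u / w, fun i hi j hj => ?_⟩
    have := hle i hi j hj
    show (P i).1 * (u / w) + (P i).2 ≤ (P j).1 * (u / w) + (P j).2
    have e : ∀ l, u * (P l).1 + w * (P l).2 = w * ((P l).1 * (u / w) + (P l).2) := by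
      intro l; field_simp
    rw [e i, e j] at this
    exact le_of_mul_le_mul_left this hpos

/-- general position: distinct first coordinates, no three points on a line -/
def Gen {n : ℕ} (P : Fin n → ℝ × ℝ) : Prop :=
  (∀ i j, i ≠ j → (P i).1 ≠ (P j).1) ∧
    ∀ i j l, i ≠ j → i ≠ l → j ≠ l → D (P i) (P j) (P l) ≠ 0

/-- the last set -/
def Last (P : Fin n → ℝ × ℝ) (k : ℕ) : Set (Finset (Fin n)) :=
  {S | S.card = k ∧ ∀ i ∈ S, ∀ j ∉ S, (P i).1 < (P j).1}

theorem last_card (P : Fin n → ℝ × ℝ) (k : ℕ) : (Last P k).ncard ≤ 1 := by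
  rw [Set.ncard_le_one_iff (Set.toFinite _)]
  intro S T hS hT
  by_contra hne
  have h1 : ¬ S ⊆ T := fun h => hne (eq_of_subset_of_card_le h (by rw [hS.1, hT.1]))
  have h2 : ¬ T ⊆ S := fun h => hne (eq_of_subset_of_card_le h (by rw [hS.1, hT.1])).symm
  obtain ⟨i, hi, hi'⟩ := not_subset.mp h1
  obtain ⟨j, hj, hj'⟩ := not_subset.mp h2
  exact lt_asymm (hS.2 i hi j hj') (hT.2 j hj i hi')

theorem kLow_sub (hG : Gen P) {k l : ℕ} (hn : n = k + l + 2) :
    kLow P (k + 1) ⊆ cut P '' (Q k l P : Set (Fin n × Fin n)) ∪ Last P (k + 1) := by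
  classical
  rintro S ⟨hc, x0, hx0⟩
  by_cases hlast : ∀ i ∈ S, ∀ j ∉ S, (P i).1 < (P j).1
  · exact Or.inr ⟨hc, hlast⟩
  left
  push Not at hlast
  obtain ⟨i0, hi0, j0, hj0, h0⟩ := hlast
  have hij0 : i0 ≠ j0 := fun h => hj0 (h ▸ hi0)
  have h0' : (P j0).1 < (P i0).1 := lt_of_le_of_ne h0 (hG.1 j0 i0 hij0.symm)
  -- the first crossing
  set W : Finset (Fin n × Fin n) :=
    univ.filter (fun q => q.1 ∈ S ∧ q.2 ∉ S ∧ (P q.2).1 < (P q.1).1) with hW
  obtain ⟨q, hq, hmin⟩ := W.exists_min_image (fun q => cr (sl P) (ic P) q.1 q.2)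
    ⟨(i0, j0), by rw [hW, mem_filter]; exact ⟨mem_univ _, hi0, hj0, h0'⟩⟩
  rw [hW, mem_filter] at hq
  obtain ⟨_, hq1, hq2, hq3⟩ := hq
  have cross : ∀ i j, (P j).1 < (P i).1 → ∀ x, (ht (sl P) (ic P) i x ≤ ht (sl P) (ic P) j x ↔
      x ≤ cr (sl P) (ic P) i j) := by
    intro i j hij x
    have hsl : sl P i ≠ sl P j := fun h => by unfold sl at h; rw [h] at hij; exact lt_irrefl _ hij
    have h1 := ht_sub (a := sl P) (B := ic P) i j (ht_cr (B := ic P) hsl).symm x
    have h2 : sl P j - sl P i < 0 := by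
      have : sl P j < sl P i := hij
      linarith
    constructor
    · intro h
      by_contra hcon
      push Not at hcon
      nlinarith
    · intro h
      nlinarith
  set x := cr (sl P) (ic P) q.1 q.2 with hx
  have hxx : x0 ≤ x := (cross _ _ hq3 x0).mp (hx0 _ hq1 _ hq2)
  have hsl : sl P q.1 ≠ sl P q.2 := fun h => by
    unfold sl at h; rw [h] at hq3; exact lt_irrefl _ hq3
  have hX : ht (sl P) (ic P) q.1 x = ht (sl P) (ic P) q.2 x := (ht_cr hsl).symm
  have hle : ∀ i ∈ S, ∀ j ∉ S, ht (sl P) (ic P) i x ≤ ht (sl P) (ic P) j x := by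
    intro i hi j hj
    by_cases h : (P j).1 < (P i).1
    · rw [cross i j h x]
      exact hmin (i, j) (by rw [hW, mem_filter]; exact ⟨mem_univ _, hi, hj, h⟩)
    · push Not at h
      have h1 := hx0 i hi j hj
      have h2 : ht (sl P) (ic P) j x - ht (sl P) (ic P) i x =
          (ht (sl P) (ic P) j x0 - ht (sl P) (ic P) i x0) + ((P j).1 - (P i).1) * (x - x0) := by
        unfold ht sl ic; ring
      have h3 : 0 ≤ ((P j).1 - (P i).1) * (x - x0) := mul_nonneg (by linarith) (by linarith)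
      linarith
  have hne : q.1 ≠ q.2 := fun h => hq2 (h ▸ hq1)
  have hD := D_ht hq3 hX
  have hpos : 0 < (P q.1).1 - (P q.2).1 := by linarith
  have hcut : cut P q = S := by
    ext i
    rw [mem_cut]
    constructor
    · rintro (h | h)
      · rw [h]; exact hq1
      · rw [hD, mul_pos_iff_of_pos_left hpos, sub_pos] at h
        by_contra hi
        exact absurd (hle q.1 hq1 i hi) (not_le.mpr h)
    · intro hi
      by_cases h1 : i = q.1
      · exact Or.inl h1
      · right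
        have h2 : i ≠ q.2 := by rintro rfl; exact hq2 hi
        have h3 := hG.2 q.1 q.2 i hne (Ne.symm h1) (Ne.symm h2)
        have h4 : ht (sl P) (ic P) i x ≤ ht (sl P) (ic P) q.1 x := by
          rw [hX]; exact hle i hi q.2 hq2
        have h5 : 0 ≤ D (P q.1) (P q.2) (P i) := by
          rw [hD]; exact mul_nonneg hpos.le (by linarith)
        exact lt_of_le_of_ne h5 (Ne.symm h3)
  have hlf : lf P q = k := by
    have h1 := card_cut (P := P) (q := q) rfl
    rw [hcut, hc] at h1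
    omega
  refine ⟨q, ?_, hcut⟩
  rw [mem_coe]
  refine mem_Q.mpr ⟨hq3, hlf, ?_⟩
  refine lf_add_rt2 hn P (i := q.1) (j := q.2) hne ?_ hlf
  intro c hci hcj
  exact hG.2 q.1 q.2 c hne (Ne.symm hci) (Ne.symm hcj)

theorem kLow_card (hG : Gen P) {k l : ℕ} (hn : n = k + l + 2) :
    (kLow P (k + 1)).ncard ≤ (Q k l P).card + 1 := by
  calc (kLow P (k + 1)).ncard
      ≤ (cut P '' (Q k l P : Set (Fin n × Fin n)) ∪ Last P (k + 1)).ncard :=
        Set.ncard_le_ncard (kLow_sub hG hn) (Set.toFinite _)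
    _ ≤ (cut P '' (Q k l P : Set (Fin n × Fin n))).ncard + (Last P (k + 1)).ncard :=
        Set.ncard_union_le _ _
    _ ≤ (Q k l P).card + 1 := by
        refine add_le_add ?_ (last_card P (k + 1))
        refine (Set.ncard_image_le (Set.toFinite _)).trans ?_
        rw [Set.ncard_coe_finset]

theorem D_neg (p q r : ℝ × ℝ) : D (-p) (-q) (-r) = D p q r := by
  unfold D; simp only [Prod.fst_neg, Prod.snd_neg]; ring

theorem Gen.neg (hG : Gen P) : Gen (fun i => -P i) := by
  refine ⟨fun i j hij h => hG.1 i j hij ?_, fun i j l h1 h2 h3 h => hG.2 i j l h1 h2 h3 ?_⟩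
  · simpa using h
  · rw [← D_neg]; exact h

theorem kSets_card (hG : Gen P) {k l : ℕ} (hn : n = k + l + 2) :
    (kSets P (k + 1)).ncard ≤ (Q k l P).card + (Q k l (fun i => -P i)).card + 2 := by
  calc (kSets P (k + 1)).ncard
      ≤ (kLow P (k + 1) ∪ kLow (fun i => -P i) (k + 1)).ncard :=
        Set.ncard_le_ncard (fun S hS => kSets_sub hS) (Set.toFinite _)
    _ ≤ (kLow P (k + 1)).ncard + (kLow (fun i => -P i) (k + 1)).ncard := Set.ncard_union_le _ _
    _ ≤ ((Q k l P).card + 1) + ((Q k l (fun i => -P i)).card + 1) :=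
        add_le_add (kLow_card hG hn) (kLow_card hG.neg hn)
    _ = _ := by ring

end Run7.h726.HL
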