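import Pool.Agent.Run7.h726.HL.K2

/-! `k`-sets of random points: lower bounds, and the worst case from the average case. -/

set_option autoImplicit false

namespace Run7.h726.HL

open Finset MeasureTheory Filter Topology Pool.Agent.H189R2.Iid Pool.Agent.H189R2.Lev
open Pool.Agent.Results.MP_a08d0a_co.IidLevel
open scoped ENNReal

/-- a nonzero quadratic polynomial does not vanish near `0`, except perhaps at `0` -/
theorem quad_ne {α β γ : ℝ} (h : β ≠ 0 ∨ γ ≠ 0) : ∀ᶠ t in 𝓝[≠] (0 : ℝ), α + t * (β + t * γ) ≠ 0 := by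
  have hm : ∀ᶠ t in 𝓝[≠] (0 : ℝ), t ≠ 0 := self_mem_nhdsWithin
  by_cases h0 : α = 0
  · by_cases h1 : β = 0
    · have h2 : γ ≠ 0 := by
        rcases h with h | h
        · exact absurd h1 h
        · exact h
      filter_upwards [hm] with t ht
      rw [h0, h1, zero_add, zero_add]
      exact mul_ne_zero ht (mul_ne_zero ht h2)
    · have hc : Continuous (fun t : ℝ => β + t * γ) := by fun_prop
      have h2 : ∀ᶠ t in 𝓝 (0 : ℝ), β + t * γ ≠ 0 := by
        apply (hc.tendsto 0).eventually_ne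
        simpa using h1
      filter_upwards [hm, Filter.Eventually.filter_mono nhdsWithin_le_nhds h2] with t ht ht2
      rw [h0, zero_add]
      exact mul_ne_zero ht ht2
  · have hc : Continuous (fun t : ℝ => α + t * (β + t * γ)) := by fun_prop
    refine Filter.Eventually.filter_mono nhdsWithin_le_nhds ?_
    apply (hc.tendsto 0).eventually_ne
    simpa using h0

/-- points moved along a parabola -/
def mov {n : ℕ} (P : Fin n → ℝ × ℝ) (t : ℝ) (i : Fin n) : ℝ × ℝ :=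
  ((P i).1 + t * (i : ℕ), (P i).2 + t * ((i : ℕ) : ℝ) ^ 2)

theorem exists_gen {n : ℕ} (P : Fin n → ℝ × ℝ) (k : ℕ) :
    ∃ P' : Fin n → ℝ × ℝ, Gen P' ∧ kSets P k ⊆ kSets P' k := by
  classical
  have hcast : ∀ i j : Fin n, i ≠ j → ((i : ℕ) : ℝ) - ((j : ℕ) : ℝ) ≠ 0 := by
    intro i j hij h
    apply hij
    have : ((i : ℕ) : ℝ) = ((j : ℕ) : ℝ) := by linarith
    exact Fin.ext (by exact_mod_cast this)
  have h1 : ∀ᶠ t in 𝓝[≠] (0 : ℝ), ∀ i j : Fin n, i ≠ j → (mov P t i).1 ≠ (mov P t j).1 := by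
    rw [eventually_all]; intro i
    rw [eventually_all]; intro j
    by_cases hij : i = j
    · exact Eventually.of_forall (fun _ h => absurd hij h)
    filter_upwards [quad_ne (α := (P i).1 - (P j).1) (β := ((i : ℕ) : ℝ) - ((j : ℕ) : ℝ)) (γ := 0)
      (Or.inl (hcast i j hij))] with t ht _ h
    apply ht
    unfold mov at h
    simp only at h
    linarith
  have h2 : ∀ᶠ t in 𝓝[≠] (0 : ℝ), ∀ i j l : Fin n, i ≠ j → i ≠ l → j ≠ l →
      D (mov P t i) (mov P t j) (mov P t l) ≠ 0 := by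
    rw [eventually_all]; intro i
    rw [eventually_all]; intro j
    rw [eventually_all]; intro l
    by_cases hij : i = j
    · exact Eventually.of_forall (fun _ h => absurd hij h)
    by_cases hil : i = l
    · exact Eventually.of_forall (fun _ _ h => absurd hil h)
    by_cases hjl : j = l
    · exact Eventually.of_forall (fun _ _ _ h => absurd hjl h)
    set a : ℝ := ((i : ℕ) : ℝ) with ha
    set b : ℝ := ((j : ℕ) : ℝ) with hb
    set c : ℝ := ((l : ℕ) : ℝ) with hc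
    have g1 : b - a ≠ 0 := hcast j i (Ne.symm hij)
    have g2 : c - a ≠ 0 := hcast l i (Ne.symm hil)
    have g3 : c - b ≠ 0 := hcast l j (Ne.symm hjl)
    filter_upwards [quad_ne (α := D (P i) (P j) (P l))
      (β := (b - a) * ((P l).2 - (P i).2) + ((P j).1 - (P i).1) * (c ^ 2 - a ^ 2)
        - ((b ^ 2 - a ^ 2) * ((P l).1 - (P i).1) + ((P j).2 - (P i).2) * (c - a)))
      (γ := (b - a) * (c - a) * (c - b))
      (Or.inr (mul_ne_zero (mul_ne_zero g1 g2) g3))] with t ht _ _ _ h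
    apply ht
    rw [← h]
    unfold D mov
    simp only [← ha, ← hb, ← hc]
    ring
  have h3 : ∀ᶠ t in 𝓝[≠] (0 : ℝ), ∀ S ∈ kSets P k, S ∈ kSets (mov P t) k := by
    refine Filter.Eventually.filter_mono nhdsWithin_le_nhds ?_
    rw [eventually_all]
    intro S
    by_cases hS : S ∈ kSets P k
    swap
    · exact Eventually.of_forall (fun _ h => absurd h hS)
    obtain ⟨e1, u, v, c, e2, e3⟩ := hS
    obtain ⟨c', e4, e5⟩ := strict_sep e3
    have hcont : ∀ i, Continuous (fun t : ℝ => u * (mov P t i).1 + v * (mov P t i).2) := by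
      intro i; unfold mov; fun_prop
    have h00 : ∀ i, u * (mov P 0 i).1 + v * (mov P 0 i).2 = u * (P i).1 + v * (P i).2 := by
      intro i; unfold mov; simp
    have hev : ∀ᶠ t in 𝓝 (0 : ℝ), ∀ i, (i ∈ S → u * (mov P t i).1 + v * (mov P t i).2 < c') ∧
        (i ∉ S → c' < u * (mov P t i).1 + v * (mov P t i).2) := by
      rw [eventually_all]
      intro i
      by_cases hi : i ∈ S
      · filter_upwards [((hcont i).tendsto 0).eventually_lt_const
          (by rw [h00]; exact e4 i hi)] with w hw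
        exact ⟨fun _ => hw, fun h => absurd hi h⟩
      · filter_upwards [((hcont i).tendsto 0).eventually_const_lt
          (by rw [h00]; exact e5 i hi)] with w hw
        exact ⟨fun h => absurd h hi, fun _ => hw⟩
    filter_upwards [hev] with t ht _
    refine ⟨e1, u, v, c', e2, fun i => ⟨(ht i).1, fun h => ?_⟩⟩
    by_contra hi
    exact lt_asymm h ((ht i).2 hi)
  obtain ⟨t, ⟨a1, a2⟩, a3⟩ := ((h1.and h2).and h3).exists
  exact ⟨mov P t, ⟨a1, a2⟩, a3⟩

theorem Gen.inj {n : ℕ} {P : Fin n → ℝ × ℝ} (hG : Gen P) : Function.Injective P := by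
  intro i j h
  by_contra hij
  exact hG.1 i j hij (by rw [h])

/-- one set of points gives a law with many `k`-sets: `m (k0 + 1) + 2` random points -/
theorem scaleQ {m : ℕ} {p : Fin m → ℝ × ℝ} (hinj : Function.Injective p) {k0 l0 : ℕ}
    (hm0 : m = k0 + l0 + 2) (hk : 2 * k0 + 2 ≤ m) :
    ∃ ν : Measure (ℝ × ℝ), IsProbabilityMeasure ν ∧ NoLine ν ∧
      ENNReal.ofReal (((k0 : ℝ) + 1) / 40 * (Q k0 l0 p).card) ≤
        expCross ν (m * (k0 + 1) + 2) ((k0 + 1) ^ 2) := by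
  have hm0' : (0 : ℝ) < m := by exact_mod_cast (by omega : 0 < m)
  set k := (k0 + 1) ^ 2 with hkd
  have hkN : 2 * k ≤ m * (k0 + 1) := by rw [hkd]; nlinarith
  obtain ⟨l, hl⟩ : ∃ l, m * (k0 + 1) = k + l := ⟨m * (k0 + 1) - k, by omega⟩
  have hk1 : 1 ≤ k := by rw [hkd]; exact Nat.one_le_pow _ _ (by omega)
  have hc0 : (0 : ℝ) < (k0 : ℝ) + 1 := by positivity
  have hN : (((k + l : ℕ) : ℝ)) = m * ((k0 : ℝ) + 1) := by
    rw [← hl]; push_cast; ring
  have hkr : (k : ℝ) = ((k0 : ℝ) + 1) ^ 2 := by rw [hkd]; push_cast; ring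
  obtain ⟨ν, h1, h2, h3⟩ := lower_gen (m := m) hinj (k := k) (l := l)
    (n := m * (k0 + 1) + 2) (k0 := k0) (l0 := l0) (by omega) hk1 (by omega) hm0
    (τ := 0) (by norm_num) (by
      rw [hN, hkr, add_zero]
      field_simp) (by
      rw [hN, hkr, Real.sqrt_sq hc0.le]
      have : 0 < (m : ℝ) * ((k0 : ℝ) + 1) := by positivity
      linarith)
  refine ⟨ν, h1, h2, le_trans (le_trans ?_ h3) (Q_le_cross _ _ _)⟩
  apply ENNReal.ofReal_le_ofReal
  have h5 : ((k0 : ℝ) + 1) / 40 ≤ ((m * (k0 + 1) + 2 : ℕ) : ℝ) / (40 * m) := by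
    rw [div_le_div_iff₀ (by norm_num) (by positivity)]
    push_cast
    nlinarith
  exact mul_le_mul_of_nonneg_right h5 (Nat.cast_nonneg _)

/-- **one set of points with many `k`-sets gives a law with many `(k ^ 2 + 1)`-sets** -/
theorem scaleK {m : ℕ} (P : Fin m → ℝ × ℝ) {k : ℕ} (hk1 : 1 ≤ k) (hk : 2 * k ≤ m) :
    ∃ ν : Measure (ℝ × ℝ), IsProbabilityMeasure ν ∧ NoLine ν ∧
      ENNReal.ofReal ((k : ℝ) / 80 * ((kSets P k).ncard - 2)) ≤
        expKSets ν (m * k + 2) (k ^ 2 + 1) := by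
  obtain ⟨P', hG, hsub⟩ := exists_gen P k
  obtain ⟨k0, rfl⟩ : ∃ k0, k = k0 + 1 := ⟨k - 1, by omega⟩
  obtain ⟨l0, hl0⟩ : ∃ l0, m = k0 + l0 + 2 := ⟨m - k0 - 2, by omega⟩
  have h1 : (kSets P (k0 + 1)).ncard ≤ (kSets P' (k0 + 1)).ncard :=
    Set.ncard_le_ncard hsub (Set.toFinite _)
  have h2 := h1.trans (kSets_card hG hl0)
  have main : ∀ p : Fin m → ℝ × ℝ, Gen p →
      ((kSets P (k0 + 1)).ncard : ℝ) - 2 ≤ 2 * ((Q k0 l0 p).card : ℝ) →
      ∃ ν : Measure (ℝ × ℝ), IsProbabilityMeasure ν ∧ NoLine ν ∧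
      ENNReal.ofReal (((k0 + 1 : ℕ) : ℝ) / 80 * ((kSets P (k0 + 1)).ncard - 2)) ≤
        expKSets ν (m * (k0 + 1) + 2) ((k0 + 1) ^ 2 + 1) := by
    intro p hp hle
    obtain ⟨ν, g1, g2, g3⟩ := scaleQ hp.inj hl0 (by omega)
    refine ⟨ν, g1, g2, le_trans (le_trans ?_ g3) (cross_le_kSets g2 (by nlinarith))⟩
    apply ENNReal.ofReal_le_ofReal
    push_cast
    have hc0 : (0 : ℝ) ≤ ((k0 : ℝ) + 1) / 80 := by positivity
    calc ((k0 : ℝ) + 1) / 80 * (((kSets P (k0 + 1)).ncard : ℝ) - 2)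
        ≤ ((k0 : ℝ) + 1) / 80 * (2 * ((Q k0 l0 p).card : ℝ)) := mul_le_mul_of_nonneg_left hle hc0
      _ = _ := by ring
  have h3 : ((kSets P (k0 + 1)).ncard : ℝ) ≤
      ((Q k0 l0 P').card : ℝ) + ((Q k0 l0 (fun i => -P' i)).card : ℝ) + 2 := by exact_mod_cast h2
  rcases le_total ((Q k0 l0 P').card : ℝ) ((Q k0 l0 (fun i => -P' i)).card : ℝ) with h | h
  · exact main _ hG.neg (by linarith)
  · exact main _ hG (by linarith)

/-- **the worst case from the average case** -/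
theorem transferK {γ C : ℝ} (hγ : 0 ≤ γ) (hC : 0 ≤ C)
    (h : ∀ μ : Measure (ℝ × ℝ), IsProbabilityMeasure μ → NoLine μ → ∀ n k : ℕ, 1 ≤ k →
      2 * k ≤ n → expKSets μ n k ≤ ENNReal.ofReal (C * n * (k : ℝ) ^ γ)) {m : ℕ}
    (P : Fin m → ℝ × ℝ) {k : ℕ} (hk1 : 1 ≤ k) (hk : 2 * k ≤ m) :
    ((kSets P k).ncard : ℝ) ≤ 160 * 2 ^ γ * C * m * (k : ℝ) ^ (2 * γ) + 2 := by
  obtain ⟨ν, h1, h2, h3⟩ := scaleK P hk1 hk
  have h4 := h3.trans (h ν h1 h2 _ _ (by omega) (by nlinarith))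
  have hk0 : (0 : ℝ) < k := by exact_mod_cast hk1
  rw [ENNReal.ofReal_le_ofReal_iff (by positivity)] at h4
  have hm0 : (0 : ℝ) ≤ m := Nat.cast_nonneg _
  have e1 : (((k ^ 2 + 1 : ℕ) : ℝ)) ^ γ ≤ 2 ^ γ * (k : ℝ) ^ (2 * γ) := by
    have e2 : (k : ℝ) ^ (2 * γ) = ((k : ℝ) ^ 2) ^ γ := by
      rw [← Real.rpow_natCast, ← Real.rpow_mul hk0.le]
      norm_num
    rw [e2, ← Real.mul_rpow (by norm_num) (by positivity)]
    apply Real.rpow_le_rpow (by positivity) _ hγ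
    have : k ^ 2 + 1 ≤ 2 * k ^ 2 := by nlinarith
    exact_mod_cast this
  have e3 : (((m * k + 2 : ℕ) : ℝ)) ≤ 2 * (m * k) := by
    have : m * k + 2 ≤ 2 * (m * k) := by nlinarith
    exact_mod_cast this
  set G := (k : ℝ) ^ (2 * γ) with hG
  have hG0 : 0 ≤ G := Real.rpow_nonneg hk0.le _
  have h2γ : (0 : ℝ) ≤ 2 ^ γ := by positivity
  have h5 : (k : ℝ) / 80 * (((kSets P k).ncard : ℝ) - 2) ≤
      (k : ℝ) / 80 * (160 * 2 ^ γ * C * m * G) := by
    calc _ ≤ C * (((m * k + 2 : ℕ) : ℝ)) * (((k ^ 2 + 1 : ℕ) : ℝ)) ^ γ := h4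
      _ ≤ C * (2 * (m * k)) * (2 ^ γ * G) := by gcongr
      _ = _ := by ring
  have h6 := le_of_mul_le_mul_left h5 (by positivity)
  linarith

/-- **lower bound for random points** -/
theorem lowerK (K : ℝ) : ∃ k₀ : ℕ, ∀ k n : ℕ, k₀ ≤ k → 2 * k ≤ n →
    ∃ ν : Measure (ℝ × ℝ), IsProbabilityMeasure ν ∧ NoLine ν ∧
      ENNReal.ofReal (n * (k : ℝ) ^ (K / (Real.log (Real.log k)) ^ 3)) ≤ expKSets ν n k := by
  set K0 := max K 0 with hK0
  have hK0' : 0 ≤ K0 := le_max_right _ _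
  have hK1 : K ≤ K0 := le_max_left _ _
  obtain ⟨k₁, h⟩ := random_levels (2 * K0)
  refine ⟨k₁ + 20, fun k n hk hn => ?_⟩
  obtain ⟨j, rfl⟩ : ∃ j, k = j + 1 := ⟨k - 1, by omega⟩
  obtain ⟨ν, h1, h2, h3⟩ := h j n (by omega) (by omega)
  refine ⟨ν, h1, h2, le_trans (le_trans ?_ h3) (cross_le_kSets h2 (by omega))⟩
  apply ENNReal.ofReal_le_ofReal
  have hj : (19 : ℝ) ≤ j := by exact_mod_cast (by omega : 19 ≤ j)
  have hj1 : (1 : ℝ) ≤ j := by linarith
  have hl1 : 1 < Real.log j := by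
    rw [Real.lt_log_iff_exp_lt (by linarith)]
    linarith [Real.exp_one_lt_d9]
  have hl2 : Real.log j ≤ Real.log ((j + 1 : ℕ) : ℝ) :=
    Real.log_le_log (by linarith) (by push_cast; linarith)
  have hL1 : 0 < Real.log (Real.log j) := Real.log_pos hl1
  have hL2 : Real.log (Real.log j) ≤ Real.log (Real.log ((j + 1 : ℕ) : ℝ)) :=
    Real.log_le_log (by linarith) hl2
  set L := Real.log (Real.log j) with hL
  set L' := Real.log (Real.log ((j + 1 : ℕ) : ℝ)) with hL'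
  have hL0 : 0 < L' := by linarith
  apply mul_le_mul_of_nonneg_left _ (Nat.cast_nonneg n)
  have hb1 : (1 : ℝ) ≤ ((j + 1 : ℕ) : ℝ) := by push_cast; linarith
  calc (((j + 1 : ℕ) : ℝ)) ^ (K / L' ^ 3) ≤ (((j + 1 : ℕ) : ℝ)) ^ (K0 / L' ^ 3) := by
        apply Real.rpow_le_rpow_of_exponent_le hb1
        gcongr
    _ ≤ ((j : ℝ) ^ (2 : ℝ)) ^ (K0 / L' ^ 3) := by
        apply Real.rpow_le_rpow (by linarith) _ (by positivity)
        rw [Real.rpow_two]
        push_cast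
        nlinarith
    _ = (j : ℝ) ^ (2 * (K0 / L' ^ 3)) := by
        rw [← Real.rpow_mul (by linarith)]
    _ ≤ (j : ℝ) ^ (2 * K0 / L ^ 3) := by
        apply Real.rpow_le_rpow_of_exponent_le hj1
        rw [mul_div_assoc]
        gcongr

/-- the points are almost surely distinct -/
theorem ae_inj {μ : Measure (ℝ × ℝ)} [IsProbabilityMeasure μ] (hμ : NoLine μ) (n : ℕ) :
    ∀ᵐ P ∂Measure.pi (fun _ : Fin n => μ), Function.Injective P := by
  filter_upwards [ae_simple hμ n] with P hP i j h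
  by_contra hij
  exact hP.1 i j hij (by unfold sl; rw [h]) (by unfold ic; rw [h])

end Run7.h726.HL
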