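import Pool.Agent.Run7.h726.HL.K3

/-! The maximum number of `k`-sets and random points. -/

set_option autoImplicit false

namespace Run7.h726.HL

open Finset MeasureTheory Filter Topology
open scoped ENNReal

/-- `a2 m k`: the maximum number of `k`-sets of a set of `m` points in the plane -/
noncomputable def a2 (m k : ℕ) : ℕ :=
  sSup {c : ℕ | ∃ P : Fin m → ℝ × ℝ, Function.Injective P ∧ (kSets P k).ncard = c}

theorem a2_bdd (m k : ℕ) :
    BddAbove {c : ℕ | ∃ P : Fin m → ℝ × ℝ, Function.Injective P ∧ (kSets P k).ncard = c} := by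
  classical
  refine ⟨(Set.univ : Set (Finset (Fin m))).ncard, ?_⟩
  rintro c ⟨P, _, rfl⟩
  exact Set.ncard_le_ncard (Set.subset_univ _) (Set.toFinite _)

theorem le_a2 {m : ℕ} {P : Fin m → ℝ × ℝ} (hP : Function.Injective P) (k : ℕ) :
    (kSets P k).ncard ≤ a2 m k := le_csSup (a2_bdd m k) ⟨P, hP, rfl⟩

theorem exists_a2 (m k : ℕ) :
    ∃ P : Fin m → ℝ × ℝ, Function.Injective P ∧ (kSets P k).ncard = a2 m k := by
  have hne : {c : ℕ | ∃ P : Fin m → ℝ × ℝ, Function.Injective P ∧
      (kSets P k).ncard = c}.Nonempty := by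
    refine ⟨_, fun i => (((i : ℕ) : ℝ), 0), fun i j h => ?_, rfl⟩
    rw [Prod.mk.injEq] at h
    exact Fin.ext (by exact_mod_cast h.1)
  exact Nat.sSup_mem hne (a2_bdd m k)

theorem exp_le_a2 {μ : Measure (ℝ × ℝ)} [IsProbabilityMeasure μ] (hμ : NoLine μ) (n k : ℕ) :
    expKSets μ n k ≤ a2 n k := by
  calc expKSets μ n k ≤ ∫⁻ _P, (a2 n k : ℝ≥0∞) ∂Measure.pi (fun _ : Fin n => μ) := by
        apply lintegral_mono_ae
        filter_upwards [ae_inj hμ n] with P hP
        exact_mod_cast le_a2 hP k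
    _ = _ := by simp

theorem open_kSets {n : ℕ} (k : ℕ) (S : Finset (Fin n)) :
    IsOpen {P : Fin n → ℝ × ℝ | S ∈ kSets P k} := by
  classical
  rw [isOpen_iff_mem_nhds]
  intro P hP
  obtain ⟨e1, u, v, c, e2, e3⟩ := hP
  obtain ⟨c', e4, e5⟩ := strict_sep e3
  have hcont : ∀ i, Continuous (fun R : Fin n → ℝ × ℝ => u * (R i).1 + v * (R i).2) := by
    intro i; fun_prop
  have hev : ∀ᶠ R in 𝓝 P, ∀ i, (i ∈ S → u * (R i).1 + v * (R i).2 < c') ∧
      (i ∉ S → c' < u * (R i).1 + v * (R i).2) := by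
    rw [eventually_all]
    intro i
    by_cases hi : i ∈ S
    · filter_upwards [((hcont i).tendsto P).eventually_lt_const (e4 i hi)] with w hw
      exact ⟨fun _ => hw, fun h => absurd hi h⟩
    · filter_upwards [((hcont i).tendsto P).eventually_const_lt (e5 i hi)] with w hw
      exact ⟨fun h => absurd h hi, fun _ => hw⟩
  filter_upwards [hev] with R hR
  refine ⟨e1, u, v, c', e2, fun i => ⟨(hR i).1, fun h => ?_⟩⟩
  by_contra hi
  exact lt_asymm h ((hR i).2 hi)

theorem measurable_kSets (n k : ℕ) :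
    Measurable (fun P : Fin n → ℝ × ℝ => ((kSets P k).ncard : ℝ≥0∞)) := by
  classical
  have h1 : (fun P : Fin n → ℝ × ℝ => ((kSets P k).ncard : ℝ≥0∞)) =
      fun P => ∑ S : Finset (Fin n), {P : Fin n → ℝ × ℝ | S ∈ kSets P k}.indicator 1 P := by
    funext P
    have : (kSets P k).ncard = (univ.filter (fun S => S ∈ kSets P k)).card := by
      rw [← Set.ncard_coe_finset]
      congr 1
      ext S
      simp
    rw [this, card_filter]
    push_cast
    apply sum_congr rfl
    intro S _
    simp [Set.indicator_apply]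
  rw [h1]
  exact Finset.measurable_sum _
    (fun S _ => measurable_one.indicator (open_kSets k S).measurableSet)

end Run7.h726.HL
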