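import Pool.Agent.Run7.h726.HL.E

/-! A lower bound for binomial probabilities near the mean. -/

set_option autoImplicit false

namespace Run7.h726.HL

open Finset MeasureTheory Filter Topology Pool.Agent.H189R2.Iid Pool.Agent.H189R2.Lev

/-- the central term, from below -/
theorem central_ge {N k : ℕ} (hk : 1 ≤ k) (hN : 2 * k ≤ N) :
    1 / (3 * Real.sqrt k) ≤
      (N.choose k : ℝ) * (((k : ℝ) / N) ^ k * (1 - (k : ℝ) / N) ^ (N - k)) := by
  have hN0 : (0 : ℝ) < N := by exact_mod_cast (by omega : 0 < N)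
  have hk0 : (0 : ℝ) < k := by exact_mod_cast hk
  have hkN : k ≤ N := by omega
  have hNk : ((N - k : ℕ) : ℝ) = N - k := Nat.cast_sub hkN
  have hNk0 : (0 : ℝ) < (N : ℝ) - k := by
    have : (k : ℝ) < N := by exact_mod_cast (by omega : k < N)
    linarith
  set e := Real.exp 1 with he
  have he0 : 0 < e := Real.exp_pos 1
  have h1 : (N.choose k : ℝ) * k.factorial * (N - k).factorial = N.factorial := by
    exact_mod_cast Nat.choose_mul_factorial_mul_factorial hkN
  have h2 := fact_le (n := k) hk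
  have h3 := fact_le (n := N - k) (by omega)
  have h4 := Stirling.le_factorial_stirling N
  rw [hNk] at h3
  set A : ℝ := ((k : ℝ) / e) ^ k with hA
  set B : ℝ := (((N : ℝ) - k) / e) ^ (N - k) with hB
  set D : ℝ := ((N : ℝ) / e) ^ N with hD
  have hA0 : 0 < A := by positivity
  have hB0 : 0 < B := by positivity
  have hD0 : 0 < D := by positivity
  have s1 : 5 / 2 * Real.sqrt N ≤ Real.sqrt (2 * Real.pi * N) := by
    have : 5 / 2 * Real.sqrt N = Real.sqrt (25 / 4 * N) := by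
      rw [Real.sqrt_mul (by norm_num : (0 : ℝ) ≤ 25 / 4)]
      congr 1
      rw [show (25 / 4 : ℝ) = (5 / 2) ^ 2 by norm_num, Real.sqrt_sq (by norm_num)]
    rw [this]
    apply Real.sqrt_le_sqrt
    nlinarith [Real.pi_gt_d2]
  have s2 : Real.sqrt ((N : ℝ) - k) ≤ Real.sqrt N := Real.sqrt_le_sqrt (by linarith)
  have hsN : 0 < Real.sqrt N := Real.sqrt_pos.mpr hN0
  have hsk : 0 < Real.sqrt k := Real.sqrt_pos.mpr hk0
  have h5 : 5 / 2 * Real.sqrt N * D ≤
      (N.choose k : ℝ) * (e * Real.sqrt k * A) * (e * Real.sqrt N * B) := by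
    calc 5 / 2 * Real.sqrt N * D ≤ Real.sqrt (2 * Real.pi * N) * D := by gcongr
      _ ≤ N.factorial := h4
      _ = (N.choose k : ℝ) * k.factorial * (N - k).factorial := h1.symm
      _ ≤ (N.choose k : ℝ) * (e * Real.sqrt k * A) * (e * Real.sqrt ((N : ℝ) - k) * B) := by
          gcongr
      _ ≤ _ := by gcongr
  have hAB : A * B = ((k : ℝ) / N) ^ k * (1 - (k : ℝ) / N) ^ (N - k) * D := by
    have e1 : D = ((N : ℝ) / e) ^ k * ((N : ℝ) / e) ^ (N - k) := by
      rw [hD, ← pow_add]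
      congr 1
      omega
    have e2 : (k : ℝ) / e = k / N * (N / e) := by field_simp
    have e3 : ((N : ℝ) - k) / e = (1 - k / N) * (N / e) := by field_simp
    rw [hA, hB, e1, e2, e3, mul_pow, mul_pow]
    ring
  set G := (N.choose k : ℝ) * (((k : ℝ) / N) ^ k * (1 - (k : ℝ) / N) ^ (N - k)) with hG
  have h6 : 5 / 2 * (Real.sqrt N * D) ≤ e ^ 2 * (G * Real.sqrt k) * (Real.sqrt N * D) := by
    calc 5 / 2 * (Real.sqrt N * D) = 5 / 2 * Real.sqrt N * D := by ring
      _ ≤ (N.choose k : ℝ) * (e * Real.sqrt k * A) * (e * Real.sqrt N * B) := h5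
      _ = (N.choose k : ℝ) * e ^ 2 * Real.sqrt k * Real.sqrt N * (A * B) := by ring
      _ = _ := by rw [hAB, hG]; ring
  have h7 : 5 / 2 ≤ e ^ 2 * (G * Real.sqrt k) := le_of_mul_le_mul_right h6 (by positivity)
  have h8 : e ^ 2 < 15 / 2 := by
    have := Real.exp_one_lt_d9
    have h9 : e < 2.7182818286 := this
    nlinarith
  rw [div_le_iff₀ (by positivity)]
  have hG0 : 0 < G * Real.sqrt k := by
    by_contra hcon
    push Not at hcon
    nlinarith [sq_nonneg e]
  nlinarith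

theorem log_ge {u : ℝ} (hu : -(1 / 2) ≤ u) : u - 2 * u ^ 2 ≤ Real.log (1 + u) := by
  have h1 : 0 < 1 + u := by linarith
  have h2 := Real.one_sub_inv_le_log_of_pos h1
  refine le_trans ?_ h2
  have h3 : 1 - (1 + u)⁻¹ = u / (1 + u) := by field_simp; ring
  rw [h3, le_div_iff₀ h1]
  nlinarith [sq_nonneg u]

/-- lower bound for binomial probabilities near the mean -/
theorem bin_low {N k : ℕ} (hk : 1 ≤ k) (hN : 2 * k ≤ N) {F : ℝ}
    (hF : |F - k / N| ≤ Real.sqrt k / (3 * N)) :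
    1 / (6 * Real.sqrt k) ≤ (N.choose k : ℝ) * (F ^ k * (1 - F) ^ (N - k)) := by
  have hN0 : (0 : ℝ) < N := by exact_mod_cast (by omega : 0 < N)
  have hk0 : (0 : ℝ) < k := by exact_mod_cast hk
  have hk1 : (1 : ℝ) ≤ k := by exact_mod_cast hk
  have hkN : (2 * k : ℝ) ≤ N := by exact_mod_cast hN
  have hNk : ((N - k : ℕ) : ℝ) = N - k := Nat.cast_sub (by omega)
  have hsk : 0 < Real.sqrt k := Real.sqrt_pos.mpr hk0
  have hsk2 : Real.sqrt k ^ 2 = k := Real.sq_sqrt hk0.le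
  have hsk1 : 1 ≤ Real.sqrt k := by
    rw [Real.one_le_sqrt]; exact hk1
  set α : ℝ := (k : ℝ) / N with hα
  have hα0 : 0 < α := by positivity
  have hα2 : α ≤ 1 / 2 := by rw [hα, div_le_iff₀ hN0]; linarith
  have hα1 : 0 < 1 - α := by linarith
  set x := F - α with hx
  have hFx : F = α + x := by rw [hx]; ring
  set u := x / α with hu
  set v := -x / (1 - α) with hv
  have hx1 := abs_le.mp hF
  have hkα : (k : ℝ) = N * α := by rw [hα]; field_simp
  have hxk : |x| ≤ α / 3 := by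
    refine hF.trans ?_
    rw [hα, div_div, div_le_div_iff₀ (by positivity) (by positivity)]
    have : Real.sqrt k ≤ k := by
      rw [Real.sqrt_le_left hk0.le]; nlinarith
    nlinarith
  have hxk' := abs_le.mp hxk
  have hu1 : -(1 / 2) ≤ u := by
    rw [hu, le_div_iff₀ hα0]; linarith [hxk'.1]
  have hv1 : -(1 / 2) ≤ v := by
    rw [hv, le_div_iff₀ hα1]; linarith [hxk'.2]
  have hu0 : 0 < 1 + u := by linarith
  have hv0 : 0 < 1 + v := by linarith
  have e1 : F = α * (1 + u) := by rw [hFx, hu]; field_simp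
  have e2 : 1 - F = (1 - α) * (1 + v) := by
    have : 1 - α ≠ 0 := hα1.ne'
    rw [hFx, hv]; field_simp; ring
  have hlog : -(4 / 9) ≤ (k : ℝ) * (u - 2 * u ^ 2) + ((N : ℝ) - k) * (v - 2 * v ^ 2) := by
    have a1 : (k : ℝ) * u = N * x := by rw [hu, hkα]; field_simp
    have a2 : ((N : ℝ) - k) * v = -(N * x) := by
      have : 1 - α ≠ 0 := hα1.ne'
      rw [hv, hkα]; field_simp
    have a3 : (k : ℝ) * u ^ 2 = N * x ^ 2 / α := by rw [hu, hkα]; field_simp
    have a4 : ((N : ℝ) - k) * v ^ 2 = N * x ^ 2 / (1 - α) := by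
      have : 1 - α ≠ 0 := hα1.ne'
      rw [hv, hkα]; field_simp
    have a5 : (N : ℝ) * x ^ 2 / (1 - α) ≤ N * x ^ 2 / α := by
      gcongr; linarith
    have a6 : (N : ℝ) * x ^ 2 / α ≤ 1 / 9 := by
      have b1 : x ^ 2 ≤ (Real.sqrt k / (3 * N)) ^ 2 := by
        rw [← sq_abs x]
        exact pow_le_pow_left₀ (abs_nonneg x) hF 2
      rw [div_pow, hsk2] at b1
      rw [div_le_iff₀ hα0]
      calc (N : ℝ) * x ^ 2 ≤ N * (k / (3 * N) ^ 2) := by gcongr
        _ = 1 / 9 * α := by rw [hα]; field_simp; ring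
    nlinarith
  have h1 : Real.exp ((k : ℝ) * (u - 2 * u ^ 2)) ≤ (1 + u) ^ k := by
    rw [Real.exp_nat_mul]
    apply pow_le_pow_left₀ (Real.exp_pos _).le
    rw [← Real.le_log_iff_exp_le hu0]
    exact log_ge hu1
  have h2 : Real.exp (((N : ℝ) - k) * (v - 2 * v ^ 2)) ≤ (1 + v) ^ (N - k) := by
    rw [← hNk, Real.exp_nat_mul]
    apply pow_le_pow_left₀ (Real.exp_pos _).le
    rw [← Real.le_log_iff_exp_le hv0]
    exact log_ge hv1
  have h3 : 1 / 2 ≤ (1 + u) ^ k * (1 + v) ^ (N - k) := by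
    calc (1 : ℝ) / 2 ≤ -(4 / 9) + 1 := by norm_num
      _ ≤ Real.exp (-(4 / 9)) := Real.add_one_le_exp _
      _ ≤ Real.exp ((k : ℝ) * (u - 2 * u ^ 2) + ((N : ℝ) - k) * (v - 2 * v ^ 2)) :=
          Real.exp_le_exp.mpr hlog
      _ = Real.exp ((k : ℝ) * (u - 2 * u ^ 2)) * Real.exp (((N : ℝ) - k) * (v - 2 * v ^ 2)) :=
          Real.exp_add _ _
      _ ≤ _ := by gcongr
  have h4 := central_ge hk hN
  rw [← hα] at h4
  have e3 : F ^ k = α ^ k * (1 + u) ^ k := by rw [← mul_pow, ← e1]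
  have e4 : (1 - F) ^ (N - k) = (1 - α) ^ (N - k) * (1 + v) ^ (N - k) := by
    rw [← mul_pow, ← e2]
  calc 1 / (6 * Real.sqrt k) = 1 / (3 * Real.sqrt k) * (1 / 2) := by field_simp; norm_num
    _ ≤ (N.choose k : ℝ) * (α ^ k * (1 - α) ^ (N - k)) * ((1 + u) ^ k * (1 + v) ^ (N - k)) := by
        gcongr
    _ = _ := by rw [e3, e4]; ring

end Run7.h726.HL
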