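import Pool.Agent.Run7.h726.HL.R1
import Pool.Agent.Run7.h726.HL.E3

/-! Clusters: pairs with prescribed numbers of points on the two sides. -/

set_option autoImplicit false

namespace Run7.h726.HL

open Finset MeasureTheory Filter Topology Pool.Agent.H189R2.Iid Pool.Agent.H189R2.Lev
open scoped ENNReal

open Classical in
/-- the pairs of points, the second to the left of the first, with exactly `k` points below and
`l` points above their line -/
noncomputable def Q {n : ℕ} (k l : ℕ) (P : Fin n → ℝ × ℝ) : Finset (Fin n × Fin n) :=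
  univ.filter (fun q => (P q.2).1 < (P q.1).1 ∧ lf P q = k ∧ rt P q = l)

theorem mem_Q {n k l : ℕ} {P : Fin n → ℝ × ℝ} {q : Fin n × Fin n} :
    q ∈ Q k l P ↔ (P q.2).1 < (P q.1).1 ∧ lf P q = k ∧ rt P q = l := by
  classical
  unfold Q; simp

variable {m : ℕ} {p : Fin m → ℝ × ℝ} {δ w : ℝ}

/-- no third point on the line of the pair -/
def NoThird {m : ℕ} (p : Fin m → ℝ × ℝ) (a b : Fin m) : Prop :=
  a ≠ b ∧ ∀ c, c ≠ a → c ≠ b → D (p a) (p b) (p c) ≠ 0

theorem noThird_of_card {m k l : ℕ} (hm : m = k + l + 2) {p : Fin m → ℝ × ℝ} {a b : Fin m}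
    (hne : a ≠ b) (h1 : lf p (a, b) = k) (h2 : rt p (a, b) = l) : NoThird p a b := by
  classical
  refine ⟨hne, fun c hca hcb h0 => ?_⟩
  have hsub : univ.filter (fun l => 0 < D (p a) (p b) (p l)) ∪
      univ.filter (fun l => D (p a) (p b) (p l) < 0) ⊆ ((univ.erase a).erase b).erase c := by
    intro l hl
    rw [mem_union, mem_filter, mem_filter] at hl
    rw [mem_erase, mem_erase, mem_erase]
    refine ⟨?_, ?_, ?_, mem_univ _⟩
    · rintro rfl
      rw [h0] at hl
      rcases hl with hl | hl <;> exact lt_irrefl _ hl.2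
    · rintro rfl
      rw [D_snd] at hl
      rcases hl with hl | hl <;> exact lt_irrefl _ hl.2
    · rintro rfl
      rw [D_fst] at hl
      rcases hl with hl | hl <;> exact lt_irrefl _ hl.2
  have hd : Disjoint (univ.filter (fun l => 0 < D (p a) (p b) (p l)))
      (univ.filter (fun l => D (p a) (p b) (p l) < 0)) := by
    rw [Finset.disjoint_left]
    intro l h1 h2
    rw [mem_filter] at h1 h2
    linarith [h1.2, h2.2]
  have hb : b ∈ univ.erase a := mem_erase.mpr ⟨hne.symm, mem_univ _⟩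
  have hc : c ∈ (univ.erase a).erase b := by
    rw [mem_erase, mem_erase]; exact ⟨hcb, hca, mem_univ _⟩
  have h3 := card_le_card hsub
  rw [card_union_of_disjoint hd, card_erase_of_mem hc, card_erase_of_mem hb,
    card_erase_of_mem (mem_univ _), card_univ, Fintype.card_fin] at h3
  have e1 : lf p (a, b) = (univ.filter (fun l => 0 < D (p a) (p b) (p l))).card := rfl
  have e2 : rt p (a, b) = (univ.filter (fun l => D (p a) (p b) (p l) < 0)).card := rfl
  have h4 : 1 ≤ m - 1 - 1 := by
    have : 0 < (((univ : Finset (Fin m)).erase a).erase b).card := card_pos.mpr ⟨c, hc⟩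
    rw [card_erase_of_mem hb, card_erase_of_mem (mem_univ _), card_univ, Fintype.card_fin] at this
    omega
  omega

theorem mass_left2 (hg : Good p δ w) {a b : Fin m} (hp : NoThird p a b) {s t : ℝ} (s0 : 0 ≤ s)
    (s1 : s ≤ 1) (t0 : 0 ≤ t) (t1 : t ≤ 1) :
    rho m {z | 0 < D (cl p δ w (a, s)) (cl p δ w (b, t)) (cl p δ w z)} =
      (m : ℝ≥0∞)⁻¹ * (ENNReal.ofReal (lam (kap p w a b) s) +
        (ENNReal.ofReal (lam (kap p w a b) t) + lf p (a, b))) := by
  classical
  obtain ⟨hδ, hκ, hs⟩ := hg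
  obtain ⟨hne, hD⟩ := hp
  have hκ' := hκ a b hne
  rw [rho_apply m (measurableSet_lt measurable_const
    (meas_D3 measurable_const measurable_const (meas_cl p δ w)))]
  congr 1
  have hb : b ∈ univ.erase a := mem_erase.mpr ⟨hne.symm, mem_univ _⟩
  rw [← add_sum_erase univ _ (mem_univ a), ← add_sum_erase (univ.erase a) _ hb]
  congr 1
  · have : (Prod.mk a ⁻¹' {z | 0 < D (cl p δ w (a, s)) (cl p δ w (b, t)) (cl p δ w z)}) =
        {r | 0 < δ * (r - s) * kap p w a b} := by
      ext r
      show 0 < D (cl p δ w (a, s)) (cl p δ w (b, t)) (cl p δ w (a, r)) ↔ _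
      rw [D_cl_fst]; rfl
    rw [this, u1_side hδ hκ' s0 s1]
  congr 1
  · have : (Prod.mk b ⁻¹' {z | 0 < D (cl p δ w (a, s)) (cl p δ w (b, t)) (cl p δ w z)}) =
        {r | 0 < δ * (r - t) * kap p w a b} := by
      ext r
      show 0 < D (cl p δ w (a, s)) (cl p δ w (b, t)) (cl p δ w (b, r)) ↔ _
      rw [D_cl_snd]; rfl
    rw [this, u1_side hδ hκ' t0 t1]
  · have e1 : ∀ c ∈ (univ.erase a).erase b,
        u1 (Prod.mk c ⁻¹' {z | 0 < D (cl p δ w (a, s)) (cl p δ w (b, t)) (cl p δ w z)}) =
        if 0 < D (p a) (p b) (p c) then 1 else 0 := by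
      intro c hc
      rw [mem_erase, mem_erase] at hc
      have hD := hD c hc.2.1 hc.1
      have hs' := hs a b c hc.2.1 hc.1 s t
      rw [u1_apply]
      split_ifs with hpos
      · have : (Prod.mk c ⁻¹' {z | 0 < D (cl p δ w (a, s)) (cl p δ w (b, t)) (cl p δ w z)}) ∩
            Set.Icc (0 : ℝ) 1 = Set.Icc 0 1 := by
          ext r
          constructor
          · rintro ⟨_, h⟩; exact h
          · intro h; exact ⟨(hs' r s0 s1 t0 t1 h.1 h.2).1 hpos, h⟩
        rw [this, Real.volume_Icc]; simp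
      · have hneg : D (p a) (p b) (p c) < 0 := lt_of_le_of_ne (not_lt.mp hpos) hD
        have : (Prod.mk c ⁻¹' {z | 0 < D (cl p δ w (a, s)) (cl p δ w (b, t)) (cl p δ w z)}) ∩
            Set.Icc (0 : ℝ) 1 = ∅ := by
          ext r
          constructor
          · rintro ⟨h, h'⟩
            have h4 : 0 < D (cl p δ w (a, s)) (cl p δ w (b, t)) (cl p δ w (c, r)) := h
            exact absurd h4 (not_lt.mpr ((hs' r s0 s1 t0 t1 h'.1 h'.2).2 hneg).le)
          · intro h; exact absurd h (Set.notMem_empty _)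
        rw [this, measure_empty]
    rw [sum_congr rfl e1, sum_boole]
    have e2 : ((univ.erase a).erase b).filter (fun c => 0 < D (p a) (p b) (p c)) =
        univ.filter (fun c => 0 < D (p a) (p b) (p c)) := by
      ext c
      simp only [mem_filter, mem_erase, mem_univ, and_true, true_and]
      constructor
      · rintro ⟨_, h⟩; exact h
      · intro h
        refine ⟨⟨?_, ?_⟩, h⟩
        · rintro rfl; rw [D_snd] at h; exact lt_irrefl _ h
        · rintro rfl; rw [D_fst] at h; exact lt_irrefl _ h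
    rw [e2]
    rfl

theorem null_line2 (hg : Good p δ w) {a b : Fin m} (hp : NoThird p a b)
    {s t : ℝ} (s0 : 0 ≤ s) (s1 : s ≤ 1) (t0 : 0 ≤ t) (t1 : t ≤ 1) :
    rho m {z | D (cl p δ w (a, s)) (cl p δ w (b, t)) (cl p δ w z) = 0} = 0 := by
  obtain ⟨hδ, hκ, hs⟩ := hg
  obtain ⟨hne, hD⟩ := hp
  have hκ' := hκ a b hne
  rw [rho_apply m (measurableSet_eq_fun
    (meas_D3 measurable_const measurable_const (meas_cl p δ w)) measurable_const)]
  rw [sum_eq_zero, mul_zero]
  intro c _
  by_cases hca : c = a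
  · subst hca
    have : (Prod.mk c ⁻¹' {z | D (cl p δ w (c, s)) (cl p δ w (b, t)) (cl p δ w z) = 0}) =
        {r | δ * (r - s) * kap p w c b = 0} := by
      ext r
      show D (cl p δ w (c, s)) (cl p δ w (b, t)) (cl p δ w (c, r)) = 0 ↔ _
      rw [D_cl_fst]; rfl
    rw [this, u1_line hδ hκ']
  by_cases hcb : c = b
  · subst hcb
    have : (Prod.mk c ⁻¹' {z | D (cl p δ w (a, s)) (cl p δ w (c, t)) (cl p δ w z) = 0}) =
        {r | δ * (r - t) * kap p w a c = 0} := by
      ext r
      show D (cl p δ w (a, s)) (cl p δ w (c, t)) (cl p δ w (c, r)) = 0 ↔ _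
      rw [D_cl_snd]; rfl
    rw [this, u1_line hδ hκ']
  have hD := hD c hca hcb
  rw [u1_apply]
  have : (Prod.mk c ⁻¹' {z | D (cl p δ w (a, s)) (cl p δ w (b, t)) (cl p δ w z) = 0}) ∩
      Set.Icc (0 : ℝ) 1 = ∅ := by
    ext r
    constructor
    · rintro ⟨h, h'⟩
      have h4 : D (cl p δ w (a, s)) (cl p δ w (b, t)) (cl p δ w (c, r)) = 0 := h
      have hs' := hs a b c hca hcb s t r s0 s1 t0 t1 h'.1 h'.2
      rcases lt_or_gt_of_ne hD with h5 | h5
      · have := hs'.2 h5; rw [h4] at this; exact absurd this (lt_irrefl _)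
      · have := hs'.1 h5; rw [h4] at this; exact absurd this (lt_irrefl _)
    · intro h; exact absurd h (Set.notMem_empty _)
  rw [this, measure_empty]

/-- the points `i`, `j` are in the clusters `a`, `b`, at places with sum near `σ` -/
def Ew {m : ℕ} (n : ℕ) (σ η : ℝ) (a b : Fin m) (i j : Fin n) : Set (Fin n → Fin m × ℝ) :=
  {P | ((P i).1 = a ∧ max 0 (σ - 1) ≤ (P i).2 ∧ (P i).2 ≤ min 1 σ) ∧
    (P j).1 = b ∧ 0 ≤ (P j).2 ∧ (P j).2 ≤ 1 ∧ |(P i).2 + (P j).2 - σ| ≤ η}

theorem meas_coord2 {n : ℕ} (a : Fin m) (i : Fin n) (x y : ℝ) :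
    MeasurableSet {P : Fin n → Fin m × ℝ | (P i).1 = a ∧ x ≤ (P i).2 ∧ (P i).2 ≤ y} := by
  have m1 : Measurable (fun P : Fin n → Fin m × ℝ => P i) := measurable_pi_apply i
  exact (m1.fst (measurableSet_singleton a)).inter
    ((measurableSet_le measurable_const m1.snd).inter
      (measurableSet_le m1.snd measurable_const))

theorem meas_Ew (n : ℕ) (σ η : ℝ) (a b : Fin m) (i j : Fin n) :
    MeasurableSet (Ew n σ η a b i j) := by
  have m1 : Measurable (fun P : Fin n → Fin m × ℝ => P i) := measurable_pi_apply i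
  have m2 : Measurable (fun P : Fin n → Fin m × ℝ => P j) := measurable_pi_apply j
  have m3 : Measurable (fun P : Fin n → Fin m × ℝ => |(P i).2 + (P j).2 - σ|) :=
    ((m1.snd.add m2.snd).sub_const σ).abs
  have m4 : MeasurableSet {P : Fin n → Fin m × ℝ | |(P i).2 + (P j).2 - σ| ≤ η} :=
    measurableSet_le m3 measurable_const
  exact (meas_coord2 a i _ _).inter ((m2.fst (measurableSet_singleton b)).inter
    ((measurableSet_le measurable_const m2.snd).inter
      ((measurableSet_le m2.snd measurable_const).inter m4)))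

theorem Ew_update {n : ℕ} {σ η : ℝ} {a b : Fin m} {i j l : Fin n} (h1 : l ≠ i) (h2 : l ≠ j)
    (P : Fin n → Fin m × ℝ) (y : Fin m × ℝ) :
    Function.update P l y ∈ Ew n σ η a b i j ↔ P ∈ Ew n σ η a b i j := by
  unfold Ew
  rw [Set.mem_ofPred_eq, Set.mem_ofPred_eq, Function.update_of_ne h1.symm,
    Function.update_of_ne h2.symm]

theorem u1_near2 {η σ s : ℝ} (h0 : 0 ≤ η) (h1 : η ≤ 1) (s0 : σ - 1 ≤ s) (s1 : s ≤ σ) :
    ENNReal.ofReal η ≤ u1 {r | 0 ≤ r ∧ r ≤ 1 ∧ |s + r - σ| ≤ η} := by
  rw [u1_apply]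
  by_cases h : σ - s + η ≤ 1
  · calc ENNReal.ofReal η = volume (Set.Icc (σ - s) (σ - s + η)) := by
          rw [Real.volume_Icc]; congr 1; ring
      _ ≤ _ := by
          apply measure_mono
          rintro r ⟨h2, h3⟩
          refine ⟨⟨by linarith, by linarith, ?_⟩, by linarith, by linarith⟩
          rw [abs_le]; constructor <;> linarith
  · push Not at h
    calc ENNReal.ofReal η = volume (Set.Icc (1 - η) 1) := by
          rw [Real.volume_Icc]; congr 1; ring
      _ ≤ _ := by
          apply measure_mono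
          rintro r ⟨h2, h3⟩
          refine ⟨⟨by linarith, by linarith, ?_⟩, by linarith, by linarith⟩
          rw [abs_le]; constructor <;> linarith

theorem meas_near2 (η σ s : ℝ) : MeasurableSet {r : ℝ | 0 ≤ r ∧ r ≤ 1 ∧ |s + r - σ| ≤ η} := by
  have m3 : Measurable (fun r : ℝ => |s + r - σ|) := ((measurable_id.const_add s).sub_const σ).abs
  have m4 : MeasurableSet {r : ℝ | |s + r - σ| ≤ η} := measurableSet_le m3 measurable_const
  exact (measurableSet_le measurable_const measurable_id).inter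
    ((measurableSet_le measurable_id measurable_const).inter m4)

theorem Ew_ge [NeZero m] {n : ℕ} {σ η : ℝ} (h0 : 0 ≤ η) (h1 : η ≤ 1) (hσ1 : 1 / 2 ≤ σ)
    (hσ2 : σ ≤ 3 / 2) (a b : Fin m) {i j : Fin n} (hij : i ≠ j) :
    (m : ℝ≥0∞)⁻¹ * ENNReal.ofReal η * ((m : ℝ≥0∞)⁻¹ * ENNReal.ofReal (1 / 2)) ≤
      Measure.pi (fun _ : Fin n => rho m) (Ew n σ η a b i j) := by
  set x := max 0 (σ - 1) with hx
  set y := min 1 σ with hy
  have hx0 : 0 ≤ x := le_max_left _ _
  have hx1 : σ - 1 ≤ x := le_max_right _ _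
  have hy0 : y ≤ 1 := min_le_left _ _
  have hy1 : y ≤ σ := min_le_right _ _
  have hxy : 1 / 2 ≤ y - x := by
    rcases max_choice 0 (σ - 1) with h | h <;> rcases min_choice 1 σ with h' | h' <;>
      rw [hx, hy, h, h'] <;> linarith
  set A : Set (Fin n → Fin m × ℝ) := {P | (P i).1 = a ∧ x ≤ (P i).2 ∧ (P i).2 ≤ y} with hA
  have hAm : MeasurableSet A := meas_coord2 a i x y
  have hAv : (m : ℝ≥0∞)⁻¹ * ENNReal.ofReal (1 / 2) ≤ Measure.pi (fun _ : Fin n => rho m) A := by
    have hs : MeasurableSet (({a} : Set (Fin m)) ×ˢ Set.Icc x y) :=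
      (measurableSet_singleton a).prod measurableSet_Icc
    have e1 : A = (fun P : Fin n → Fin m × ℝ => P i) ⁻¹'
        (({a} : Set (Fin m)) ×ˢ Set.Icc x y) := by
      ext P
      constructor
      · rintro ⟨h2, h3, h4⟩; exact ⟨h2, h3, h4⟩
      · rintro ⟨h2, h3, h4⟩; exact ⟨h2, h3, h4⟩
    have h2 := (measurePreserving_eval (fun _ : Fin n => rho m) i).measure_preimage
      hs.nullMeasurableSet
    have h3 : Measure.pi (fun _ : Fin n => rho m) A =
        rho m (({a} : Set (Fin m)) ×ˢ Set.Icc x y) := by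
      rw [e1]; exact h2
    rw [h3, rho_prod m a measurableSet_Icc, u1_apply]
    gcongr
    have e4 : Set.Icc x y ∩ Set.Icc (0 : ℝ) 1 = Set.Icc x y := by
      rw [Set.inter_eq_left]
      intro r hr
      exact ⟨hx0.trans hr.1, hr.2.trans hy0⟩
    rw [e4, Real.volume_Icc]
    exact ENNReal.ofReal_le_ofReal hxy
  have hEm := meas_Ew n σ η a b i j
  rw [← lintegral_indicator_one hEm, pi_update _ j (measurable_one.indicator hEm)]
  calc (m : ℝ≥0∞)⁻¹ * ENNReal.ofReal η * ((m : ℝ≥0∞)⁻¹ * ENNReal.ofReal (1 / 2))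
      ≤ (m : ℝ≥0∞)⁻¹ * ENNReal.ofReal η * Measure.pi (fun _ : Fin n => rho m) A := by gcongr
    _ = ∫⁻ P, A.indicator (fun _ => (m : ℝ≥0∞)⁻¹ * ENNReal.ofReal η) P
          ∂Measure.pi (fun _ : Fin n => rho m) := by
        rw [lintegral_indicator_const hAm]
    _ ≤ _ := by
        apply lintegral_mono
        intro P
        by_cases hP : P ∈ A
        · rw [Set.indicator_of_mem hP]
          have e2 : ∀ y, (Ew n σ η a b i j).indicator (1 : (Fin n → Fin m × ℝ) → ℝ≥0∞)
              (Function.update P j y) =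
              (({b} : Set (Fin m)) ×ˢ {r : ℝ | 0 ≤ r ∧ r ≤ 1 ∧ |(P i).2 + r - σ| ≤ η}).indicator
                1 y := by
            intro y
            by_cases hy : y ∈ ({b} : Set (Fin m)) ×ˢ
                {r : ℝ | 0 ≤ r ∧ r ≤ 1 ∧ |(P i).2 + r - σ| ≤ η}
            · rw [Set.indicator_of_mem hy, Set.indicator_of_mem]
              · rfl
              · obtain ⟨h2, h3, h4, h5⟩ := hy
                unfold Ew
                rw [Set.mem_ofPred_eq, Function.update_of_ne hij, Function.update_self]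
                exact ⟨hP, h2, h3, h4, h5⟩
            · rw [Set.indicator_of_notMem hy, Set.indicator_of_notMem]
              intro h2
              apply hy
              unfold Ew at h2
              rw [Set.mem_ofPred_eq, Function.update_of_ne hij, Function.update_self] at h2
              obtain ⟨_, h3, h4, h5, h6⟩ := h2
              exact ⟨h3, h4, h5, h6⟩
          simp_rw [e2]
          rw [lintegral_indicator_one ((measurableSet_singleton b).prod (meas_near2 _ _ _)),
            rho_prod m b (meas_near2 _ _ _)]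
          gcongr
          exact u1_near2 h0 h1 (hx1.trans hP.2.1) (hP.2.2.trans hy1)
        · rw [Set.indicator_of_notMem hP]
          exact zero_le

end Run7.h726.HL
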