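import Pool.Agent.Run7.h726.HL.R2

/-! Clusters: expected number of pairs with `k` points below their line. -/

set_option autoImplicit false

namespace Run7.h726.HL

open Finset MeasureTheory Filter Topology Pool.Agent.H189R2.Iid Pool.Agent.H189R2.Lev
open scoped ENNReal

variable {m : ℕ} {p : Fin m → ℝ × ℝ} {δ w : ℝ}

theorem Good.mono (h : Good p δ w) {δ' : ℝ} (h0 : 0 < δ') (h1 : δ' ≤ δ) : Good p δ' w := by
  obtain ⟨hδ, hκ, hs⟩ := h
  refine ⟨h0, hκ, fun a b c hca hcb s t r s0 s1 t0 t1 r0 r1 => ?_⟩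
  have e : ∀ (a : Fin m) (s : ℝ), cl p δ' w (a, s) = cl p δ w (a, δ' / δ * s) := by
    intro a s
    unfold cl
    simp only [Prod.mk.injEq]
    constructor
    · field_simp
    · field_simp
  have h2 : 0 ≤ δ' / δ := by positivity
  have h3 : δ' / δ ≤ 1 := by rw [div_le_one hδ]; exact h1
  have h4 : ∀ s : ℝ, 0 ≤ s → s ≤ 1 → 0 ≤ δ' / δ * s ∧ δ' / δ * s ≤ 1 := fun s s0 s1 =>
    ⟨by positivity, by nlinarith⟩
  rw [e a s, e b t, e c r]
  exact hs a b c hca hcb _ _ _ (h4 s s0 s1).1 (h4 s s0 s1).2 (h4 t t0 t1).1 (h4 t t0 t1).2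
    (h4 r r0 r1).1 (h4 r r0 r1).2

theorem exists_good2 (hp : Function.Injective p) : ∃ δ w : ℝ, Good p δ w ∧
    ∀ a b, (p b).1 < (p a).1 → (p b).1 + δ < (p a).1 := by
  obtain ⟨δ, w, h⟩ := exists_good hp
  have h1 : ∀ᶠ δ' in 𝓝[>] (0 : ℝ), δ' < δ := by
    have := (continuous_id.tendsto (0 : ℝ)).mono_left (nhdsWithin_le_nhds (s := Set.Ioi 0))
    exact this.eventually (gt_mem_nhds h.1)
  have h2 : ∀ᶠ δ' in 𝓝[>] (0 : ℝ), ∀ a b, (p b).1 < (p a).1 → (p b).1 + δ' < (p a).1 := by
    rw [eventually_all]; intro a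
    rw [eventually_all]; intro b
    by_cases hab : (p b).1 < (p a).1
    · have hc : Continuous (fun δ' : ℝ => (p b).1 + δ') := continuous_const.add continuous_id
      have h3 := (hc.tendsto 0).mono_left (nhdsWithin_le_nhds (s := Set.Ioi 0))
      rw [add_zero] at h3
      filter_upwards [h3.eventually (gt_mem_nhds hab)] with δ' hδ' _ using hδ'
    · exact Eventually.of_forall (fun _ h' => absurd h' hab)
  obtain ⟨δ', h4, h5, h6⟩ := (h1.and (h2.and self_mem_nhdsWithin)).exists
  exact ⟨δ', w, h.mono h6 h4.le, h5⟩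

/-- choice of the sum -/
noncomputable def sig (κ τ : ℝ) : ℝ := if 0 < κ then 1 - τ else 1 + τ

/-- the mass to the left -/
theorem F_eq2 [NeZero m] (hg : Good p δ w) {n : ℕ} {a b : Fin m} (hp : NoThird p a b)
    {U : Finset (Fin n)} {i j : Fin n} (hU : ∀ l ∈ U, l ≠ i ∧ l ≠ j) {τ η : ℝ}
    {P : Fin n → Fin m × ℝ} (hP : P ∈ Ew n (sig (kap p w a b) τ) η a b i j) :
    |(leftRS p δ w i j hU).F (rho m) P - (lf p (a, b) + 1 + τ) / m| ≤ η / m := by
  obtain ⟨⟨ha, hs0, hs1⟩, hb, ht0, ht1, hst⟩ := hP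
  set s := (P i).2 with hs
  set t := (P j).2 with ht
  set κ := kap p w a b with hκ
  have hs0' : 0 ≤ s := (le_max_left _ _).trans hs0
  have hs1' : s ≤ 1 := hs1.trans (min_le_left _ _)
  have hPi : P i = (a, s) := Prod.ext ha rfl
  have hPj : P j = (b, t) := Prod.ext hb rfl
  have hm0 : (0 : ℝ) < m := by exact_mod_cast Nat.pos_of_ne_zero (NeZero.ne m)
  have hl1 : 0 ≤ lam κ s := by unfold lam; split_ifs <;> linarith
  have hl2 : 0 ≤ lam κ t := by unfold lam; split_ifs <;> linarith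
  have h1 : (leftRS p δ w i j hU).F (rho m) P = (lam κ s + (lam κ t + lf p (a, b))) / m := by
    unfold RandSet.F
    have e : {y | (leftRS p δ w i j hU).Lo P y} =
        {z | 0 < D (cl p δ w (a, s)) (cl p δ w (b, t)) (cl p δ w z)} := by
      ext z
      show 0 < D (cl p δ w (P i)) (cl p δ w (P j)) (cl p δ w z) ↔ _
      rw [hPi, hPj]; rfl
    rw [e, mass_left2 hg hp hs0' hs1' ht0 ht1, ENNReal.toReal_mul, ENNReal.toReal_inv,
      ENNReal.toReal_natCast, ENNReal.toReal_add ENNReal.ofReal_ne_top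
        (ENNReal.add_ne_top.mpr ⟨ENNReal.ofReal_ne_top, ENNReal.natCast_ne_top _⟩),
      ENNReal.toReal_add ENNReal.ofReal_ne_top (ENNReal.natCast_ne_top _),
      ENNReal.toReal_ofReal hl1, ENNReal.toReal_ofReal hl2, ENNReal.toReal_natCast]
    field_simp
  rw [h1, ← sub_div, abs_div, abs_of_pos hm0]
  gcongr
  have e2 : |lam κ s + (lam κ t + lf p (a, b)) - (lf p (a, b) + 1 + τ)| = |s + t - sig κ τ| := by
    unfold lam sig
    split_ifs
    · rw [show (1 - s) + ((1 - t) + (lf p (a, b) : ℝ)) - (lf p (a, b) + 1 + τ) =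
        -(s + t - (1 - τ)) by ring, abs_neg]
    · congr 1; ring
  rw [e2]; exact hst

/-- the event of a pair -/
def Hw {m : ℕ} (p : Fin m → ℝ × ℝ) (δ w : ℝ) (n k l : ℕ) (σ η : ℝ) (a b : Fin m) (i j : Fin n) :
    Set (Fin n → Fin m × ℝ) :=
  {P | P ∈ Ew n σ η a b i j ∧ (pts p δ w P j).1 < (pts p δ w P i).1 ∧
    lf (pts p δ w P) (i, j) = k ∧ rt (pts p δ w P) (i, j) = l}

theorem meas_Hw (p : Fin m → ℝ × ℝ) (δ w : ℝ) (n k l : ℕ) (σ η : ℝ) (a b : Fin m)
    (i j : Fin n) : MeasurableSet (Hw p δ w n k l σ η a b i j) := by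
  have m1 : ∀ i : Fin n, Measurable (fun P : Fin n → Fin m × ℝ => pts p δ w P i) := fun i =>
    (measurable_pi_apply i).comp (meas_pts p δ w n)
  exact (meas_Ew n σ η a b i j).inter ((measurableSet_lt (m1 j).fst (m1 i).fst).inter
    ((((meas_lf (i, j)).comp (meas_pts p δ w n)) (measurableSet_singleton k)).inter
      (((meas_rt (i, j)).comp (meas_pts p δ w n)) (measurableSet_singleton l))))

/-- no third point on the line of the pair -/
theorem null_third2 [NeZero m] (hg : Good p δ w) {n : ℕ} {σ η : ℝ} {a b : Fin m}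
    (hp : NoThird p a b) (i j : Fin n) :
    ∀ᵐ P ∂Measure.pi (fun _ : Fin n => rho m), P ∈ Ew n σ η a b i j → ∀ l, l ≠ i → l ≠ j →
      D (pts p δ w P i) (pts p δ w P j) (pts p δ w P l) ≠ 0 := by
  have h : ∀ᵐ P ∂Measure.pi (fun _ : Fin n => rho m), ∀ l, l ≠ i → l ≠ j →
      P ∈ Ew n σ η a b i j → D (pts p δ w P i) (pts p δ w P j) (pts p δ w P l) ≠ 0 := by
    rw [ae_all_iff]
    intro l
    by_cases h1 : l = i
    · exact Eventually.of_forall (fun _ h => absurd h1 h)
    by_cases h2 : l = j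
    · exact Eventually.of_forall (fun _ _ h => absurd h2 h)
    have hN : Measure.pi (fun _ : Fin n => rho m) {P | P ∈ Ew n σ η a b i j ∧
        D (pts p δ w P i) (pts p δ w P j) (pts p δ w P l) = 0} = 0 := by
      have hm1 : Measurable (fun P : Fin n → Fin m × ℝ =>
          D (pts p δ w P i) (pts p δ w P j) (pts p δ w P l)) :=
        (meas_D i j l).comp (meas_pts p δ w n)
      apply null_coord l ((meas_Ew n σ η a b i j).inter (measurableSet_eq_fun hm1 measurable_const))
      intro P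
      by_cases hP : P ∈ Ew n σ η a b i j
      · obtain ⟨⟨ha, hs0, hs1⟩, hb, ht0, ht1, hst⟩ := hP
        have hPi : P i = (a, (P i).2) := Prod.ext ha rfl
        have hPj : P j = (b, (P j).2) := Prod.ext hb rfl
        refine measure_mono_null ?_ (null_line2 hg hp ((le_max_left _ _).trans hs0)
          (hs1.trans (min_le_left _ _)) ht0 ht1)
        rintro y ⟨_, hy⟩
        have hy' : D (cl p δ w (Function.update P l y i)) (cl p δ w (Function.update P l y j))
          (cl p δ w (Function.update P l y l)) = 0 := hy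
        rw [Function.update_of_ne (Ne.symm h1), Function.update_of_ne (Ne.symm h2),
          Function.update_self, hPi, hPj] at hy'
        exact hy'
      · refine measure_mono_null (t := ∅) ?_ measure_empty
        rintro y ⟨h3, _⟩
        exact absurd ((Ew_update h1 h2 P y).mp h3) hP
    rw [← compl_mem_ae_iff] at hN
    filter_upwards [hN] with P hP _ _ h3 h4
    exact hP ⟨h3, h4⟩
  filter_upwards [h] with P hP h1 l h2 h3 using hP l h2 h3 h1

/-- the sum of the numbers of points on the two sides -/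
theorem lf_add_rt2 {n k l : ℕ} (hn : n = k + l + 2) (R : Fin n → ℝ × ℝ) {i j : Fin n}
    (hij : i ≠ j) (h : ∀ l, l ≠ i → l ≠ j → D (R i) (R j) (R l) ≠ 0) (hl : lf R (i, j) = k) :
    rt R (i, j) = l := by
  classical
  have hun : univ.filter (fun l => 0 < D (R i) (R j) (R l)) ∪
      univ.filter (fun l => D (R i) (R j) (R l) < 0) = (univ.erase i).erase j := by
    ext l
    simp only [mem_union, mem_filter, mem_univ, true_and, mem_erase, and_true]
    constructor
    · intro hl
      refine ⟨?_, ?_⟩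
      · rintro rfl
        rw [D_snd] at hl
        rcases hl with hl | hl <;> exact lt_irrefl _ hl
      · rintro rfl
        rw [D_fst] at hl
        rcases hl with hl | hl <;> exact lt_irrefl _ hl
    · rintro ⟨h1, h2⟩
      rcases lt_or_gt_of_ne (h l h2 h1) with h3 | h3
      · right; exact h3
      · left; exact h3
  have hd : Disjoint (univ.filter (fun l => 0 < D (R i) (R j) (R l)))
      (univ.filter (fun l => D (R i) (R j) (R l) < 0)) := by
    rw [Finset.disjoint_left]
    intro l h1 h2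
    rw [mem_filter] at h1 h2
    linarith [h1.2, h2.2]
  have hc := card_union_of_disjoint hd
  rw [hun, card_erase_of_mem (mem_erase.mpr ⟨fun h => hij h.symm, mem_univ _⟩),
    card_erase_of_mem (mem_univ _), card_univ, Fintype.card_fin] at hc
  have e1 : lf R (i, j) = (univ.filter (fun l => 0 < D (R i) (R j) (R l))).card := rfl
  have e2 : rt R (i, j) = (univ.filter (fun l => D (R i) (R j) (R l) < 0)).card := rfl
  omega

theorem prob_ge2 [NeZero m] (hg : Good p δ w)
    (hx : ∀ a b, (p b).1 < (p a).1 → (p b).1 + δ < (p a).1) {k l n : ℕ} (hn : n = k + l + 2)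
    (hk : 1 ≤ k) (hkl : k ≤ l) {a b : Fin m} (hab : (p b).1 < (p a).1) (hp : NoThird p a b)
    {τ : ℝ} (hτ : |τ| ≤ 1 / 2) (hτ' : (lf p (a, b) + 1 + τ) / m = (k : ℝ) / ((k + l : ℕ) : ℝ))
    (hm : m * Real.sqrt k ≤ 3 * ((k + l : ℕ) : ℝ)) {i j : Fin n} (hij : i ≠ j) :
    ENNReal.ofReal (1 / (36 * m * ((k + l : ℕ) : ℝ))) ≤ Measure.pi (fun _ : Fin n => rho m)
      (Hw p δ w n k l (sig (kap p w a b) τ) (m * Real.sqrt k / (3 * ((k + l : ℕ) : ℝ))) a b i j)
      := by
  classical
  set N := k + l with hN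
  set η : ℝ := m * Real.sqrt k / (3 * (N : ℝ)) with hη
  set σ := sig (kap p w a b) τ with hσ
  have hk0 : (0 : ℝ) < k := by exact_mod_cast hk
  have hN0 : (0 : ℝ) < (N : ℝ) := by
    have : 0 < N := by omega
    exact_mod_cast this
  have hm0 : (0 : ℝ) < m := by exact_mod_cast Nat.pos_of_ne_zero (NeZero.ne m)
  have hsk : 0 < Real.sqrt k := Real.sqrt_pos.mpr hk0
  have hη0 : 0 ≤ η := by positivity
  have hη1 : η ≤ 1 := by
    rw [hη, div_le_one (by positivity)]
    exact hm
  have hτ2 := abs_le.mp hτ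
  have hσ1 : 1 / 2 ≤ σ := by
    rw [hσ]; unfold sig; split_ifs <;> linarith [hτ2.1, hτ2.2]
  have hσ2 : σ ≤ 3 / 2 := by
    rw [hσ]; unfold sig; split_ifs <;> linarith [hτ2.1, hτ2.2]
  set U : Finset (Fin n) := (univ.erase i).erase j with hU
  have hUl : ∀ l ∈ U, l ≠ i ∧ l ≠ j := by
    intro l hl
    rw [hU, mem_erase, mem_erase] at hl
    exact ⟨hl.2.1, hl.1⟩
  have hUc : U.card = N := by
    rw [hU, card_erase_of_mem (by rw [mem_erase]; exact ⟨hij.symm, mem_univ _⟩),
      card_erase_of_mem (mem_univ _), card_univ, Fintype.card_fin]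
    omega
  have hbin := (leftRS p δ w i j hUl).binomial (rho m) (meas_Ew n σ η a b i j)
    (fun l hl P y => Ew_update (hUl l hl).1 (hUl l hl).2 P y) k
  rw [hUc] at hbin
  have hsub : Measure.pi (fun _ : Fin n => rho m)
      {P | P ∈ Ew n σ η a b i j ∧ (leftRS p δ w i j hUl).cnt P = k} ≤
      Measure.pi (fun _ : Fin n => rho m) (Hw p δ w n k l σ η a b i j) := by
    apply measure_mono_ae
    filter_upwards [null_third2 hg (σ := σ) (η := η) hp i j] with P hP hP'
    obtain ⟨h1, h2⟩ := hP'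
    have hl : lf (pts p δ w P) (i, j) = k := by
      rw [← h2]
      unfold lf RandSet.cnt
      congr 1
      ext l
      simp only [mem_filter, mem_univ, true_and]
      constructor
      · intro hl
        refine ⟨?_, hl⟩
        rw [hU, mem_erase, mem_erase]
        refine ⟨?_, ?_, mem_univ _⟩
        · rintro rfl; rw [D_snd] at hl; exact lt_irrefl _ hl
        · rintro rfl; rw [D_fst] at hl; exact lt_irrefl _ hl
      · intro hl; exact hl.2
    refine ⟨h1, ?_, hl, lf_add_rt2 (by omega) _ hij (hP h1) hl⟩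
    obtain ⟨⟨ha, hs0, hs1⟩, hb, ht0, ht1, _⟩ := h1
    show (p (P j).1).1 + δ * (P j).2 < (p (P i).1).1 + δ * (P i).2
    rw [ha, hb]
    have h3 := hx a b hab
    have h4 : 0 ≤ (P i).2 := (le_max_left _ _).trans hs0
    have hδ : 0 < δ := hg.1
    have h5 : δ * (P j).2 ≤ δ := by nlinarith
    have h6 : 0 ≤ δ * (P i).2 := by positivity
    linarith
  refine le_trans ?_ hsub
  rw [hbin]
  have hcen : ∀ P ∈ Ew n σ η a b i j, ENNReal.ofReal (1 / (6 * Real.sqrt k)) ≤
      (N.choose k : ℝ≥0∞) * ENNReal.ofReal ((leftRS p δ w i j hUl).F (rho m) P ^ k *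
        (1 - (leftRS p δ w i j hUl).F (rho m) P) ^ (N - k)) := by
    intro P hP
    have hF := F_eq2 hg hp hUl hP
    rw [hτ'] at hF
    have hηm : η / m = Real.sqrt k / (3 * N) := by
      rw [hη]; field_simp
    rw [hηm] at hF
    have hc := bin_low hk (by omega) hF
    rw [← ENNReal.ofReal_natCast, ← ENNReal.ofReal_mul (Nat.cast_nonneg _)]
    exact ENNReal.ofReal_le_ofReal hc
  calc ENNReal.ofReal (1 / (36 * m * (N : ℝ)))
      ≤ ENNReal.ofReal (1 / (6 * Real.sqrt k)) * ((m : ℝ≥0∞)⁻¹ * ENNReal.ofReal η *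
          ((m : ℝ≥0∞)⁻¹ * ENNReal.ofReal (1 / 2))) := by
        have e1 : (m : ℝ≥0∞)⁻¹ = ENNReal.ofReal ((m : ℝ)⁻¹) := by
          rw [ENNReal.ofReal_inv_of_pos hm0, ENNReal.ofReal_natCast]
        rw [e1, ← ENNReal.ofReal_mul (by positivity), ← ENNReal.ofReal_mul (by positivity),
          ← ENNReal.ofReal_mul (by positivity), ← ENNReal.ofReal_mul (by positivity)]
        apply ENNReal.ofReal_le_ofReal
        apply le_of_eq
        rw [hη]
        field_simp
        norm_num
    _ ≤ ENNReal.ofReal (1 / (6 * Real.sqrt k)) *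
          Measure.pi (fun _ : Fin n => rho m) (Ew n σ η a b i j) := by
        gcongr
        exact Ew_ge hη0 hη1 hσ1 hσ2 a b hij
    _ = ∫⁻ P in Ew n σ η a b i j, ENNReal.ofReal (1 / (6 * Real.sqrt k))
          ∂Measure.pi (fun _ : Fin n => rho m) := by
        rw [setLIntegral_const]
    _ ≤ ∫⁻ P in Ew n σ η a b i j, (N.choose k : ℝ≥0∞) *
          ENNReal.ofReal ((leftRS p δ w i j hUl).F (rho m) P ^ k *
          (1 - (leftRS p δ w i j hUl).F (rho m) P) ^ (N - k))
          ∂Measure.pi (fun _ : Fin n => rho m) := by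
        apply setLIntegral_mono' (meas_Ew n σ η a b i j)
        exact hcen
    _ = _ := by
        rw [lintegral_const_mul']
        exact ENNReal.natCast_ne_top _

end Run7.h726.HL
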