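import Pool.Agent.Run7.h726.HL.R3
import Pool.Agent.Run7.h726.HL.G

/-! Many pairs with `k` points below their line for random points. -/

set_option autoImplicit false

namespace Run7.h726.HL

open Finset MeasureTheory Filter Topology Pool.Agent.H189R2.Iid Pool.Agent.H189R2.Lev
open scoped ENNReal

variable {m : ℕ} {p : Fin m → ℝ × ℝ} {δ w : ℝ}

theorem meas_Qs {n : ℕ} (k l : ℕ) (q : Fin n × Fin n) :
    MeasurableSet {P : Fin n → ℝ × ℝ | (P q.2).1 < (P q.1).1 ∧ lf P q = k ∧ rt P q = l} := by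
  have m1 : ∀ i : Fin n, Measurable (fun P : Fin n → ℝ × ℝ => P i) := fun i => measurable_pi_apply i
  exact (measurableSet_lt (m1 q.2).fst (m1 q.1).fst).inter
    (((meas_lf q) (measurableSet_singleton k)).inter ((meas_rt q) (measurableSet_singleton l)))

theorem meas_Q (n k l : ℕ) : Measurable (fun P : Fin n → ℝ × ℝ => ((Q k l P).card : ℝ≥0∞)) := by
  classical
  have h : Measurable (fun P : Fin n → ℝ × ℝ => (Q k l P).card) := by
    unfold Q
    simp_rw [card_filter]
    exact Finset.measurable_sum _ (fun q _ => Measurable.ite (meas_Qs k l q) measurable_const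
      measurable_const)
  exact (measurable_from_top (f := fun k : ℕ => (k : ℝ≥0∞))).comp h

theorem pairs_ge2 [NeZero m] (hg : Good p δ w)
    (hx : ∀ a b, (p b).1 < (p a).1 → (p b).1 + δ < (p a).1) {k l n k0 l0 : ℕ}
    (hn : n = k + l + 2) (hk : 1 ≤ k) (hkl : k ≤ l) (hm0 : m = k0 + l0 + 2) {τ : ℝ}
    (hτ : |τ| ≤ 1 / 2) (hτ' : ((k0 : ℝ) + 1 + τ) / m = (k : ℝ) / ((k + l : ℕ) : ℝ))
    (hm : m * Real.sqrt k ≤ 3 * ((k + l : ℕ) : ℝ)) :
    ENNReal.ofReal (n / (36 * m) * (Q k0 l0 p).card) ≤
      ∫⁻ P, ((Q k l (pts p δ w P)).card : ℝ≥0∞) ∂Measure.pi (fun _ : Fin n => rho m) := by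
  classical
  set π := Measure.pi (fun _ : Fin n => rho m) with hπ
  set A : Fin n × Fin n → Set (Fin n → Fin m × ℝ) := fun q =>
    {P | (pts p δ w P q.2).1 < (pts p δ w P q.1).1 ∧ lf (pts p δ w P) q = k ∧
      rt (pts p δ w P) q = l} with hA
  have hAm : ∀ q, MeasurableSet (A q) := fun q => (meas_pts p δ w n) (meas_Qs k l q)
  have e1 : ∀ P : Fin n → Fin m × ℝ, Q k l (pts p δ w P) = univ.filter (fun q => P ∈ A q) := by
    intro P
    ext q
    rw [mem_Q, mem_filter]
    exact ⟨fun h => ⟨mem_univ _, h⟩, fun h => h.2⟩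
  simp_rw [e1]
  rw [lintegral_card π A hAm]
  have hm0' : (0 : ℝ) < m := by exact_mod_cast Nat.pos_of_ne_zero (NeZero.ne m)
  set N := k + l with hN
  have hN0 : (0 : ℝ) < (N : ℝ) := by
    have : 0 < N := by omega
    exact_mod_cast this
  calc ENNReal.ofReal (n / (36 * m) * (Q k0 l0 p).card)
      ≤ ∑ q ∈ (univ : Finset (Fin n)).offDiag, ∑ c ∈ Q k0 l0 p,
          ENNReal.ofReal (1 / (36 * m * (N : ℝ))) := by
        rw [sum_const, sum_const, offDiag_card, card_univ, Fintype.card_fin, nsmul_eq_mul,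
          nsmul_eq_mul, ← ENNReal.ofReal_natCast, ← ENNReal.ofReal_natCast,
          ← ENNReal.ofReal_mul (Nat.cast_nonneg _), ← ENNReal.ofReal_mul (Nat.cast_nonneg _)]
        apply ENNReal.ofReal_le_ofReal
        have h1 : n * N ≤ n * n - n := by
          have : n * n - n = n * (n - 1) := by rw [Nat.mul_sub, mul_one]
          rw [this]
          exact Nat.mul_le_mul_left _ (by omega)
        have h2 : (n : ℝ) * N ≤ ((n * n - n : ℕ) : ℝ) := by exact_mod_cast h1
        calc (n : ℝ) / (36 * m) * ((Q k0 l0 p).card : ℝ)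
            = (n : ℝ) * N * ((Q k0 l0 p).card * (1 / (36 * m * (N : ℝ)))) := by
              field_simp
          _ ≤ ((n * n - n : ℕ) : ℝ) * ((Q k0 l0 p).card * (1 / (36 * m * (N : ℝ)))) := by gcongr
    _ ≤ ∑ q ∈ (univ : Finset (Fin n)).offDiag, π (A q) := by
        apply sum_le_sum
        intro q hq
        have hij : q.1 ≠ q.2 := (mem_offDiag.mp hq).2.2
        set Hf : Fin m × Fin m → Set (Fin n → Fin m × ℝ) := fun c =>
          Hw p δ w n k l (sig (kap p w c.1 c.2) τ) (m * Real.sqrt k / (3 * (N : ℝ)))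
            c.1 c.2 q.1 q.2 with hHf
        calc ∑ c ∈ Q k0 l0 p, ENNReal.ofReal (1 / (36 * m * (N : ℝ)))
            ≤ ∑ c ∈ Q k0 l0 p, π (Hf c) := by
              apply sum_le_sum
              intro c hc
              obtain ⟨c1, c2, c3⟩ := mem_Q.mp hc
              have hne : c.1 ≠ c.2 := fun h => by rw [h] at c1; exact lt_irrefl _ c1
              have hnt : NoThird p c.1 c.2 := noThird_of_card hm0 hne c2 c3
              have e2 : lf p (c.1, c.2) = k0 := c2
              exact prob_ge2 hg hx hn hk hkl c1 hnt hτ (by rw [e2]; exact hτ') hm hij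
          _ = π (⋃ c ∈ Q k0 l0 p, Hf c) := by
              rw [measure_biUnion_finset]
              · intro c _ c' _ hne
                rw [Function.onFun, Set.disjoint_left]
                intro P hP hP'
                apply hne
                exact Prod.ext (hP.1.1.1.symm.trans hP'.1.1.1)
                  (hP.1.2.1.symm.trans hP'.1.2.1)
              · intro c _
                exact meas_Hw p δ w n k l _ _ c.1 c.2 q.1 q.2
          _ ≤ π (A q) := by
              apply measure_mono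
              intro P hP
              rw [Set.mem_iUnion₂] at hP
              obtain ⟨c, _, hP⟩ := hP
              exact hP.2
    _ ≤ ∑ q, π (A q) := sum_le_sum_of_subset (subset_univ _)

/-- the pairs are stable -/
theorem Q_stable {n k l : ℕ} (hn : n = k + l + 2) (P u : Fin n → ℝ × ℝ) :
    ∀ᶠ δ in 𝓝 (0 : ℝ), Q k l P ⊆ Q k l (pert P u δ) := by
  classical
  have h1 : ∀ᶠ δ in 𝓝 (0 : ℝ), ∀ i j l : Fin n, 0 < D (P i) (P j) (P l) →
      0 < D (pert P u δ i) (pert P u δ j) (pert P u δ l) := by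
    rw [eventually_all]; intro i
    rw [eventually_all]; intro j
    rw [eventually_all]; intro l
    by_cases h : 0 < D (P i) (P j) (P l)
    · have hc := (D_cont P u i j l).tendsto 0
      rw [pert_zero] at hc
      filter_upwards [hc.eventually (lt_mem_nhds h)] with δ hδ _ using hδ
    · exact Eventually.of_forall (fun δ h' => absurd h' h)
  have h2 : ∀ᶠ δ in 𝓝 (0 : ℝ), ∀ i j l : Fin n, D (P i) (P j) (P l) < 0 →
      D (pert P u δ i) (pert P u δ j) (pert P u δ l) < 0 := by
    rw [eventually_all]; intro i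
    rw [eventually_all]; intro j
    rw [eventually_all]; intro l
    by_cases h : D (P i) (P j) (P l) < 0
    · have hc := (D_cont P u i j l).tendsto 0
      rw [pert_zero] at hc
      filter_upwards [hc.eventually (gt_mem_nhds h)] with δ hδ _ using hδ
    · exact Eventually.of_forall (fun δ h' => absurd h' h)
  have h3 : ∀ᶠ δ in 𝓝 (0 : ℝ), ∀ i j : Fin n, (P j).1 < (P i).1 →
      (pert P u δ j).1 < (pert P u δ i).1 := by
    rw [eventually_all]; intro i
    rw [eventually_all]; intro j
    by_cases h : (P j).1 < (P i).1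
    · have hc : Continuous (fun δ : ℝ => (pert P u δ i).1 - (pert P u δ j).1) := by
        unfold pert; fun_prop
      have hc' := hc.tendsto 0
      rw [pert_zero] at hc'
      have h' : 0 < (P i).1 - (P j).1 := by linarith
      filter_upwards [hc'.eventually (lt_mem_nhds h')] with δ hδ _
      linarith
    · exact Eventually.of_forall (fun δ h' => absurd h' h)
  filter_upwards [h1, h2, h3] with δ hp hm hx q hq
  obtain ⟨g1, g2, g3⟩ := mem_Q.mp hq
  have gne : q.1 ≠ q.2 := fun h => by rw [h] at g1; exact lt_irrefl _ g1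
  rw [mem_Q]
  set R := pert P u δ with hR
  set A := univ.filter (fun l => 0 < D (P q.1) (P q.2) (P l)) with hA
  set B := univ.filter (fun l => D (P q.1) (P q.2) (P l) < 0) with hB
  set A' := univ.filter (fun l => 0 < D (R q.1) (R q.2) (R l)) with hA'
  set B' := univ.filter (fun l => D (R q.1) (R q.2) (R l) < 0) with hB'
  have eA : A.card = k := by rw [← g2]; rfl
  have eB : B.card = l := by rw [← g3]; rfl
  have sA : A ⊆ A' := fun l hl => by
    rw [hA, mem_filter] at hl; rw [hA', mem_filter]; exact ⟨mem_univ _, hp _ _ _ hl.2⟩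
  have sB : B ⊆ B' := fun l hl => by
    rw [hB, mem_filter] at hl; rw [hB', mem_filter]; exact ⟨mem_univ _, hm _ _ _ hl.2⟩
  have hd : Disjoint A' B' := by
    rw [Finset.disjoint_left]
    intro l hl hl'
    rw [hA', mem_filter] at hl; rw [hB', mem_filter] at hl'
    linarith [hl.2, hl'.2]
  have hun : A' ∪ B' ⊆ (univ.erase q.1).erase q.2 := by
    intro l hl
    rw [mem_erase, mem_erase]
    rw [mem_union, hA', hB', mem_filter, mem_filter] at hl
    refine ⟨?_, ?_, mem_univ _⟩
    · rintro rfl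
      rw [D_snd] at hl
      rcases hl with hl | hl <;> exact lt_irrefl _ hl.2
    · rintro rfl
      rw [D_fst] at hl
      rcases hl with hl | hl <;> exact lt_irrefl _ hl.2
  have hc := card_le_card hun
  rw [card_union_of_disjoint hd, card_erase_of_mem (mem_erase.mpr ⟨fun h => gne h.symm,
    mem_univ _⟩), card_erase_of_mem (mem_univ _), card_univ, Fintype.card_fin] at hc
  have cA := card_le_card sA
  have cB := card_le_card sB
  refine ⟨hx _ _ g1, ?_, ?_⟩
  · show A'.card = k
    omega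
  · show B'.card = l
    omega

/-- passage to laws without charged lines -/
theorem exists_LN2 (μ : Measure (ℝ × ℝ)) [IsProbabilityMeasure μ] {n k l : ℕ}
    (hn : n = k + l + 2) {c : ℝ≥0∞}
    (hc : c < ∫⁻ P, ((Q k l P).card : ℝ≥0∞) ∂Measure.pi (fun _ : Fin n => μ)) :
    ∃ ν : Measure (ℝ × ℝ), IsProbabilityMeasure ν ∧ LN ν ∧
      c < ∫⁻ P, ((Q k l P).card : ℝ≥0∞) ∂Measure.pi (fun _ : Fin n => ν) := by
  classical
  set W := Measure.pi (fun _ : Fin n => μ.prod u2) with hW
  set dl : ℕ → ℝ := fun s => 1 / ((s : ℝ) + 1) with hdl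
  have hdl0 : ∀ s, dl s ≠ 0 := fun s => by
    rw [hdl]; positivity
  have hdlt : Tendsto dl atTop (𝓝 0) := tendsto_one_div_add_atTop_nhds_zero_nat
  have hmap : ∀ s, Measure.pi (fun _ : Fin n => lawd μ (dl s)) =
      Measure.map (fun (w : Fin n → (ℝ × ℝ) × (ℝ × ℝ)) i => mv (dl s) (w i)) W := by
    intro s
    rw [hW]
    unfold lawd
    rw [Measure.pi_map_pi (fun _ => (meas_mv (dl s)).aemeasurable)]
  have hmapf : Measure.pi (fun _ : Fin n => μ) =
      Measure.map (fun (w : Fin n → (ℝ × ℝ) × (ℝ × ℝ)) i => (w i).1) W := by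
    rw [hW, Measure.pi_map_pi (fun _ => measurable_fst.aemeasurable)]
    congr 1
    funext i
    exact (Measure.map_fst_prod (μ := μ) (ν := u2)).symm ▸ by simp
  have mfst : Measurable (fun (w : Fin n → (ℝ × ℝ) × (ℝ × ℝ)) (i : Fin n) => (w i).1) :=
    measurable_pi_lambda _ (fun i => measurable_fst.comp (measurable_pi_apply i))
  have mmv : ∀ s, Measurable (fun (w : Fin n → (ℝ × ℝ) × (ℝ × ℝ)) (i : Fin n) =>
      mv (dl s) (w i)) := fun s =>
    measurable_pi_lambda _ (fun i => (meas_mv (dl s)).comp (measurable_pi_apply i))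
  rw [hmapf, lintegral_map (meas_Q n k l) mfst] at hc
  have h1 : ∫⁻ w, ((Q k l (fun i => (w i).1)).card : ℝ≥0∞) ∂W ≤
      liminf (fun s => ∫⁻ w, ((Q k l (fun i => mv (dl s) (w i))).card : ℝ≥0∞) ∂W) atTop := by
    calc ∫⁻ w, ((Q k l (fun i => (w i).1)).card : ℝ≥0∞) ∂W
        ≤ ∫⁻ w, liminf (fun s => ((Q k l (fun i => mv (dl s) (w i))).card : ℝ≥0∞)) atTop ∂W := by
          apply lintegral_mono
          intro w
          refine le_liminf_of_le (by isBoundedDefault) ?_
          have h := Q_stable hn (fun i => (w i).1) (fun i => (w i).2)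
          filter_upwards [hdlt.eventually h] with s hs
          have e : pert (fun i => (w i).1) (fun i => (w i).2) (dl s) =
              fun i => mv (dl s) (w i) := by
            funext i; rfl
          rw [e] at hs
          exact_mod_cast card_le_card hs
      _ ≤ _ := lintegral_liminf_le (fun s => (meas_Q n k l).comp (mmv s))
  have h2 := eventually_lt_of_lt_liminf (lt_of_lt_of_le hc h1) (by isBoundedDefault)
  obtain ⟨s, hs⟩ := h2.exists
  refine ⟨lawd μ (dl s), inferInstance, LN_lawd μ (hdl0 s), ?_⟩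
  rw [hmap s, lintegral_map (meas_Q n k l) (mmv s)]
  exact hs

/-- **many pairs for random points, from one configuration** -/
theorem lower_gen {p : Fin m → ℝ × ℝ} (hinj : Function.Injective p) {k l n k0 l0 : ℕ}
    (hn : n = k + l + 2) (hk : 1 ≤ k) (hkl : k ≤ l) (hm0 : m = k0 + l0 + 2) {τ : ℝ}
    (hτ : |τ| ≤ 1 / 2) (hτ' : ((k0 : ℝ) + 1 + τ) / m = (k : ℝ) / ((k + l : ℕ) : ℝ))
    (hm : m * Real.sqrt k ≤ 3 * ((k + l : ℕ) : ℝ)) :
    ∃ ν : Measure (ℝ × ℝ), IsProbabilityMeasure ν ∧ NoLine ν ∧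
      ENNReal.ofReal (n / (40 * m) * (Q k0 l0 p).card) ≤
        ∫⁻ P, ((Q k l P).card : ℝ≥0∞) ∂Measure.pi (fun _ : Fin n => ν) := by
  classical
  have hmz : NeZero m := ⟨by omega⟩
  obtain ⟨δ, w, hg, hx⟩ := exists_good2 hinj
  have h1 := pairs_ge2 hg hx hn hk hkl hm0 hτ hτ' hm
  set h := (Q k0 l0 p).card with hh
  have hn0 : (0 : ℝ) < n := by exact_mod_cast (by omega : 0 < n)
  have hm0' : (0 : ℝ) < m := by exact_mod_cast (by omega : 0 < m)
  set μ0 : Measure (ℝ × ℝ) := Measure.map (cl p δ w) (rho m) with hμ0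
  have hpr : IsProbabilityMeasure μ0 :=
    Measure.isProbabilityMeasure_map (meas_cl p δ w).aemeasurable
  rcases Nat.eq_zero_or_pos h with h0 | h0
  · refine ⟨lawd μ0 1, inferInstance, LN_lawd μ0 one_ne_zero, ?_⟩
    rw [h0]
    simp
  · have hmap : ∫⁻ P, ((Q k l P).card : ℝ≥0∞) ∂Measure.pi (fun _ : Fin n => μ0) =
        ∫⁻ P, ((Q k l (pts p δ w P)).card : ℝ≥0∞) ∂Measure.pi (fun _ : Fin n => rho m) := by
      have hpi : Measure.pi (fun _ : Fin n => μ0) =
          Measure.map (pts (n := n) p δ w) (Measure.pi (fun _ : Fin n => rho m)) := by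
        rw [hμ0]
        exact (Measure.pi_map_pi (fun _ => (meas_cl p δ w).aemeasurable)).symm
      rw [hpi, lintegral_map (meas_Q n k l) (meas_pts p δ w n)]
    have hh0 : (0 : ℝ) < h := by exact_mod_cast h0
    have hlt : ENNReal.ofReal (n / (40 * m) * h) <
        ∫⁻ P, ((Q k l P).card : ℝ≥0∞) ∂Measure.pi (fun _ : Fin n => μ0) := by
      rw [hmap]
      refine lt_of_lt_of_le ?_ h1
      rw [ENNReal.ofReal_lt_ofReal_iff (by positivity)]
      have h5 : (n : ℝ) / (40 * m) < n / (36 * m) := by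
        apply div_lt_div_of_pos_left hn0 (by positivity)
        linarith
      exact mul_lt_mul_of_pos_right h5 hh0
    obtain ⟨ν, hν1, hν2, hν3⟩ := exists_LN2 μ0 hn hlt
    exact ⟨ν, hν1, hν2, hν3.le⟩

end Run7.h726.HL
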