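import Pool.Agent.Run7.h726.HL.R4
import Pool.Agent.Results.MP_a08d0a_co.IidLevel

/-! Crossings and vertices of the `k`-level. -/

set_option autoImplicit false

namespace Run7.h726.HL

open Finset MeasureTheory Filter Topology Pool.Agent.H189R2.Iid Pool.Agent.H189R2.Lev
open Pool.Agent.Results.MP_a08d0a_co.IidLevel
open scoped ENNReal

theorem Q_le_crossings {n k l : ℕ} (P : Fin n → ℝ × ℝ) :
    (Q k l P).card ≤ (crossings (sl P) (ic P) k).ncard := by
  classical
  have hlev : ∀ u v : Fin n, {l | ht (sl P) (ic P) l (cr (sl P) (ic P) u v) <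
      ht (sl P) (ic P) u (cr (sl P) (ic P) u v)}.ncard = lev P (u, v) := by
    intro u v
    unfold lev
    rw [← Set.ncard_coe_finset]
    congr 1
    ext l
    simp only [coe_filter, mem_univ, true_and]
    exact Iff.rfl
  rw [← Set.ncard_coe_finset]
  apply Set.ncard_le_ncard_of_injOn (fun q : Fin n × Fin n => if q.1 < q.2 then q else q.swap)
  · intro q hq
    rw [mem_coe, mem_Q] at hq
    obtain ⟨h1, h2, _⟩ := hq
    have h3 : lev P q = k := by rw [lev_eq (mem_T.mpr h1), h2]
    have hne : q.1 ≠ q.2 := fun h => by rw [h] at h1; exact lt_irrefl _ h1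
    have hsl : sl P q.1 ≠ sl P q.2 := fun h => by
      unfold sl at h; rw [h] at h1; exact lt_irrefl _ h1
    show (if q.1 < q.2 then q else q.swap) ∈ crossings (sl P) (ic P) k
    by_cases h : q.1 < q.2
    · rw [if_pos h]
      exact ⟨h, hsl, by rw [hlev]; exact h3⟩
    · rw [if_neg h]
      have h' : q.2 < q.1 := lt_of_le_of_ne (not_lt.mp h) hne.symm
      refine ⟨h', hsl.symm, ?_⟩
      show {l | ht (sl P) (ic P) l (cr (sl P) (ic P) q.2 q.1) <
        ht (sl P) (ic P) q.2 (cr (sl P) (ic P) q.2 q.1)}.ncard = k
      have h4 := ht_cr (B := ic P) hsl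
      rw [← cr_symm, h4, hlev]
      exact h3
  · intro q hq q' hq' heq
    rw [mem_coe, mem_Q] at hq hq'
    simp only at heq
    split_ifs at heq with h h' h'
    · exact heq
    · rw [heq] at hq
      exact absurd hq.1 (lt_asymm hq'.1)
    · rw [← heq] at hq'
      exact absurd hq.1 (lt_asymm hq'.1)
    · exact Prod.swap_injective heq

section
variable {n : ℕ} {a B : Fin n → ℝ}

theorem ht_sub (i j : Fin n) {x : ℝ} (hx : ht a B i x = ht a B j x) (x' : ℝ) :
    ht a B j x' - ht a B i x' = (a j - a i) * (x' - x) := by
  unfold ht at *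
  linarith

theorem lt_card (u : Fin n) (x : ℝ) :
    {l | ht a B l x < ht a B u x}.ncard < {l | ht a B l x ≤ ht a B u x}.ncard := by
  apply Set.ncard_lt_ncard _ (Set.toFinite _)
  refine ⟨fun l hl => ?_, fun h => ?_⟩
  · have h3 : ht a B l x < ht a B u x := hl
    exact (show ht a B l x ≤ ht a B u x from h3.le)
  have h2 : u ∈ {l | ht a B l x ≤ ht a B u x} := le_refl (ht a B u x)
  have h4 : ht a B u x < ht a B u x := h h2
  exact lt_irrefl _ h4

/-- the level follows the lower of the two lines -/
theorem level_side (hS : Simple a B) {k : ℕ} {i j : Fin n} (hij : i ≠ j) {x x' : ℝ}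
    (hx : ht a B i x = ht a B j x) (hk : {l | ht a B l x < ht a B i x}.ncard = k)
    (h1 : ∀ l, ht a B l x < ht a B i x → ht a B l x' < ht a B i x')
    (h2 : ∀ l, ht a B i x < ht a B l x → ht a B i x' < ht a B l x')
    (h3 : ht a B i x' < ht a B j x') : level a B k x' = ht a B i x' := by
  have e : {l | ht a B l x' < ht a B i x'} = {l | ht a B l x < ht a B i x} := by
    ext l
    rw [Set.mem_ofPred_eq, Set.mem_ofPred_eq]
    constructor
    · intro h
      by_contra hcon
      push Not at hcon
      rcases hcon.lt_or_eq with h4 | h4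
      · exact lt_asymm h (h2 l h4)
      · by_cases hli : l = i
        · subst hli; exact lt_irrefl _ h
        · by_cases hlj : l = j
          · subst hlj; exact lt_asymm h h3
          · exact hS.2 i j l hij (Ne.symm hli) (Ne.symm hlj) ⟨x, hx, h4⟩
    · exact h1 l
  apply level_eq
  · rw [e, hk]
  · rw [← hk, ← e]
    exact lt_card i x'

/-- every crossing with exactly `k` lines strictly below is a vertex of the `k`-level -/
theorem psi_ge (hS : Simple a B) (k : ℕ) : ((crossings a B k).ncard : ℕ∞) ≤ psi a B k := by
  rw [(Set.toFinite (crossings a B k)).cast_ncard_eq]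
  unfold psi
  apply Set.encard_le_encard_of_injOn (f := fun q : Fin n × Fin n => cr a B q.1 q.2)
  · -- the level turns at the crossing
    have main : ∀ i j : Fin n, i ≠ j → a j < a i → ∀ x, ht a B i x = ht a B j x →
        {l | ht a B l x < ht a B i x}.ncard = k → ¬ ∃ l, level a B k =ᶠ[𝓝 x] ht a B l := by
      intro i j hij haij x hx hk
      rintro ⟨l, hl⟩
      have hcont : ∀ l, Continuous (ht a B l) := by
        intro l; unfold ht; fun_prop
      have hev : ∀ u : Fin n, ht a B u x = ht a B i x → ∀ᶠ x' in 𝓝 x, ∀ l,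
          (ht a B l x < ht a B u x → ht a B l x' < ht a B u x') ∧
          (ht a B u x < ht a B l x → ht a B u x' < ht a B l x') := by
        intro u _
        rw [eventually_all]
        intro l
        rw [Filter.eventually_and]
        constructor
        · by_cases h : ht a B l x < ht a B u x
          · filter_upwards [((hcont l).tendsto x).eventually_lt ((hcont u).tendsto x) h]
              with x' hx' _
            exact hx'
          · exact Eventually.of_forall (fun _ h' => absurd h' h)
        · by_cases h : ht a B u x < ht a B l x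
          · filter_upwards [((hcont u).tendsto x).eventually_lt ((hcont l).tendsto x) h]
              with x' hx' _
            exact hx'
          · exact Eventually.of_forall (fun _ h' => absurd h' h)
      obtain ⟨ε, hε, hball⟩ := Metric.eventually_nhds_iff.mp
        ((hl.and (hev i rfl)).and (hev j hx.symm))
      have hij' : j ≠ i := hij.symm
      have hkj : {l | ht a B l x < ht a B j x}.ncard = k := by rw [← hx]; exact hk
      -- left of the crossing
      have hleft : ∀ x', x - ε < x' → x' < x → ht a B l x' = ht a B i x' := by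
        intro x' g1 g2
        have hd : dist x' x < ε := by
          rw [Real.dist_eq, abs_lt]; constructor <;> linarith
        obtain ⟨⟨b1, b2⟩, b3⟩ := hball hd
        rw [← b1]
        apply level_side hS hij hx hk (fun l => (b2 l).1) (fun l => (b2 l).2)
        have := ht_sub i j hx x'
        nlinarith
      have hright : ∀ x', x < x' → x' < x + ε → ht a B l x' = ht a B j x' := by
        intro x' g1 g2
        have hd : dist x' x < ε := by
          rw [Real.dist_eq, abs_lt]; constructor <;> linarith
        obtain ⟨⟨b1, b2⟩, b3⟩ := hball hd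
        rw [← b1]
        apply level_side hS hij' hx.symm hkj (fun l => (b3 l).1) (fun l => (b3 l).2)
        have := ht_sub i j hx x'
        nlinarith
      have heq : ∀ u : Fin n, ∀ y z : ℝ, y ≠ z → ht a B l y = ht a B u y →
          ht a B l z = ht a B u z → l = u := by
        intro u y z hyz g1 g2
        by_contra hne
        unfold ht at g1 g2
        have g3 : (a l - a u) * (y - z) = 0 := by linarith
        have g4 : a l = a u := by
          rcases mul_eq_zero.mp g3 with h | h
          · linarith
          · exact absurd (by linarith : y = z) hyz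
        apply hS.1 l u hne g4
        rw [g4] at g1
        linarith
      have e1 : l = i := heq i (x - ε / 2) (x - ε / 3) (by intro h; linarith)
        (hleft _ (by linarith) (by linarith)) (hleft _ (by linarith) (by linarith))
      have e2 : l = j := heq j (x + ε / 2) (x + ε / 3) (by intro h; linarith)
        (hright _ (by linarith) (by linarith)) (hright _ (by linarith) (by linarith))
      exact hij (e1.symm.trans e2)
    rintro ⟨i, j⟩ ⟨h1, h2, h3⟩
    simp only at h1 h2 h3
    have h4 := ht_cr (B := B) h2
    show ¬ ∃ l, level a B k =ᶠ[𝓝 (cr a B i j)] ht a B l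
    rcases lt_or_gt_of_ne h2 with h | h
    · apply main j i h1.ne' h _ h4
      rw [h4]; exact h3
    · exact main i j h1.ne h _ h4.symm h3
  · rintro ⟨i, j⟩ ⟨h1, h2, h3⟩ ⟨i', j'⟩ ⟨h1', h2', h3'⟩ heq
    simp only at h1 h2 h3 h1' h2' h3' heq
    have h4 := ht_cr (B := B) h2
    have h4' := ht_cr (B := B) h2'
    rw [← heq] at h3' h4'
    set x := cr a B i j with hx
    have hlv : ∀ u : Fin n, {l | ht a B l x < ht a B u x}.ncard = k → level a B k x = ht a B u x := by
      intro u hu
      apply level_eq
      · rw [hu]
      · calc k = {l | ht a B l x < ht a B u x}.ncard := hu.symm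
          _ < _ := lt_card u x
    have h5 : ht a B i x = ht a B i' x := (hlv i h3).symm.trans (hlv i' h3')
    have g1 : i' = i ∨ i' = j := by
      by_contra hcon
      push Not at hcon
      exact hS.2 i j i' h1.ne (Ne.symm hcon.1) (Ne.symm hcon.2) ⟨x, h4.symm, h5⟩
    have g2 : j' = i ∨ j' = j := by
      by_contra hcon
      push Not at hcon
      exact hS.2 i j j' h1.ne (Ne.symm hcon.1) (Ne.symm hcon.2)
        ⟨x, h4.symm, h5.trans h4'.symm⟩
    rcases g1 with g1 | g1 <;> rcases g2 with g2 | g2
    · subst g1; subst g2; exact absurd h1' (lt_irrefl _)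
    · rw [g1, g2]
    · subst g1; subst g2; exact absurd h1' (lt_asymm h1)
    · subst g1; subst g2; exact absurd h1' (lt_irrefl _)

end

/-- the expected complexity of the `k`-level of random lines -/
noncomputable def expPsi (μ : Measure (ℝ × ℝ)) (n k : ℕ) : ℝ≥0∞ :=
  ∫⁻ P, (psi (sl P) (ic P) k : ℝ≥0∞) ∂Measure.pi (fun _ : Fin n => μ)

/-- expected number of crossings with exactly `k` lines strictly below -/
noncomputable def expCross (μ : Measure (ℝ × ℝ)) (n k : ℕ) : ℝ≥0∞ :=
  ∫⁻ P, ((crossings (sl P) (ic P) k).ncard : ℝ≥0∞) ∂Measure.pi (fun _ : Fin n => μ)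

theorem cross_le_psi {μ : Measure (ℝ × ℝ)} [IsProbabilityMeasure μ] (hμ : NoLine μ) (n k : ℕ) :
    expCross μ n k ≤ expPsi μ n k := by
  apply lintegral_mono_ae
  filter_upwards [ae_GP (μ := μ) hμ n] with P hP
  have h := psi_ge (simple_of_GP hP) k
  have h2 : (((crossings (sl P) (ic P) k).ncard : ℕ∞) : ℝ≥0∞) ≤ (psi (sl P) (ic P) k : ℝ≥0∞) := by
    exact_mod_cast h
  rwa [ENat.toENNReal_coe] at h2

theorem Q_le_cross {μ : Measure (ℝ × ℝ)} (n k l : ℕ) :
    ∫⁻ P, ((Q k l P).card : ℝ≥0∞) ∂Measure.pi (fun _ : Fin n => μ) ≤ expCross μ n k :=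
  lintegral_mono (fun P => Nat.cast_le.mpr (Q_le_crossings P))

end Run7.h726.HL
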