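import Pool.Agent.Run7.h726.HL.R5

/-! Upper bounds for random lines give upper bounds for all arrangements. -/

set_option autoImplicit false

namespace Run7.h726.HL

open Finset MeasureTheory Filter Topology Pool.Agent.H189R2.Iid Pool.Agent.H189R2.Lev
open Pool.Agent.Results.MP_a08d0a_co.IidLevel
open scoped ENNReal

/-- orientation and height -/
theorem D_tie {s1 t1 s2 t2 s3 t3 x : ℝ} (h : s1 * x + t1 = s2 * x + t2) :
    D (s1, t1) (s2, t2) (s3, t3) = (s1 - s2) * ((s1 * x + t1) - (s3 * x + t3)) := by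
  have h2 : t2 = s1 * x + t1 - s2 * x := by linarith
  unfold D
  simp only
  rw [h2]
  ring

section
variable {n : ℕ} {a B : Fin n → ℝ}

theorem crossings_le_Q (hS : Simple a B) {k l : ℕ} (hn : n = k + l + 2) :
    (crossings a B k).ncard ≤ (Q k l (fun i => (a i, B i))).card := by
  classical
  set P : Fin n → ℝ × ℝ := fun i => (a i, B i) with hP
  rw [← Set.ncard_coe_finset]
  -- oriented pairs
  have key : ∀ i j : Fin n, i ≠ j → a j < a i →
      {l | ht a B l (cr a B i j) < ht a B i (cr a B i j)}.ncard = k → (i, j) ∈ Q k l P := by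
    intro i j hij haij hc
    have h4 := ht_cr (B := B) haij.ne'
    set x := cr a B i j with hx
    have hD : ∀ c, D (P i) (P j) (P c) = (a i - a j) * (ht a B i x - ht a B c x) := by
      intro c
      exact D_tie (x := x) (by unfold ht at h4; linarith)
    have hpos : 0 < a i - a j := by linarith
    have hl : lf P (i, j) = k := by
      rw [← hc]
      unfold lf
      rw [← Set.ncard_coe_finset]
      congr 1
      ext c
      simp only [coe_filter, mem_univ, true_and, Set.mem_ofPred_eq]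
      rw [hD, mul_pos_iff_of_pos_left hpos, sub_pos]
    refine mem_Q.mpr ⟨haij, hl, lf_add_rt2 hn P hij ?_ hl⟩
    intro c hci hcj h0
    rw [hD] at h0
    rcases mul_eq_zero.mp h0 with h | h
    · exact hpos.ne' h
    · exact hS.2 i j c hij (Ne.symm hci) (Ne.symm hcj) ⟨x, h4.symm, by linarith⟩
  apply Set.ncard_le_ncard_of_injOn (fun q : Fin n × Fin n => if a q.2 < a q.1 then q else q.swap)
  · rintro ⟨i, j⟩ ⟨h1, h2, h3⟩
    simp only at h1 h2 h3
    show (if a j < a i then (i, j) else (j, i)) ∈ _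
    by_cases h : a j < a i
    · rw [if_pos h, mem_coe]
      exact key i j h1.ne h h3
    · rw [if_neg h, mem_coe]
      have h' : a i < a j := lt_of_le_of_ne (not_lt.mp h) h2
      apply key j i h1.ne' h'
      have h4 := ht_cr (B := B) h2
      rw [← cr_symm, h4]
      exact h3
  · rintro ⟨i, j⟩ ⟨h1, h2, _⟩ ⟨i', j'⟩ ⟨h1', h2', _⟩ heq
    simp only at h1 h2 h1' h2'
    have heq' : (if a j < a i then (i, j) else (j, i)) =
      (if a j' < a i' then (i', j') else (j', i')) := heq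
    split_ifs at heq' with h h' h'
    · exact heq'
    · rw [Prod.mk.injEq] at heq'
      rw [heq'.1, heq'.2] at h1
      exact absurd h1 (lt_asymm h1')
    · rw [Prod.mk.injEq] at heq'
      rw [heq'.1, heq'.2] at h1
      exact absurd h1 (lt_asymm h1')
    · rw [Prod.mk.injEq] at heq'
      rw [heq'.1, heq'.2]

end

/-- one configuration gives a law with many crossings: `n = m c + 2` random lines, level `c ^ 2`,
from level `c - 1` of `m` lines -/
theorem scale {m : ℕ} {a B : Fin m → ℝ} (hS : Simple a B) {k0 : ℕ} (hk : 2 * k0 + 2 ≤ m) :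
    ∃ ν : Measure (ℝ × ℝ), IsProbabilityMeasure ν ∧ NoLine ν ∧
      ENNReal.ofReal (((k0 : ℝ) + 1) / 40 * (crossings a B k0).ncard) ≤
        expCross ν (m * (k0 + 1) + 2) ((k0 + 1) ^ 2) := by
  have hm0 : (0 : ℝ) < m := by exact_mod_cast (by omega : 0 < m)
  have hinj : Function.Injective (fun i => (a i, B i)) := by
    intro i j h
    rw [Prod.mk.injEq] at h
    by_contra hij
    exact hS.1 i j hij h.1 h.2
  set k := (k0 + 1) ^ 2 with hkd
  have hkN : 2 * k ≤ m * (k0 + 1) := by rw [hkd]; nlinarith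
  obtain ⟨l, hl⟩ : ∃ l, m * (k0 + 1) = k + l := ⟨m * (k0 + 1) - k, by omega⟩
  have hk1 : 1 ≤ k := by rw [hkd]; exact Nat.one_le_pow _ _ (by omega)
  have hc0 : (0 : ℝ) < (k0 : ℝ) + 1 := by positivity
  have hN : (((k + l : ℕ) : ℝ)) = m * ((k0 : ℝ) + 1) := by
    rw [← hl]; push_cast; ring
  have hkr : (k : ℝ) = ((k0 : ℝ) + 1) ^ 2 := by rw [hkd]; push_cast; ring
  obtain ⟨ν, h1, h2, h3⟩ := lower_gen (m := m) hinj (k := k) (l := l)
    (n := m * (k0 + 1) + 2) (k0 := k0) (l0 := m - 2 - k0) (by omega) hk1 (by omega) (by omega)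
    (τ := 0) (by norm_num) (by
      rw [hN, hkr, add_zero]
      field_simp) (by
      rw [hN, hkr, Real.sqrt_sq hc0.le]
      have : 0 < (m : ℝ) * ((k0 : ℝ) + 1) := by positivity
      linarith)
  refine ⟨ν, h1, h2, le_trans (le_trans ?_ h3) (Q_le_cross _ _ _)⟩
  apply ENNReal.ofReal_le_ofReal
  have h4 : ((crossings a B k0).ncard : ℝ) ≤ ((Q k0 (m - 2 - k0) (fun i => (a i, B i))).card : ℝ) :=
    by exact_mod_cast crossings_le_Q hS (by omega)
  have h5 : ((k0 : ℝ) + 1) / 40 ≤ ((m * (k0 + 1) + 2 : ℕ) : ℝ) / (40 * m) := by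
    rw [div_le_div_iff₀ (by norm_num) (by positivity)]
    push_cast
    nlinarith
  exact mul_le_mul h5 h4 (Nat.cast_nonneg _) (by positivity)

/-- bounds for random lines give bounds for all simple arrangements -/
theorem transfer_k {γ C : ℝ} (hC : 0 ≤ C)
    (h : ∀ μ : Measure (ℝ × ℝ), IsProbabilityMeasure μ → NoLine μ → ∀ n k : ℕ, 1 ≤ k →
      2 * k + 2 ≤ n → expCross μ n k ≤ ENNReal.ofReal (C * n * (k : ℝ) ^ γ)) {m : ℕ}
    {a B : Fin m → ℝ} (hS : Simple a B) {k0 : ℕ} (hk : 2 * k0 + 2 ≤ m) :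
    ((crossings a B k0).ncard : ℝ) ≤ 80 * C * m * ((k0 : ℝ) + 1) ^ (2 * γ) := by
  obtain ⟨ν, h1, h2, h3⟩ := scale hS hk
  have hk1 : 1 ≤ (k0 + 1) ^ 2 := Nat.one_le_pow _ _ (by omega)
  have hkN : 2 * (k0 + 1) ^ 2 ≤ m * (k0 + 1) := by nlinarith
  have h4 := h3.trans (h ν h1 h2 _ _ hk1 (by omega))
  have hc0 : (0 : ℝ) < (k0 : ℝ) + 1 := by positivity
  have hm1 : (1 : ℝ) ≤ m := by exact_mod_cast (by omega : 1 ≤ m)
  rw [ENNReal.ofReal_le_ofReal_iff (by positivity)] at h4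
  have e1 : ((((k0 + 1) ^ 2 : ℕ) : ℝ)) ^ γ = ((k0 : ℝ) + 1) ^ (2 * γ) := by
    push_cast
    rw [← Real.rpow_natCast, ← Real.rpow_mul hc0.le]
    norm_num
  rw [e1] at h4
  set G := ((k0 : ℝ) + 1) ^ (2 * γ) with hG
  have hG0 : 0 ≤ G := Real.rpow_nonneg hc0.le _
  have h5 : (((m * (k0 + 1) + 2 : ℕ) : ℝ)) ≤ 2 * (m * ((k0 : ℝ) + 1)) := by
    have : m * (k0 + 1) + 2 ≤ 2 * (m * (k0 + 1)) := by nlinarith
    have h6 : (((m * (k0 + 1) + 2 : ℕ) : ℝ)) ≤ ((2 * (m * (k0 + 1)) : ℕ) : ℝ) := by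
      exact_mod_cast this
    push_cast at h6 ⊢
    exact h6
  have h6 : ((k0 : ℝ) + 1) / 40 * (crossings a B k0).ncard ≤
      ((k0 : ℝ) + 1) / 40 * (80 * C * m * G) := by
    calc _ ≤ C * (((m * (k0 + 1) + 2 : ℕ) : ℝ)) * G := h4
      _ ≤ C * (2 * (m * ((k0 : ℝ) + 1))) * G := by gcongr
      _ = _ := by ring
  exact le_of_mul_le_mul_left h6 (by positivity)

end Run7.h726.HL
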