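import Pool.Agent.Run7.h726.HL.R6

/-! The lower bound for the expected number of crossings of level `k`. -/

set_option autoImplicit false

namespace Run7.h726.HL

open Finset MeasureTheory Filter Topology Pool.Agent.H189R2.Iid Pool.Agent.H189R2.Lev
open Pool.Agent.Results.MP_a08d0a_co.IidLevel
open scoped ENNReal

/-- a family of points from the events of an arrangement -/
theorem Q_of_ev {A R : Type} [Fintype A] [Fintype R] {k0 l0 m P : ℕ} (S : KLev.Ev A R k0 P)
    (hinj : Function.Injective S.s) (hc : Fintype.card A = m) (hm : m = k0 + l0 + 2) :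
    ∃ p : Fin m → ℝ × ℝ, Function.Injective p ∧ Fintype.card R ≤ (Q k0 l0 p).card := by
  classical
  set e : Fin m ≃ A := (Fintype.equivFinOfCardEq hc).symm with he
  set p : Fin m → ℝ × ℝ := fun i => (S.s (e i), S.t (e i)) with hp
  refine ⟨p, ?_, ?_⟩
  · intro i j h
    rw [hp] at h
    simp only [Prod.mk.injEq] at h
    exact e.injective (hinj h.1)
  · rw [← card_univ]
    apply card_le_card_of_injOn (fun r => (e.symm (S.a r), e.symm (S.b r)))
    · intro r _
      rw [mem_coe]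
      have hlt := S.hs r
      have hne : e.symm (S.a r) ≠ e.symm (S.b r) := by
        intro h
        have := e.symm.injective h
        rw [this] at hlt
        exact lt_irrefl _ hlt
      have htie := S.tie r
      have hpa : p (e.symm (S.a r)) = (S.s (S.a r), S.t (S.a r)) := by
        rw [hp]; simp
      have hpb : p (e.symm (S.b r)) = (S.s (S.b r), S.t (S.b r)) := by
        rw [hp]; simp
      have hD : ∀ c, D (p (e.symm (S.a r))) (p (e.symm (S.b r))) (p c) =
          (S.s (S.a r) - S.s (S.b r)) * ((S.s (S.a r) * S.X r + S.t (S.a r)) -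
            (S.s (e c) * S.X r + S.t (e c))) := by
        intro c
        rw [hpa, hpb]
        exact D_tie htie
      have hpos : 0 < S.s (S.a r) - S.s (S.b r) := by linarith
      have hl : lf p (e.symm (S.a r), e.symm (S.b r)) = k0 := by
        refine Eq.trans ?_ (S.hcard r)
        unfold lf
        rw [card_filter, ← Equiv.sum_comp e]
        apply sum_congr rfl
        intro c _
        have h1 : (0 < D (p (e.symm (S.a r))) (p (e.symm (S.b r))) (p c)) ↔
            S.s (e c) * S.X r + S.t (e c) < S.s (S.a r) * S.X r + S.t (S.a r) := by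
          rw [hD, mul_pos_iff_of_pos_left hpos, sub_pos]
        by_cases h2 : S.s (e c) * S.X r + S.t (e c) < S.s (S.a r) * S.X r + S.t (S.a r)
        · rw [if_pos h2, if_pos (h1.mpr h2)]
        · rw [if_neg h2, if_neg (fun h3 => h2 (h1.mp h3))]
      refine mem_Q.mpr ⟨?_, hl, lf_add_rt2 hm p hne ?_ hl⟩
      · rw [hpa, hpb]; exact hlt
      · intro c hca hcb h0
        rw [hD] at h0
        rcases mul_eq_zero.mp h0 with h | h
        · exact hpos.ne' h
        · apply S.hne r (e c)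
          · intro h'; apply hca; rw [← h']; simp
          · intro h'; apply hcb; rw [← h']; simp
          · linarith
    · intro r _ r' _ h
      simp only [Prod.mk.injEq] at h
      have h1 := e.symm.injective h.1
      have h2 := e.symm.injective h.2
      apply S.hX
      have t1 := S.tie r
      have t2 := S.tie r'
      rw [← h1, ← h2] at t2
      have hlt := S.hs r
      have h3 : (S.s (S.a r) - S.s (S.b r)) * (S.X r - S.X r') = 0 := by linarith
      rcases mul_eq_zero.mp h3 with h4 | h4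
      · linarith
      · linarith

/-- many pairs at every level -/
def Many : Prop := ∀ K : ℝ, ∃ a : ℕ, ∀ k0 m : ℕ, a ≤ k0 → 2 * k0 + 1 ≤ m →
  ∃ p : Fin m → ℝ × ℝ, Function.Injective p ∧
    40 * m * (k0 : ℝ) ^ (K / (Real.log (Real.log k0)) ^ 3) ≤ ((Q k0 (m - 2 - k0) p).card : ℝ)

theorem lower_all (hM : Many) (K : ℝ) : ∃ k₀ : ℕ, ∀ k n : ℕ, k₀ ≤ k → 2 * k + 2 ≤ n →
    ∃ ν : Measure (ℝ × ℝ), IsProbabilityMeasure ν ∧ NoLine ν ∧
      ENNReal.ofReal (n * (k : ℝ) ^ (K / (Real.log (Real.log k)) ^ 3)) ≤ expCross ν n k := by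
  set K0 := max K 0 with hK0
  have hK0' : 0 ≤ K0 := le_max_right _ _
  have hK1 : K ≤ K0 := le_max_left _ _
  obtain ⟨a, ha⟩ := hM (3 * K0)
  refine ⟨(a + 20) ^ 2, fun k n hk hkn => ?_⟩
  obtain ⟨l, hl⟩ : ∃ l, n = k + l + 2 := ⟨n - k - 2, by omega⟩
  have hkl : k ≤ l := by omega
  set N := k + l with hN
  set r := Nat.sqrt k with hr
  have hr1 : r * r ≤ k := Nat.sqrt_le k
  have hr2 : k < (r + 1) * (r + 1) := Nat.lt_succ_sqrt k
  have hr3 : a + 20 ≤ r := by
    rw [hr, Nat.le_sqrt]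
    calc (a + 20) * (a + 20) = (a + 20) ^ 2 := by ring
      _ ≤ k := hk
  have hk1 : 1 ≤ k := by nlinarith
  have hN2 : 2 * k ≤ N := by omega
  have hN0 : 0 < N := by omega
  set m := N / (r + 1) with hm
  have hm1 : m * (r + 1) ≤ N := Nat.div_mul_le_self N (r + 1)
  have hm2 : N < (m + 1) * (r + 1) := Nat.lt_mul_of_div_lt (Nat.lt_succ_self _) (by omega)
  have hm3 : r ≤ m + 1 := by
    by_contra hcon
    push Not at hcon
    have : (m + 1) * (r + 1) ≤ (r - 1) * (r + 1) := Nat.mul_le_mul_right _ (by omega)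
    have h2 : (r - 1) * (r + 1) ≤ r * r := by
      obtain ⟨r', hr'⟩ : ∃ r', r = r' + 1 := ⟨r - 1, by omega⟩
      rw [hr']; simp only [Nat.add_sub_cancel]; nlinarith
    omega
  have hm0 : 0 < m := by omega
  set c := (2 * k * m + N) / (2 * N) with hc
  have hc1 : c * (2 * N) ≤ 2 * k * m + N := Nat.div_mul_le_self _ _
  have hc2 : 2 * k * m + N < (c + 1) * (2 * N) :=
    Nat.lt_mul_of_div_lt (Nat.lt_succ_self _) (by omega)
  -- size of `c`
  have hcr : r ≤ c + 1 := by
    by_contra hcon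
    push Not at hcon
    obtain ⟨r', hr'⟩ : ∃ r', r = r' + 2 := ⟨r - 2, by omega⟩
    have h1 : c + 1 ≤ r' + 1 := by omega
    have h2 : 2 * k * m + N < (r' + 1) * (2 * N) :=
      lt_of_lt_of_le hc2 (Nat.mul_le_mul_right _ h1)
    rw [hr'] at hr1 hm2 hm1
    have h3 : (2 * k * m + N) * (r' + 3) < (r' + 1) * (2 * N) * (r' + 3) :=
      Nat.mul_lt_mul_of_pos_right h2 (by omega)
    have h4 : N + 1 ≤ m * (r' + 3) + (r' + 3) := by nlinarith
    have h5 : 2 * k * (N + 1) ≤ 2 * k * (m * (r' + 3) + (r' + 3)) := Nat.mul_le_mul_left _ h4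
    have h6 : (r' + 2) * (r' + 2) * N ≤ k * N := Nat.mul_le_mul_right _ hr1
    have h7 : k * (r' + 3) * 2 ≤ N * (r' + 3) := by nlinarith
    nlinarith
  have hck : c ≤ k := by
    by_contra hcon
    push Not at hcon
    have h1 : (k + 1) * (2 * N) ≤ 2 * k * m + N := le_trans (Nat.mul_le_mul_right _ hcon) hc1
    have h2 : m ≤ N := by nlinarith
    nlinarith
  have hcm : 2 * c ≤ m + 1 := by
    by_contra hcon
    push Not at hcon
    have h1 : (m + 2) * N ≤ c * (2 * N) := by nlinarith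
    have h2 : 2 * k * m ≤ N * m := Nat.mul_le_mul_right _ hN2
    nlinarith
  obtain ⟨k0, hk0⟩ : ∃ k0, c = k0 + 1 := ⟨c - 1, by omega⟩
  have hk0m : 2 * k0 + 1 ≤ m := by omega
  obtain ⟨p, hp1, hp2⟩ := ha k0 m (by omega) hk0m
  -- the shift
  have hNr : (0 : ℝ) < (N : ℝ) := by exact_mod_cast hN0
  have hmr : (0 : ℝ) < (m : ℝ) := by exact_mod_cast hm0
  have hc1' : (c : ℝ) * (2 * N) ≤ 2 * k * m + N := by exact_mod_cast hc1
  have hc2' : 2 * (k : ℝ) * m + N < (c + 1) * (2 * N) := by exact_mod_cast hc2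
  set τ : ℝ := (k : ℝ) * m / N - c with hτ
  have hτ1 : |τ| ≤ 1 / 2 := by
    rw [abs_le]
    constructor
    · rw [hτ, le_sub_iff_add_le, le_div_iff₀ hNr]
      nlinarith
    · rw [hτ, sub_le_iff_le_add, div_le_iff₀ hNr]
      nlinarith
  have hck0 : (c : ℝ) = (k0 : ℝ) + 1 := by rw [hk0]; push_cast; ring
  have hτ2 : ((k0 : ℝ) + 1 + τ) / m = (k : ℝ) / ((k + l : ℕ) : ℝ) := by
    rw [← hck0, hτ]
    show _ = (k : ℝ) / (N : ℝ)
    field_simp
    ring
  have hsq : (m : ℝ) * Real.sqrt k ≤ 3 * ((k + l : ℕ) : ℝ) := by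
    have h1 : Real.sqrt k ≤ (r : ℝ) + 1 := by
      rw [Real.sqrt_le_left (by positivity)]
      have : (k : ℝ) < ((r : ℝ) + 1) * (r + 1) := by exact_mod_cast hr2
      nlinarith
    have h2 : (m : ℝ) * ((r : ℝ) + 1) ≤ N := by exact_mod_cast hm1
    show (m : ℝ) * Real.sqrt k ≤ 3 * (N : ℝ)
    nlinarith
  obtain ⟨ν, g1, g2, g3⟩ := lower_gen hp1 hl hk1 hkl (by omega : m = k0 + (m - 2 - k0) + 2)
    hτ1 hτ2 hsq
  refine ⟨ν, g1, g2, le_trans (le_trans (ENNReal.ofReal_le_ofReal ?_) g3) (Q_le_cross _ _ _)⟩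
  -- numbers
  have hk16 : (16 : ℝ) ≤ k0 := by
    have : 16 ≤ k0 := by omega
    exact_mod_cast this
  have hk0k : (k0 : ℝ) ≤ k := by
    have : k0 ≤ k := by omega
    exact_mod_cast this
  have hcube : (k : ℝ) ≤ (k0 : ℝ) ^ 3 := by
    have h1 : r ≤ k0 + 2 := by omega
    have h2 : k ≤ (k0 + 3) * (k0 + 3) :=
      hr2.le.trans (Nat.mul_le_mul (by omega) (by omega))
    have h3 : (k : ℝ) ≤ ((k0 : ℝ) + 3) * (k0 + 3) := by exact_mod_cast h2
    nlinarith
  have hk00 : (0 : ℝ) < k0 := by linarith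
  have hkk0 : (0 : ℝ) < k := by linarith
  have hlog1 : Real.log k ≤ 3 * Real.log k0 := by
    have h := Real.log_le_log hkk0 hcube
    rw [Real.log_pow] at h
    exact_mod_cast h
  have hlog2 : Real.log k0 ≤ Real.log k := Real.log_le_log hk00 hk0k
  have e3 : 1 < Real.log k0 := by
    rw [Real.lt_log_iff_exp_lt hk00]
    have := Real.exp_one_lt_d9
    linarith
  have e4 : 0 < Real.log (Real.log k0) := Real.log_pos e3
  have e5 : Real.log (Real.log k0) ≤ Real.log (Real.log k) := Real.log_le_log (by linarith) hlog2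
  have e6 : 0 < Real.log (Real.log k) := by linarith
  have e7 : 1 / (Real.log (Real.log k)) ^ 3 ≤ 1 / (Real.log (Real.log k0)) ^ 3 := by
    apply one_div_le_one_div_of_le (by positivity)
    exact pow_le_pow_left₀ e4.le e5 3
  have hlk : 0 < Real.log k := by linarith
  have hpow : (k : ℝ) ^ (K / (Real.log (Real.log k)) ^ 3) ≤
      (k0 : ℝ) ^ (3 * K0 / (Real.log (Real.log k0)) ^ 3) := by
    rw [Real.rpow_def_of_pos hkk0, Real.rpow_def_of_pos hk00]
    apply Real.exp_le_exp.mpr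
    calc Real.log k * (K / (Real.log (Real.log k)) ^ 3)
        ≤ Real.log k * (K0 / (Real.log (Real.log k)) ^ 3) := by gcongr
      _ = K0 * Real.log k * (1 / (Real.log (Real.log k)) ^ 3) := by ring
      _ ≤ K0 * Real.log k * (1 / (Real.log (Real.log k0)) ^ 3) := by gcongr
      _ ≤ K0 * (3 * Real.log k0) * (1 / (Real.log (Real.log k0)) ^ 3) := by gcongr
      _ = _ := by ring
  calc (n : ℝ) * (k : ℝ) ^ (K / (Real.log (Real.log k)) ^ 3)
      ≤ n * (k0 : ℝ) ^ (3 * K0 / (Real.log (Real.log k0)) ^ 3) := by gcongr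
    _ = n / (40 * m) * (40 * m * (k0 : ℝ) ^ (3 * K0 / (Real.log (Real.log k0)) ^ 3)) := by
        field_simp
    _ ≤ _ := by gcongr

end Run7.h726.HL
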