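import Pool.Agent.Run7.h726.HL.R7
import Pool.Agent.Run7.h721.KL3.Final3
import Pool.Agent.W863.AllK

/-! Every level of random lines: the unconditional lower bound. -/

set_option autoImplicit false

namespace Run7.h726.HL

open Finset MeasureTheory Filter Topology
open scoped ENNReal

theorem many_holds : Many := by
  intro K
  obtain ⟨a, ha⟩ := (Pool.Agent.Run7.h721.KL3.finalP 240 K).exists_forall_of_atTop
  refine ⟨a + 2, fun k0 m h1 h2 => ?_⟩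
  obtain ⟨N, E, P, hH, hN, hE⟩ := ha k0 (by omega)
  have hk2 : (2 : ℝ) ≤ k0 := by
    have : 2 ≤ k0 := by omega
    exact_mod_cast this
  have hk0 : (0 : ℝ) < k0 := by linarith
  have hE' := hE k0 le_rfl (by linarith)
  obtain ⟨A, R, _, _, P', S, hinj, hA, hR⟩ := Pool.Agent.W863.AllK.many' (n := m) hH
    (by omega : N ≤ k0 + 1) (by omega)
  obtain ⟨p, hp1, hp2⟩ := Q_of_ev S hinj hA (l0 := m - 2 - k0) (by omega)
  refine ⟨p, hp1, ?_⟩
  rw [hR] at hp2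
  set g := N + k0 + 1 with hg
  have g0 : 0 < g := by omega
  have g3 : g ≤ 3 * k0 := by omega
  have g4 : 1 ≤ m / g := Nat.div_pos (by omega) g0
  have g5 : m < (m / g + 1) * g := Nat.lt_mul_of_div_lt (Nat.lt_succ_self _) g0
  have g6 : m ≤ 6 * k0 * (m / g) := by
    have : (m / g + 1) * g ≤ (2 * (m / g)) * (3 * k0) := Nat.mul_le_mul (by omega) g3
    calc m ≤ (m / g + 1) * g := g5.le
      _ ≤ (2 * (m / g)) * (3 * k0) := this
      _ = _ := by ring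
  set δ : ℝ := K / (Real.log (Real.log (k0 : ℝ))) ^ 3 with hδ
  rw [Real.rpow_add hk0, Real.rpow_one] at hE'
  have g7 : (m : ℝ) ≤ 6 * k0 * ((m / g : ℕ) : ℝ) := by exact_mod_cast g6
  have g8 : (((m / g : ℕ) : ℝ)) * E ≤ ((Q k0 (m - 2 - k0) p).card : ℝ) := by exact_mod_cast hp2
  have hp : (0 : ℝ) ≤ (k0 : ℝ) ^ δ := Real.rpow_nonneg hk0.le _
  have hd : (0 : ℝ) ≤ ((m / g : ℕ) : ℝ) := Nat.cast_nonneg _
  calc 40 * (m : ℝ) * (k0 : ℝ) ^ δ ≤ 40 * (6 * k0 * ((m / g : ℕ) : ℝ)) * (k0 : ℝ) ^ δ := by gcongr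
    _ = ((m / g : ℕ) : ℝ) * (240 * (k0 * (k0 : ℝ) ^ δ)) := by ring
    _ ≤ ((m / g : ℕ) : ℝ) * E := mul_le_mul_of_nonneg_left hE' hd
    _ ≤ _ := g8

theorem random_levels (K : ℝ) : ∃ k₀ : ℕ, ∀ k n : ℕ, k₀ ≤ k → 2 * k + 2 ≤ n →
    ∃ ν : Measure (ℝ × ℝ), IsProbabilityMeasure ν ∧ NoLine ν ∧
      ENNReal.ofReal (n * (k : ℝ) ^ (K / (Real.log (Real.log k)) ^ 3)) ≤ expCross ν n k :=
  lower_all many_holds K

end Run7.h726.HL
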