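import Pool.Agent.Run7.h726.HL.R8

/-! Random lines: final statements in terms of the complexity of a level. -/

set_option autoImplicit false

namespace Run7.h726.HL

open Finset MeasureTheory Filter Topology Pool.Agent.H189R2.Iid Pool.Agent.H189R2.Lev
open Pool.Agent.Results.MP_a08d0a_co.IidLevel
open scoped ENNReal

theorem ae_simple {μ : Measure (ℝ × ℝ)} [IsProbabilityMeasure μ] (hμ : NoLine μ) (n : ℕ) :
    ∀ᵐ P ∂Measure.pi (fun _ : Fin n => μ), Simple (sl P) (ic P) := by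
  filter_upwards [ae_GP (μ := μ) hμ n] with P hP
  exact simple_of_GP hP

theorem transfer_psi {γ C : ℝ} (hγ : 0 ≤ γ) (hC : 0 ≤ C)
    (h : ∀ μ : Measure (ℝ × ℝ), IsProbabilityMeasure μ → NoLine μ → ∀ n k : ℕ, 1 ≤ k →
      2 * k + 2 ≤ n → expPsi μ n k ≤ ENNReal.ofReal (C * n * (k : ℝ) ^ γ)) {m : ℕ}
    {a B : Fin m → ℝ} (hS : Simple a B) {k : ℕ} (hk : 2 * k + 2 ≤ m) :
    (psi a B k : ℝ≥0∞) ≤ ENNReal.ofReal (160 * C * m * ((k : ℝ) + 1) ^ (2 * γ)) := by
  have h' : ∀ μ : Measure (ℝ × ℝ), IsProbabilityMeasure μ → NoLine μ → ∀ n k : ℕ, 1 ≤ k →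
      2 * k + 2 ≤ n → expCross μ n k ≤ ENNReal.ofReal (C * n * (k : ℝ) ^ γ) := by
    intro μ hμ1 hμ2 n k h1 h2
    exact (cross_le_psi hμ2 n k).trans (h μ hμ1 hμ2 n k h1 h2)
  set G := 80 * C * m * ((k : ℝ) + 1) ^ (2 * γ) with hG
  have hG0 : 0 ≤ G := by positivity
  have b1 : ((crossings a B k).ncard : ℝ) ≤ G := transfer_k hC h' hS hk
  have b2 : ((if k = 0 then 0 else (crossings a B (k - 1)).ncard : ℕ) : ℝ) ≤ G := by
    split_ifs with h0
    · simpa using hG0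
    · refine (transfer_k hC h' hS (k0 := k - 1) (by omega)).trans ?_
      rw [hG]
      have h1 : (((k - 1 : ℕ) : ℝ)) + 1 ≤ (k : ℝ) + 1 := by
        have : (((k - 1 : ℕ) : ℝ)) ≤ k := by exact_mod_cast Nat.sub_le k 1
        linarith
      have h2 : ((((k - 1 : ℕ) : ℝ)) + 1) ^ (2 * γ) ≤ ((k : ℝ) + 1) ^ (2 * γ) :=
        Real.rpow_le_rpow (by positivity) h1 (by positivity)
      gcongr
  have b3 := psi_le hS (k := k) (by omega)
  have b4 : (psi a B k : ℝ≥0∞) ≤ (((crossings a B k).ncard +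
      (if k = 0 then 0 else (crossings a B (k - 1)).ncard) : ℕ) : ℝ≥0∞) := by
    have : (psi a B k : ℝ≥0∞) ≤ ((((crossings a B k).ncard +
      (if k = 0 then 0 else (crossings a B (k - 1)).ncard) : ℕ) : ℕ∞) : ℝ≥0∞) := by
      exact_mod_cast b3
    rwa [ENat.toENNReal_coe] at this
  refine b4.trans ?_
  rw [← ENNReal.ofReal_natCast]
  apply ENNReal.ofReal_le_ofReal
  push_cast at b2 ⊢
  calc _ ≤ G + G := add_le_add b1 b2
    _ = _ := by rw [hG]; ring

end Run7.h726.HL
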